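import Mathlib

/-!
# Superbases of the integer lattice, pairings and separation
-/

namespace Pool.Agent.Helper84.FL

/-- pairing of a real vector with an integer vector -/
def pz (n : Fin 3 → ℝ) (z : Fin 3 → ℤ) : ℝ := ∑ k, n k * (z k : ℝ)

/-- pairing of two real vectors -/
def pr (n x : Fin 3 → ℝ) : ℝ := ∑ k, n k * x k

/-- A superbase of the integer lattice of dimension three: four integer vectors with sum zero
which generate the lattice. -/
structure Superbase (f : Fin 4 → Fin 3 → ℤ) : Prop where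
  sum : ∑ l, f l = 0
  span : ∀ z : Fin 3 → ℤ, ∃ a : Fin 4 → ℤ, z = ∑ l, a l • f l

/-- `n` is in position `j` with respect to `f`: it is nonzero and its products with the three
vectors `f l`, `l ≠ j`, are nonnegative. -/
def InPos (f : Fin 4 → Fin 3 → ℤ) (n : Fin 3 → ℝ) (j : Fin 4) : Prop :=
  n ≠ 0 ∧ ∀ l, l ≠ j → 0 ≤ pz n (f l)

/-- Every lattice point is separated from `K` by a vector having at most one negative product with
the vectors of the superbase. -/
def Sep (f : Fin 4 → Fin 3 → ℤ) (K : Set (Fin 3 → ℝ)) : Prop :=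
  ∀ z : Fin 3 → ℤ, ∃ n : Fin 3 → ℝ, ∃ j : Fin 4, InPos f n j ∧ ∀ x ∈ K, pr n x ≤ pz n z

/-- some nonzero integer direction in which the width of `K` is at most `w` -/
def WidthLe (K : Set (Fin 3 → ℝ)) (w : ℝ) : Prop :=
  ∃ y : Fin 3 → ℤ, y ≠ 0 ∧ ∀ x ∈ K, ∀ x' ∈ K, ∑ i, (x i - x' i) * (y i : ℝ) ≤ w

/-- total forward flow of a flow on four nodes in the order `0, 1, 2, 3` -/
def fwd (F : Fin 4 → Fin 4 → ℝ) : ℝ := F 0 1 + F 0 2 + F 0 3 + F 1 2 + F 1 3 + F 2 3

end Pool.Agent.Helper84.FL
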