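import Pool.Agent.Helper84.FL.Geom

namespace Pool.Agent.Helper84.FL

/-- dual basis with respect to the fourth vector -/
theorem dual_basis (f : Fin 4 → Fin 3 → ℤ) (hf : Superbase f) :
    ∃ w : Fin 4 → Fin 3 → ℤ, ∀ i l, ∑ k, w i k * f l k
      = (if l = i then 1 else 0) - (if l = 3 then 1 else 0) := by
  have hsum : ∀ k, f 3 k = -(f 0 k + f 1 k + f 2 k) := by
    intro k
    have h := congrFun hf.sum k
    rw [Fin.sum_univ_four] at h
    simp only [Pi.add_apply, Pi.zero_apply] at h
    linarith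
  choose a ha using fun k : Fin 3 => hf.span (Pi.single k 1)
  obtain ⟨B, hB⟩ : ∃ B : Matrix (Fin 3) (Fin 3) ℤ, B = fun l k => f l.castSucc k := ⟨_, rfl⟩
  obtain ⟨A, hA⟩ : ∃ A : Matrix (Fin 3) (Fin 3) ℤ, A = fun k l => a k l.castSucc - a k 3 :=
    ⟨_, rfl⟩
  have hAB : A * B = 1 := by
    ext k m
    rw [Matrix.mul_apply, Fin.sum_univ_three]
    have h := congrFun (ha k) m
    rw [Fin.sum_univ_four] at h
    simp only [Pi.add_apply, Pi.smul_apply, smul_eq_mul] at h
    rw [hsum m] at h
    have h1 : (1 : Matrix (Fin 3) (Fin 3) ℤ) k m = (Pi.single k 1 : Fin 3 → ℤ) m := by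
      rw [Matrix.one_apply, Pi.single_apply]
      congr 1
      exact propext eq_comm
    rw [h1, h, hA, hB]
    show (a k 0 - a k 3) * f 0 m + (a k 1 - a k 3) * f 1 m + (a k 2 - a k 3) * f 2 m = _
    ring
  have hBA : B * A = 1 := mul_eq_one_comm.1 hAB
  have hBA' : ∀ l i : Fin 3, ∑ k, A k i * f l.castSucc k = if l = i then 1 else 0 := by
    intro l i
    have h := congrFun (congrFun hBA l) i
    rw [Matrix.mul_apply, Matrix.one_apply] at h
    rw [← h, hB]
    exact Finset.sum_congr rfl fun k _ => mul_comm _ _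
  refine ⟨fun i k => if h : i = 3 then 0 else A k (i.castPred h), ?_⟩
  intro i l
  by_cases hi : i = 3
  · subst hi
    simp
  · simp only [hi, dif_neg, not_false_eq_true]
    obtain ⟨i', rfl⟩ : ∃ i' : Fin 3, i = i'.castSucc := ⟨i.castPred hi, by simp⟩
    simp only [Fin.castPred_castSucc]
    by_cases hl : l = 3
    · subst hl
      have e0 := hBA' 0 i'
      have e1 := hBA' 1 i'
      have e2 := hBA' 2 i'
      rw [Fin.sum_univ_three] at e0 e1 e2
      rw [Fin.sum_univ_three, hsum 0, hsum 1, hsum 2]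
      have h3 : ¬ ((3 : Fin 4) = i'.castSucc) := fun h => hi h.symm
      rw [if_neg h3, if_pos rfl]
      have h4 : (if (0 : Fin 3) = i' then (1 : ℤ) else 0) + (if (1 : Fin 3) = i' then 1 else 0)
          + (if (2 : Fin 3) = i' then 1 else 0) = 1 :=
        (Fin.sum_univ_three (fun l => if l = i' then (1 : ℤ) else 0)).symm.trans (by simp)
      simp only [Fin.castSucc_zero, Fin.castSucc_one] at e0 e1 e2
      have e2' : A 0 i' * f 2 0 + A 1 i' * f 2 1 + A 2 i' * f 2 2
          = if (2 : Fin 3) = i' then 1 else 0 := e2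
      have e0' : A 0 i' * f 0 0 + A 1 i' * f 0 1 + A 2 i' * f 0 2
          = if (0 : Fin 3) = i' then 1 else 0 := e0
      have e1' : A 0 i' * f 1 0 + A 1 i' * f 1 1 + A 2 i' * f 1 2
          = if (1 : Fin 3) = i' then 1 else 0 := e1
      linear_combination -h4 - e0' - e1' - e2'
    · obtain ⟨l', rfl⟩ : ∃ l' : Fin 3, l = l'.castSucc := ⟨l.castPred hl, by simp⟩
      rw [if_neg hl, sub_zero, hBA' l' i']
      congr 1
      exact propext Fin.castSucc_inj.symm

/-- FL-7: dual vectors of a superbase (integer). -/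
theorem dual_vec (f : Fin 4 → Fin 3 → ℤ) (hf : Superbase f) (i j : Fin 4) (hij : i ≠ j) :
    ∃ u : Fin 3 → ℤ, u ≠ 0 ∧ ∀ l, ∑ k, u k * f l k
      = (if l = i then 1 else 0) - (if l = j then 1 else 0) := by
  obtain ⟨w, hw⟩ := dual_basis f hf
  have h : ∀ l, ∑ k, (w i - w j) k * f l k
      = (if l = i then 1 else 0) - (if l = j then 1 else 0) := by
    intro l
    have e : ∑ k, (w i - w j) k * f l k = ∑ k, w i k * f l k - ∑ k, w j k * f l k := by
      rw [← Finset.sum_sub_distrib]
      exact Finset.sum_congr rfl fun k _ => by simp only [Pi.sub_apply]; ring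
    rw [e, hw, hw]
    ring
  refine ⟨w i - w j, ?_, h⟩
  intro h0
  have h1 := h i
  rw [h0, if_pos rfl, if_neg hij] at h1
  simp at h1

/-- FL-7: real functionals with prescribed values on a superbase. -/
theorem real_dual (f : Fin 4 → Fin 3 → ℤ) (hf : Superbase f) (b : Fin 4 → ℝ) (hb : ∑ l, b l = 0) :
    ∃ u : Fin 3 → ℝ, ∀ l, pz u (f l) = b l := by
  obtain ⟨w, hw⟩ := dual_basis f hf
  refine ⟨fun k => ∑ i, b i * (w i k : ℝ), fun l => ?_⟩
  have hw' : ∀ i l, ∑ k, (w i k : ℝ) * (f l k : ℝ)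
      = (if l = i then 1 else 0) - (if l = 3 then 1 else 0) := by
    intro i l
    have := congrArg (Int.cast : ℤ → ℝ) (hw i l)
    push_cast at this
    exact this
  have e1 : pz (fun k => ∑ i, b i * (w i k : ℝ)) (f l)
      = ∑ i, b i * ∑ k, (w i k : ℝ) * (f l k : ℝ) := by
    unfold pz
    simp only [Finset.sum_mul, Finset.mul_sum]
    rw [Finset.sum_comm]
    exact Finset.sum_congr rfl fun i _ => Finset.sum_congr rfl fun k _ => by ring
  rw [e1]
  simp only [hw', mul_sub, Finset.sum_sub_distrib]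
  rw [← Finset.sum_mul, hb, zero_mul, sub_zero]
  simp

/-- FL-7: a real functional is determined by its values on a superbase. -/
theorem eq_of_pz (f : Fin 4 → Fin 3 → ℤ) (hf : Superbase f) (u v : Fin 3 → ℝ)
    (h : ∀ l, pz u (f l) = pz v (f l)) : u = v := by
  have key : ∀ (u : Fin 3 → ℝ) (a : Fin 4 → ℤ),
      pz u (∑ l, a l • f l) = ∑ l, (a l : ℝ) * pz u (f l) := by
    intro u a
    unfold pz
    simp only [Finset.sum_apply, Pi.smul_apply, smul_eq_mul, Int.cast_sum, Int.cast_mul,
      Finset.mul_sum]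
    rw [Finset.sum_comm]
    exact Finset.sum_congr rfl fun i _ => Finset.sum_congr rfl fun k _ => by ring
  funext k
  obtain ⟨a, ha⟩ := hf.span (Pi.single k 1)
  have e : ∀ u : Fin 3 → ℝ, u k = pz u (Pi.single k 1) := by
    intro u
    unfold pz
    rw [Finset.sum_eq_single k]
    · simp
    · intro m _ hm
      simp [hm]
    · intro hk
      exact absurd (Finset.mem_univ k) hk
  rw [e u, e v, ha, key, key]
  exact Finset.sum_congr rfl fun l _ => by rw [h l]

end Pool.Agent.Helper84.FL
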