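import Mathlib
import Pool.Agent.Helper52.Brouwer.Main

namespace Pool.Agent.Helper84.FL

/-- the vertices of the Kuhn simplex with base `z` and order `π` -/
def kv (z : Fin 3 → ℤ) (π : Equiv.Perm (Fin 3)) (k : ℕ) : Fin 3 → ℤ :=
  fun i => z i + if ((π.symm i : Fin 3) : ℕ) < k then 1 else 0

/-- beginning of the time interval during which the floor of `x + t (1,1,1)` is `v` -/
noncomputable def kuhnA (v : Fin 3 → ℤ) (x : Fin 3 → ℝ) : ℝ :=
  max 0 (max ((v 0 : ℝ) - x 0) (max ((v 1 : ℝ) - x 1) ((v 2 : ℝ) - x 2)))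

/-- end of the time interval during which the floor of `x + t (1,1,1)` is `v` -/
noncomputable def kuhnB (v : Fin 3 → ℤ) (x : Fin 3 → ℝ) : ℝ :=
  min 1 (min ((v 0 : ℝ) + 1 - x 0) (min ((v 1 : ℝ) + 1 - x 1) ((v 2 : ℝ) + 1 - x 2)))

/-- length of the time interval during which the floor of `x + t (1,1,1)` is `v` -/
noncomputable def kuhnPhi (v : Fin 3 → ℤ) (x : Fin 3 → ℝ) : ℝ := max 0 (kuhnB v x - kuhnA v x)

theorem kuhnPhi_cont (v : Fin 3 → ℤ) : Continuous (kuhnPhi v) := by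
  unfold kuhnPhi kuhnA kuhnB
  fun_prop

theorem kuhnPhi_nonneg (v : Fin 3 → ℤ) (x : Fin 3 → ℝ) : 0 ≤ kuhnPhi v x := le_max_left _ _

theorem kuhnPhi_pos {v : Fin 3 → ℤ} {x : Fin 3 → ℝ} (h : 0 < kuhnPhi v x) :
    ∃ t : ℝ, 0 ≤ t ∧ t < 1 ∧ ∀ i, (v i : ℝ) ≤ x i + t ∧ x i + t < (v i : ℝ) + 1 := by
  have h1 : kuhnA v x < kuhnB v x := by
    unfold kuhnPhi at h
    rcases lt_max_iff.1 h with h | h
    · exact absurd h (lt_irrefl _)
    · linarith
  refine ⟨kuhnA v x, le_max_left _ _, lt_of_lt_of_le h1 (min_le_left _ _), ?_⟩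
  have hA : ∀ i, (v i : ℝ) - x i ≤ kuhnA v x := by
    intro i
    unfold kuhnA
    fin_cases i <;> simp
  have hB : ∀ i, kuhnB v x ≤ (v i : ℝ) + 1 - x i := by
    intro i
    unfold kuhnB
    fin_cases i <;> simp
  intro i
  have a := hA i
  have b := hB i
  constructor <;> linarith

theorem kuhnPhi_floor (x : Fin 3 → ℝ) : 0 < kuhnPhi (fun i => ⌊x i⌋) x := by
  have hA : kuhnA (fun i => ⌊x i⌋) x ≤ 0 := by
    unfold kuhnA
    simp only [max_le_iff, sub_nonpos]
    exact ⟨le_refl _, Int.floor_le _, Int.floor_le _, Int.floor_le _⟩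
  have hB : 0 < kuhnB (fun i => ⌊x i⌋) x := by
    unfold kuhnB
    simp only [lt_min_iff, sub_pos]
    exact ⟨one_pos, Int.lt_floor_add_one _, Int.lt_floor_add_one _, Int.lt_floor_add_one _⟩
  unfold kuhnPhi
  apply lt_max_of_lt_right
  linarith

/-- the values at the labels -/
def kuhnH (l : Fin 4) (i : Fin 3) : ℝ := if l = i.castSucc then -1 else if l = 3 then 1 else 0

theorem kuhn_castSucc_ne (i : Fin 3) : (3 : Fin 4) ≠ i.castSucc := by
  fin_cases i <;> decide

theorem kuhn_chain (x : Fin 3 → ℝ) : ∃ π : Equiv.Perm (Fin 3), ∀ t : ℝ, 0 ≤ t → t < 1 →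
    ∃ k : ℕ, k ≤ 3 ∧ kv (fun i => ⌊x i⌋) π k = fun i => ⌊x i + t⌋ := by
  set π := Tuple.sort (fun i => -(Int.fract (x i))) with hπ
  have hmono := Tuple.monotone_sort (fun i => -(Int.fract (x i)))
  refine ⟨π, fun t ht0 ht1 => ?_⟩
  have hfl : ∀ i, ⌊x i + t⌋ = ⌊x i⌋ + if 1 ≤ Int.fract (x i) + t then 1 else 0 := by
    intro i
    have hx : x i = (⌊x i⌋ : ℝ) + Int.fract (x i) := (Int.floor_add_fract _).symm
    have hf0 := Int.fract_nonneg (x i)
    have hf1 := Int.fract_lt_one (x i)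
    split_ifs with h
    · rw [Int.floor_eq_iff]
      push_cast
      constructor <;> linarith
    · rw [Int.floor_eq_iff]
      push_cast
      constructor <;> linarith
  have h01 : Int.fract (x (π 1)) ≤ Int.fract (x (π 0)) := by
    have := hmono (show (0 : Fin 3) ≤ 1 by decide)
    simp only [Function.comp] at this
    linarith
  have h12 : Int.fract (x (π 2)) ≤ Int.fract (x (π 1)) := by
    have := hmono (show (1 : Fin 3) ≤ 2 by decide)
    simp only [Function.comp] at this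
    linarith
  -- it suffices to compare along the order
  have key : ∀ k : ℕ, (∀ j : Fin 3, ((j : ℕ) < k ↔ 1 ≤ Int.fract (x (π j)) + t)) →
      kv (fun i => ⌊x i⌋) π k = fun i => ⌊x i + t⌋ := by
    intro k hk
    funext i
    have := hk (π.symm i)
    rw [Equiv.apply_symm_apply] at this
    simp only [kv, hfl]
    by_cases h : ((π.symm i : Fin 3) : ℕ) < k
    · rw [if_pos h, if_pos (this.1 h)]
    · rw [if_neg h, if_neg (fun h' => h (this.2 h'))]
  by_cases c2 : 1 ≤ Int.fract (x (π 2)) + t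
  · refine ⟨3, le_refl _, key 3 (fun j => ?_)⟩
    fin_cases j
    · simp; linarith
    · simp; linarith
    · simpa using c2
  by_cases c1 : 1 ≤ Int.fract (x (π 1)) + t
  · refine ⟨2, by norm_num, key 2 (fun j => ?_)⟩
    fin_cases j
    · simp; linarith
    · simpa using c1
    · simpa using c2
  by_cases c0 : 1 ≤ Int.fract (x (π 0)) + t
  · refine ⟨1, by norm_num, key 1 (fun j => ?_)⟩
    fin_cases j
    · simpa using c0
    · simpa using c1
    · simpa using c2
  · refine ⟨0, by norm_num, key 0 (fun j => ?_)⟩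
    fin_cases j
    · simpa using c0
    · simpa using c1
    · simpa using c2

/-- FL-11: a Sperner lemma for the Kuhn triangulation of a cube with four labels. -/
theorem kuhn_sperner (M : ℕ) (hM : 0 < M) (lab : (Fin 3 → ℤ) → Fin 4)
    (hhi : ∀ z : Fin 3 → ℤ, (∀ i, |z i| ≤ M) → ∀ i, z i = M → lab z ≠ i.castSucc)
    (hlo : ∀ z : Fin 3 → ℤ, (∀ i, |z i| ≤ M) → ∀ i, z i = -M → lab z ≠ 3) :
    ∃ (z : Fin 3 → ℤ) (π : Equiv.Perm (Fin 3)), (∀ i, -(M : ℤ) ≤ z i ∧ z i < M) ∧
      ∀ l : Fin 4, ∃ k : ℕ, k ≤ 3 ∧ lab (kv z π k) = l := by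
  classical
  set box : Finset (Fin 3 → ℤ) := Finset.Icc (fun _ => -(M : ℤ)) (fun _ => (M : ℤ)) with hbox
  have hmem : ∀ v, v ∈ box ↔ ∀ i, -(M : ℤ) ≤ v i ∧ v i ≤ M := by
    intro v
    rw [hbox, Finset.mem_Icc, Pi.le_def, Pi.le_def]
    exact ⟨fun h i => ⟨h.1 i, h.2 i⟩, fun h => ⟨fun i => (h i).1, fun i => (h i).2⟩⟩
  have habs : ∀ v ∈ box, ∀ i, |v i| ≤ (M : ℤ) := by
    intro v hv i
    rw [abs_le]
    exact (hmem v).1 hv i
  let F : (Fin 3 → ℝ) → (Fin 3 → ℝ) := fun x i => ∑ v ∈ box, kuhnPhi v x * kuhnH (lab v) i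
  have hF : Continuous F := by
    refine continuous_pi (fun i => ?_)
    refine continuous_finset_sum _ (fun v _ => ?_)
    exact (kuhnPhi_cont v).mul continuous_const
  have hab : (fun _ : Fin 3 => -(M : ℝ)) ≤ (fun _ => (M : ℝ)) := by
    intro i
    have : (0 : ℝ) ≤ (M : ℝ) := Nat.cast_nonneg M
    show -(M : ℝ) ≤ (M : ℝ)
    linarith
  obtain ⟨x, hx, hx0⟩ := Pool.Agent.Helper52.Brouwer.poincare_miranda _ _ hab F hF.continuousOn
    (by
      intro x hx i hi
      refine Finset.sum_nonpos (fun v hv => ?_)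
      by_cases hp : 0 < kuhnPhi v x
      · obtain ⟨t, ht0, ht1, ht⟩ := kuhnPhi_pos hp
        have hvi : v i = -(M : ℤ) := by
          have h1 := (ht i).1
          have h2 := ((hmem v).1 hv i).1
          rw [hi] at h1
          have h3 : (v i : ℝ) < ((-(M : ℤ) + 1 : ℤ) : ℝ) := by push_cast; linarith
          have h4 : v i < -(M : ℤ) + 1 := by exact_mod_cast h3
          omega
        have hl := hlo v (habs v hv) i hvi
        have : kuhnH (lab v) i ≤ 0 := by
          unfold kuhnH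
          rw [if_neg hl]
          split_ifs <;> norm_num
        exact mul_nonpos_of_nonneg_of_nonpos hp.le this
      · have : kuhnPhi v x = 0 := le_antisymm (not_lt.1 hp) (kuhnPhi_nonneg v x)
        rw [this, zero_mul])
    (by
      intro x hx i hi
      refine Finset.sum_nonneg (fun v hv => ?_)
      by_cases hp : 0 < kuhnPhi v x
      · obtain ⟨t, ht0, ht1, ht⟩ := kuhnPhi_pos hp
        have hvi : v i = (M : ℤ) := by
          have h1 := (ht i).2
          have h2 := ((hmem v).1 hv i).2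
          rw [hi] at h1
          have h3 : ((M : ℤ) : ℝ) < ((v i + 1 : ℤ) : ℝ) := by push_cast; linarith
          have h4 : (M : ℤ) < v i + 1 := by exact_mod_cast h3
          omega
        have hl := hhi v (habs v hv) i hvi
        have : 0 ≤ kuhnH (lab v) i := by
          unfold kuhnH
          rw [if_neg hl]
          split_ifs <;> norm_num
        exact mul_nonneg hp.le this
      · have : kuhnPhi v x = 0 := le_antisymm (not_lt.1 hp) (kuhnPhi_nonneg v x)
        rw [this, zero_mul])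
  -- the weights of the labels
  let W : Fin 4 → ℝ := fun l => ∑ v ∈ box.filter (fun v => lab v = l), kuhnPhi v x
  have hW : ∀ i : Fin 3, W i.castSucc = W 3 := by
    intro i
    have h1 : F x i = W 3 - W i.castSucc := by
      show ∑ v ∈ box, kuhnPhi v x * kuhnH (lab v) i = _
      simp only [W, Finset.sum_filter]
      rw [← Finset.sum_sub_distrib]
      refine Finset.sum_congr rfl (fun v _ => ?_)
      unfold kuhnH
      by_cases h3 : lab v = 3
      · have : ¬ ((3 : Fin 4) = i.castSucc) := kuhn_castSucc_ne i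
        rw [h3, if_neg this, if_pos rfl, if_neg this, if_pos rfl]
        ring
      · by_cases hi : lab v = i.castSucc
        · rw [if_pos hi, if_neg h3, if_pos hi]
          ring
        · rw [if_neg hi, if_neg h3, if_neg h3, if_neg hi]
          ring
    have h2 : F x i = 0 := by rw [hx0]; rfl
    linarith
  have hfl : (fun i => ⌊x i⌋) ∈ box := by
    rw [hmem]
    intro i
    have a1 := hx.1 i
    have a2 := hx.2 i
    simp only at a1 a2
    constructor
    · rw [Int.le_floor]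
      push_cast
      exact a1
    · have h3 : ((⌊x i⌋ : ℤ) : ℝ) ≤ ((M : ℤ) : ℝ) := by
        push_cast
        exact (Int.floor_le _).trans a2
      exact_mod_cast h3
  have hWpos : 0 < W (lab (fun i => ⌊x i⌋)) := by
    refine Finset.sum_pos' (fun v _ => kuhnPhi_nonneg v x) ⟨_, ?_, kuhnPhi_floor x⟩
    rw [Finset.mem_filter]
    exact ⟨hfl, rfl⟩
  have hW3 : ∀ l : Fin 4, W l = W 3 := by
    intro l
    rcases Fin.eq_castSucc_or_eq_last l with ⟨i, rfl⟩ | rfl
    · exact hW i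
    · rfl
  have hWall : ∀ l : Fin 4, 0 < W l := by
    intro l
    rw [hW3 l, ← hW3 (lab (fun i => ⌊x i⌋))]
    exact hWpos
  have hex : ∀ l : Fin 4, ∃ v ∈ box, lab v = l ∧ 0 < kuhnPhi v x := by
    intro l
    obtain ⟨v, hv, hv0⟩ := Finset.exists_ne_zero_of_sum_ne_zero (hWall l).ne'
    rw [Finset.mem_filter] at hv
    exact ⟨v, hv.1, hv.2, lt_of_le_of_ne (kuhnPhi_nonneg v x) (Ne.symm hv0)⟩
  obtain ⟨π, hπ⟩ := kuhn_chain x
  refine ⟨fun i => ⌊x i⌋, π, ?_, ?_⟩
  · intro i
    refine ⟨((hmem _).1 hfl i).1, ?_⟩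
    by_contra hcon
    obtain ⟨v, hv, hvl, hp⟩ := hex i.castSucc
    obtain ⟨t, ht0, ht1, ht⟩ := kuhnPhi_pos hp
    refine hhi v (habs v hv) i ?_ hvl
    have h1 := (ht i).2
    have h2 := ((hmem v).1 hv i).2
    have h3 : (M : ℤ) ≤ ⌊x i⌋ := not_lt.1 hcon
    have h4 : ((M : ℤ) : ℝ) ≤ x i := Int.le_floor.1 h3
    have h5 : ((M : ℤ) : ℝ) < ((v i + 1 : ℤ) : ℝ) := by push_cast at h4 ⊢; linarith
    have h6 : (M : ℤ) < v i + 1 := by exact_mod_cast h5
    omega
  · intro l
    obtain ⟨v, hv, hvl, hp⟩ := hex l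
    obtain ⟨t, ht0, ht1, ht⟩ := kuhnPhi_pos hp
    obtain ⟨k, hk, hkv⟩ := hπ t ht0 ht1
    refine ⟨k, hk, ?_⟩
    rw [hkv]
    have : (fun i => ⌊x i + t⌋) = v := by
      funext i
      rw [Int.floor_eq_iff]
      exact ht i
    rw [this, hvl]

end Pool.Agent.Helper84.FL
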