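import Pool.Agent.Helper84.FL.Geom
import Pool.Agent.Helper84.FL.Dual
import Pool.Agent.Helper84.FL.Kuhn

namespace Pool.Agent.Helper84.FL

/-- coordinates extended by zero -/
def labC (z : Fin 3 → ℤ) (l : Fin 4) : ℤ := if h : (l : ℕ) < 3 then z ⟨l, h⟩ else 0

/-- the lattice point with given coordinates -/
def labE (f : Fin 4 → Fin 3 → ℤ) (z : Fin 3 → ℤ) : Fin 3 → ℤ := ∑ l, labC z l • f l

theorem labC_castSucc (z : Fin 3 → ℤ) (i : Fin 3) : labC z i.castSucc = z i := by
  unfold labC
  rw [dif_pos (by simp)]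
  rfl

theorem labC_three (z : Fin 3 → ℤ) : labC z 3 = 0 := by
  unfold labC
  rw [dif_neg (by decide)]

theorem pz_add (n : Fin 3 → ℝ) (z w : Fin 3 → ℤ) : pz n (z + w) = pz n z + pz n w := by
  unfold pz
  rw [← Finset.sum_add_distrib]
  apply Finset.sum_congr rfl
  intro k _
  rw [Pi.add_apply, Int.cast_add]
  ring

theorem pz_labE (f : Fin 4 → Fin 3 → ℤ) (n : Fin 3 → ℝ) (z : Fin 3 → ℤ) :
    pz n (labE f z) = ∑ l, (labC z l : ℝ) * pz n (f l) := by
  unfold pz labE
  simp only [Finset.sum_apply, Pi.smul_apply, smul_eq_mul, Int.cast_sum, Int.cast_mul,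
    Finset.mul_sum]
  rw [Finset.sum_comm]
  apply Finset.sum_congr rfl
  intro l _
  apply Finset.sum_congr rfl
  intro k _
  ring

/-- points separated by a vector in position `j` -/
def LabL (f : Fin 4 → Fin 3 → ℤ) (K : Set (Fin 3 → ℝ)) (j : Fin 4) (z : Fin 3 → ℤ) : Prop :=
  ∃ n : Fin 3 → ℝ, InPos f n j ∧ ∀ x ∈ K, pr n x ≤ pz n z

theorem LabL.step {f : Fin 4 → Fin 3 → ℤ} {K : Set (Fin 3 → ℝ)} {j l : Fin 4}
    {z : Fin 3 → ℤ} (h : LabL f K j z) (hl : l ≠ j) : LabL f K j (z + f l) := by
  obtain ⟨n, hn, hx⟩ := h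
  refine ⟨n, hn, fun x hxK => (hx x hxK).trans ?_⟩
  rw [pz_add]
  have := hn.2 l hl
  linarith

/-- far away points -/
theorem lab_far (f : Fin 4 → Fin 3 → ℤ) (hf : Superbase f) (K : Set (Fin 3 → ℝ))
    (hK : Bornology.IsBounded K) : ∃ M : ℕ, 0 < M ∧ ∀ (z : Fin 3 → ℤ) (i j : Fin 4), i ≠ j →
      labC z j + M ≤ labC z i → LabL f K j (labE f z) := by
  obtain ⟨R, hR⟩ := (Metric.isBounded_iff_subset_closedBall 0).mp hK
  have hex : ∀ i j : Fin 4, ∃ u : Fin 3 → ℝ, ∀ l, pz u (f l) =
      (if l = i then (1 : ℝ) else 0) - (if l = j then 1 else 0) := by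
    intro i j
    apply real_dual f hf
    rw [Finset.sum_sub_distrib]
    simp
  choose u hu using hex
  have hb : ∀ i j : Fin 4, ∃ m : ℕ, ∀ x ∈ K, pr (u i j) x ≤ m := by
    intro i j
    obtain ⟨m, hm⟩ := exists_nat_ge (∑ k, |u i j k| * |R|)
    refine ⟨m, fun x hx => le_trans ?_ hm⟩
    unfold pr
    apply Finset.sum_le_sum
    intro k _
    have h1 : ‖x‖ ≤ R := by
      have := hR hx
      rwa [mem_closedBall_zero_iff] at this
    have h2 : |x k| ≤ |R| := by
      have := norm_le_pi_norm x k
      rw [Real.norm_eq_abs] at this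
      exact (this.trans h1).trans (le_abs_self R)
    calc u i j k * x k ≤ |u i j k * x k| := le_abs_self _
      _ = |u i j k| * |x k| := abs_mul _ _
      _ ≤ |u i j k| * |R| := mul_le_mul_of_nonneg_left h2 (abs_nonneg _)
  choose m hm using hb
  refine ⟨∑ i, ∑ j, m i j + 1, by omega, ?_⟩
  intro z i j hij hz
  have hle : m i j ≤ ∑ i, ∑ j, m i j :=
    (Finset.single_le_sum (f := fun j => m i j) (fun _ _ => Nat.zero_le _)
      (Finset.mem_univ j)).trans
      (Finset.single_le_sum (f := fun i => ∑ j, m i j) (fun _ _ => Nat.zero_le _)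
        (Finset.mem_univ i))
  refine ⟨u i j, ⟨?_, ?_⟩, ?_⟩
  · intro h0
    have h1 := hu i j i
    rw [h0, if_pos rfl, if_neg hij] at h1
    simp [pz] at h1
  · intro l hl
    rw [hu i j l, if_neg hl, sub_zero]
    split_ifs <;> norm_num
  · intro x hx
    refine (hm i j x hx).trans ?_
    rw [pz_labE]
    have h1 : ∑ l, (labC z l : ℝ) * pz (u i j) (f l) = labC z i - labC z j := by
      simp only [hu i j, mul_sub, mul_ite, mul_one, mul_zero, Finset.sum_sub_distrib,
        Finset.sum_ite_eq', Finset.mem_univ, if_true]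
    rw [h1]
    have h2 : (m i j : ℤ) ≤ labC z i - labC z j := by
      have h3 : (m i j : ℤ) ≤ ((∑ i, ∑ j, m i j + 1 : ℕ) : ℤ) := by
        exact_mod_cast hle.trans (Nat.le_succ _)
      linarith
    exact_mod_cast h2

/-- step of the walk through the vertices of a Kuhn simplex -/
theorem labC_kv (z : Fin 3 → ℤ) (π : Equiv.Perm (Fin 3)) (k : ℕ) (hk : k < 3) (l : Fin 4) :
    labC (kv z π (k + 1)) l = labC (kv z π k) l +
      if l = (π ⟨k, hk⟩).castSucc then 1 else 0 := by
  induction l using Fin.lastCases with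
  | last =>
    have h1 : (Fin.last 3 : Fin 4) = 3 := rfl
    rw [h1, labC_three, labC_three, if_neg]
    · rfl
    · intro h
      have := congrArg Fin.val h
      simp at this
      have := (π ⟨k, hk⟩).2
      omega
  | cast i =>
    rw [labC_castSucc, labC_castSucc]
    unfold kv
    by_cases hi : i = π ⟨k, hk⟩
    · subst hi
      rw [if_pos rfl, Equiv.symm_apply_apply, if_pos (by simp), if_neg (by simp)]
      ring
    · rw [if_neg (fun h => hi (Fin.castSucc_injective 3 h))]
      have h1 : ((π.symm i : Fin 3) : ℕ) ≠ k := by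
        intro h
        apply hi
        have h2 : π.symm i = ⟨k, hk⟩ := Fin.ext h
        rw [← h2, Equiv.apply_symm_apply]
      by_cases h2 : ((π.symm i : Fin 3) : ℕ) < k
      · rw [if_pos (by omega), if_pos h2]
        ring
      · rw [if_neg (by omega), if_neg h2]
        ring

theorem labE_kv (f : Fin 4 → Fin 3 → ℤ) (z : Fin 3 → ℤ) (π : Equiv.Perm (Fin 3)) (k : ℕ)
    (hk : k < 3) : labE f (kv z π (k + 1)) = labE f (kv z π k) + f (π ⟨k, hk⟩).castSucc := by
  unfold labE
  simp only [labC_kv z π k hk, add_smul, Finset.sum_add_distrib, ite_smul, one_smul, zero_smul,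
    Finset.sum_ite_eq', Finset.mem_univ, if_true]

theorem labE_last (f : Fin 4 → Fin 3 → ℤ) (hf : Superbase f) (z : Fin 3 → ℤ)
    (π : Equiv.Perm (Fin 3)) : labE f (kv z π 0) = labE f (kv z π 3) + f 3 := by
  have h1 : ∀ i, kv z π 0 i = z i := fun i => by simp [kv]
  have h2 : ∀ i, kv z π 3 i = z i + 1 := fun i => by
    unfold kv
    rw [if_pos (π.symm i).2]
  have h3 : labE f (kv z π 3) + f 3 = labE f (kv z π 0) + ∑ l, f l := by
    unfold labE
    rw [Fin.sum_univ_castSucc, Fin.sum_univ_castSucc (f := fun l => labC (kv z π 0) l • f l),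
      Fin.sum_univ_castSucc (f := f)]
    have h4 : (Fin.last 3 : Fin 4) = 3 := rfl
    simp only [labC_castSucc, h4, labC_three, h1, h2, add_smul, one_smul, zero_smul,
      Finset.sum_add_distrib]
    abel
  rw [h3, hf.sum, add_zero]

/-- FL-12: from separation of all lattice points to a cyclic chain of four lattice points. -/
theorem exists_chain (f : Fin 4 → Fin 3 → ℤ) (hf : Superbase f) (K : Set (Fin 3 → ℝ))
    (hK : Bornology.IsBounded K) (hne : K.Nonempty) (hsep : Sep f K) :
    ∃ (σ : Equiv.Perm (Fin 4)) (p : Fin 4 → Fin 3 → ℤ) (n : Fin 4 → Fin 3 → ℝ),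
      (∀ k, p (k + 1) = p k + f (σ k)) ∧ (∀ k, InPos f (n k) (σ k)) ∧
      ∀ k, ∀ x ∈ K, pr (n k) x ≤ pz (n k) (p k) := by
  classical
  obtain ⟨M, hM, hfar⟩ := lab_far f hf K hK
  -- labels
  have hlabel : ∀ z : Fin 3 → ℤ, ∃ l : Fin 4, ((∀ i, |z i| ≤ M) → LabL f K l (labE f z)) ∧
      ((∀ i, |z i| ≤ M) → ∀ i, z i = M → l ≠ i.castSucc) ∧
      ((∀ i, |z i| ≤ M) → ∀ i, z i = -M → l ≠ 3) := by
    intro z
    by_cases hz : ∃ i, z i = M ∨ z i = -M
    · obtain ⟨l, -, hl⟩ := Finset.exists_min_image Finset.univ (labC z) Finset.univ_nonempty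
      have hl3 : labC z l ≤ 0 := by
        have := hl 3 (Finset.mem_univ _)
        rwa [labC_three] at this
      refine ⟨l, ?_, ?_, ?_⟩
      · intro _
        obtain ⟨i, hi | hi⟩ := hz
        · apply hfar z i.castSucc l
          · intro h
            rw [← h, labC_castSucc, hi] at hl3
            omega
          · rw [labC_castSucc, hi]
            omega
        · have h1 := hl i.castSucc (Finset.mem_univ _)
          rw [labC_castSucc, hi] at h1
          apply hfar z 3 l
          · intro h
            rw [← h, labC_three] at h1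
            omega
          · rw [labC_three]
            omega
      · intro _ i hi h
        rw [h, labC_castSucc, hi] at hl3
        omega
      · intro _ i hi h
        have h1 := hl i.castSucc (Finset.mem_univ _)
        rw [h, labC_castSucc, hi, labC_three] at h1
        omega
    · push Not at hz
      obtain ⟨n, j, hn, hx⟩ := hsep (labE f z)
      exact ⟨j, fun _ => ⟨n, hn, hx⟩, fun _ i hi => absurd hi (hz i).1,
        fun _ i hi => absurd hi (hz i).2⟩
  choose lab hlab1 hlab2 hlab3 using hlabel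
  obtain ⟨z, π, hz, hall⟩ := kuhn_sperner M hM lab hlab2 hlab3
  have hkv : ∀ k i, |kv z π k i| ≤ M := by
    intro k i
    have h1 := hz i
    unfold kv
    rw [abs_le]
    split_ifs <;> constructor <;> omega
  -- the walk
  let s : Fin 4 → Fin 4 := fun k => if h : (k : ℕ) < 3 then (π ⟨k, h⟩).castSucc else 3
  have hs : Function.Injective s := by
    intro a b hab
    by_cases ha : (a : ℕ) < 3
    · by_cases hb : (b : ℕ) < 3
      · simp only [s, dif_pos ha, dif_pos hb] at hab
        have h1 := π.injective (Fin.castSucc_injective 3 hab)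
        exact Fin.ext (Fin.mk.inj_iff.mp h1)
      · simp only [s, dif_pos ha, dif_neg hb] at hab
        have h2 : ((π ⟨a, ha⟩).castSucc : ℕ) < 3 := (π ⟨a, ha⟩).2
        rw [hab] at h2
        exact absurd h2 (by decide)
    · by_cases hb : (b : ℕ) < 3
      · simp only [s, dif_neg ha, dif_pos hb] at hab
        have h2 : ((π ⟨b, hb⟩).castSucc : ℕ) < 3 := (π ⟨b, hb⟩).2
        rw [← hab] at h2
        exact absurd h2 (by decide)
      · apply Fin.ext
        have := a.2
        have := b.2
        omega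
  let p : Fin 4 → Fin 3 → ℤ := fun k => labE f (kv z π k)
  have hp : ∀ k, p (k + 1) = p k + f (s k) := by
    intro k
    by_cases hk : (k : ℕ) < 3
    · have h1 : ((k + 1 : Fin 4) : ℕ) = k + 1 := by
        rw [Fin.val_add]
        have h3 : ((1 : Fin 4) : ℕ) = 1 := rfl
        rw [h3]
        omega
      simp only [p, s, dif_pos hk]
      rw [h1]
      exact labE_kv f z π k hk
    · have h1 : k = 3 := by
        apply Fin.ext
        have := k.2
        have h3 : ((3 : Fin 4) : ℕ) = 3 := rfl
        omega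
      subst h1
      exact labE_last f hf z π
  let σ : Equiv.Perm (Fin 4) := Equiv.ofBijective s (Finite.injective_iff_bijective.mp hs)
  have hσ : ∀ k, σ k = s k := fun k => rfl
  have hmem : ∀ k, LabL f K (σ k) (p k) := by
    intro k
    obtain ⟨k0, hk0, hk0l⟩ := hall (σ k)
    have h0 : LabL f K (σ k) (p ⟨k0, by omega⟩) := by
      have := hlab1 (kv z π k0) (hkv k0)
      rw [hk0l] at this
      exact this
    have hwalk : ∀ m : ℕ, LabL f K (σ k) (p ((fun x : Fin 4 => x + 1)^[m] ⟨k0, by omega⟩)) ∨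
        LabL f K (σ k) (p k) := by
      intro m
      induction m with
      | zero =>
        left
        exact h0
      | succ m ih =>
        rcases ih with ih | ih
        · by_cases hm : s ((fun x : Fin 4 => x + 1)^[m] ⟨k0, by omega⟩) = σ k
          · right
            have h1 := σ.injective hm
            rwa [h1] at ih
          · left
            have h1 := ih.step hm
            rw [← hp] at h1
            rwa [Function.iterate_succ_apply']
        · exact Or.inr ih
    have hreach : ∀ a b : Fin 4, (fun x : Fin 4 => x + 1)^[(b - a).val] a = b := by decide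
    rcases hwalk (k - (⟨k0, by omega⟩ : Fin 4) : Fin 4).val with h | h
    · rw [hreach] at h
      exact h
    · exact h
  choose n hn1 hn2 using hmem
  exact ⟨σ, p, n, fun k => hp k, hn1, hn2⟩

end Pool.Agent.Helper84.FL
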