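import Mathlib

namespace Pool.Agent.Helper84.FL

/-- a concave quadratic polynomial is nonnegative between two points where it is nonnegative -/
private theorem conc {a b c u v x : ℝ} (ha : 0 ≤ a) (hu : u ≤ x) (hv : x ≤ v)
    (h1 : 0 ≤ -a * u ^ 2 + b * u + c) (h2 : 0 ≤ -a * v ^ 2 + b * v + c) :
    0 ≤ -a * x ^ 2 + b * x + c := by
  rcases (hu.trans hv).eq_or_lt with h | h
  · have : x = u := le_antisymm (hv.trans h.ge) hu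
    rw [this]
    exact h1
  · have e : (-a * x ^ 2 + b * x + c) * (v - u) =
        (-a * u ^ 2 + b * u + c) * (v - x) + (-a * v ^ 2 + b * v + c) * (x - u) +
          a * ((x - u) * (v - x)) * (v - u) := by
      ring
    have h3 : 0 < v - u := by linarith
    have h4 : 0 ≤ (-a * x ^ 2 + b * x + c) * (v - u) := by
      rw [e]
      have e1 : 0 ≤ (-a * u ^ 2 + b * u + c) * (v - x) := mul_nonneg h1 (by linarith)
      have e2 : 0 ≤ (-a * v ^ 2 + b * v + c) * (x - u) := mul_nonneg h2 (by linarith)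
      have e3 : 0 ≤ a * ((x - u) * (v - x)) * (v - u) :=
        mul_nonneg (mul_nonneg ha (mul_nonneg (by linarith) (by linarith))) h3.le
      linarith
    exact nonneg_of_mul_nonneg_left h4 h3

/-- corner `(1, 1)` -/
private theorem corner11 (s c e : ℝ) (hs0 : 0 ≤ s) (hs1 : s ≤ 1) (hc1 : c ^ 2 ≤ s ^ 2)
    (hc2 : c ^ 2 ≤ s * (1 - s)) (he : e ≤ 2 * (s ^ 2 + c ^ 2)) :
    0 ≤ (4 + 2 * s - 1 - 1) / 4 * (1 * 1 - c ^ 2 - (1 - s) ^ 2) -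
      e / 8 * (1 + 1 + 6 - (4 + 2 * s)) := by
  have h1 : 0 ≤ 2 * s - s ^ 2 - 3 * c ^ 2 := by
    rcases le_total s (1 / 2) with h | h
    · nlinarith
    · nlinarith
  have h2 : 0 ≤ (2 * (s ^ 2 + c ^ 2) - e) * (2 - s) := mul_nonneg (by linarith) (by linarith)
  nlinarith

/-- corner `(X, 1)` -/
private theorem corner1 (s c e X : ℝ) (hs0 : 0 ≤ s) (hs1 : s ≤ 1) (hc1 : c ^ 2 ≤ s ^ 2)
    (hc2 : c ^ 2 ≤ s * (1 - s)) (he0 : 0 ≤ e) (he : e ≤ 2 * s - 2 * s ^ 2 - 2 * c ^ 2)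
    (hX : 2 ≤ X) (hX' : X ≤ 2 + s) :
    0 ≤ (4 + 2 * s - X - 1) / 4 * (X * 1 - c ^ 2 - (1 - s) ^ 2) -
      e / 8 * (X + 1 + 6 - (4 + 2 * s)) := by
  have h1 : 0 ≤ 2 - c ^ 2 - (1 - s) ^ 2 := by nlinarith
  have h2 : (1 + s) / 4 * (2 - c ^ 2 - (1 - s) ^ 2) ≤
      (4 + 2 * s - X - 1) / 4 * (X * 1 - c ^ 2 - (1 - s) ^ 2) := by
    have a1 : (1 + s) / 4 ≤ (4 + 2 * s - X - 1) / 4 := by linarith
    have a2 : 2 - c ^ 2 - (1 - s) ^ 2 ≤ X * 1 - c ^ 2 - (1 - s) ^ 2 := by linarith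
    exact mul_le_mul a1 a2 h1 (by linarith)
  have h3 : e / 8 * (X + 1 + 6 - (4 + 2 * s)) ≤ e / 8 * (5 - s) := by
    apply mul_le_mul_of_nonneg_left _ (by linarith)
    linarith
  have h4 : e / 8 * (5 - s) ≤ (2 * s - 2 * s ^ 2 - 2 * c ^ 2) / 8 * (5 - s) := by
    apply mul_le_mul_of_nonneg_right _ (by linarith)
    linarith
  have h5 : 0 ≤ c ^ 2 * (4 - 2 * s) := mul_nonneg (sq_nonneg c) (by linarith)
  have h6 : 0 ≤ 1 - 2 * s + 7 * s ^ 2 - 2 * s ^ 3 := by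
    have : s ^ 3 ≤ s ^ 2 := by nlinarith [sq_nonneg s]
    nlinarith [sq_nonneg (5 * s - 1)]
  nlinarith

private theorem dsq (a b : ℝ) (h1 : 1 ≤ a) (h1' : a ≤ 3 / 2) (h2 : 1 ≤ b) (h2' : b ≤ 3 / 2) :
    (a - b) ^ 2 ≤ (a + b - 2) * (1 - (a + b - 2)) := by
  have b1 : |a - b| ≤ a + b - 2 := by rw [abs_le]; constructor <;> linarith
  have b2 : |a - b| ≤ 1 - (a + b - 2) := by rw [abs_le]; constructor <;> linarith
  rw [← sq_abs, sq]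
  exact mul_le_mul b1 b2 (abs_nonneg _) (by linarith)

private theorem mulXZ {x z : ℝ} (hx : 2 ≤ x) (hz : 2 ≤ z) : 4 ≤ x * z := by nlinarith

private theorem kle {s c : ℝ} (hs0 : 0 ≤ s) (hs1 : s ≤ 1) (hc2 : c ^ 2 ≤ s * (1 - s)) :
    c ^ 2 + (1 - s) ^ 2 ≤ 1 := by nlinarith

private theorem ebound {s c e u v : ℝ} (he : e = u + v) (h1 : u ≤ (s - c) * (1 - (s - c)))
    (h2 : v ≤ (s + c) * (1 - (s + c))) : e ≤ 2 * s - 2 * s ^ 2 - 2 * c ^ 2 := by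
  rw [he]; nlinarith

private theorem ebound' {s c e u v : ℝ} (he : e = u + v) (h1 : u ≤ (s - c) ^ 2)
    (h2 : v ≤ (s + c) ^ 2) : e ≤ 2 * (s ^ 2 + c ^ 2) := by
  rw [he]; nlinarith

private theorem lastCorner {m e K y : ℝ} (m0 : 0 ≤ m) (m1 : m ≤ 1 / 2) (e2 : e ≤ 2 * m ^ 2)
    (hK : K ≤ 1) (hy : 4 ≤ y) : 0 ≤ m / 4 * (y - K) - e / 8 * (6 - m) := by
  have e3 : e / 8 * (6 - m) ≤ 2 * m ^ 2 / 8 * (6 - m) := by
    apply mul_le_mul_of_nonneg_right _ (by linarith)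
    linarith
  have e5 : m * (6 - m) ≤ 11 / 4 := by nlinarith
  have e4 : 0 ≤ m / 4 * (y - K - m * (6 - m)) := mul_nonneg (by linarith) (by linarith)
  have e6 : m / 4 * (y - K - m * (6 - m)) = m / 4 * (y - K) - 2 * m ^ 2 / 8 * (6 - m) := by ring
  linarith

/-- FL-1 -/
theorem caseA (r1 r2 r3 r4 X Z : ℝ)
    (h1 : 1 ≤ r1) (h1' : r1 ≤ 3 / 2) (h2 : 1 ≤ r2) (h2' : r2 ≤ 3 / 2)
    (h3 : 1 ≤ r3) (h3' : r3 ≤ 3 / 2) (h4 : 1 ≤ r4) (h4' : r4 ≤ 3 / 2)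
    (hX : 1 ≤ X) (hZ : 1 ≤ Z)
    (t12 : X ≤ r1 + r2) (t34 : X ≤ r3 + r4) (t23 : Z ≤ r2 + r3) (t41 : Z ≤ r4 + r1) :
    0 ≤ (r1 + r2 + r3 + r4 - X - Z) / 4 *
        (X * Z - ((r2 + r4 - r1 - r3) / 2) ^ 2 - (3 - (r1 + r2 + r3 + r4) / 2) ^ 2)
      - ((r1 - r3) ^ 2 + (r4 - r2) ^ 2) / 8 * (X + Z + 6 - (r1 + r2 + r3 + r4)) := by
  set s := (r1 + r2 + r3 + r4 - 4) / 2 with hs
  set c := (r2 + r4 - r1 - r3) / 2 with hc
  set e := (r1 - r3) ^ 2 + (r4 - r2) ^ 2 with he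
  have hS : r1 + r2 + r3 + r4 = 4 + 2 * s := by rw [hs]; ring
  have hS2 : 3 - (r1 + r2 + r3 + r4) / 2 = 1 - s := by rw [hs]; ring
  rw [hS2, hS]
  have hs0 : 0 ≤ s := by rw [hs]; linarith
  have hs1 : s ≤ 1 := by rw [hs]; linarith
  -- bounds for the differences
  have d1a : (r1 - r3) ^ 2 ≤ (s - c) ^ 2 := by
    rw [sq_le_sq, abs_le, abs_of_nonneg (by rw [hs, hc]; linarith)]
    constructor <;> rw [hs, hc] <;> linarith
  have d2a : (r4 - r2) ^ 2 ≤ (s + c) ^ 2 := by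
    rw [sq_le_sq, abs_le, abs_of_nonneg (by rw [hs, hc]; linarith)]
    constructor <;> rw [hs, hc] <;> linarith
  have d1b : (r1 - r3) ^ 2 ≤ (s - c) * (1 - (s - c)) := by
    have e1 : s - c = r1 + r3 - 2 := by rw [hs, hc]; ring
    rw [e1]
    exact dsq r1 r3 h1 h1' h3 h3'
  have d2b : (r4 - r2) ^ 2 ≤ (s + c) * (1 - (s + c)) := by
    have e1 : s + c = r4 + r2 - 2 := by rw [hs, hc]; ring
    rw [e1]
    exact dsq r4 r2 h4 h4' h2 h2'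
  have hc1 : c ^ 2 ≤ s ^ 2 := by
    rw [sq_le_sq, abs_le, abs_of_nonneg hs0]
    constructor <;> rw [hs, hc] <;> linarith
  have hc2 : c ^ 2 ≤ s * (1 - s) := by
    have b1 : |c| ≤ s := by
      rw [abs_le]
      constructor <;> rw [hs, hc] <;> linarith
    have b2 : |c| ≤ 1 - s := by
      rw [abs_le]
      constructor <;> rw [hs, hc] <;> linarith
    rw [← sq_abs, sq]
    exact mul_le_mul b1 b2 (abs_nonneg c) hs0
  have he0 : 0 ≤ e := by rw [he]; positivity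
  have he1 : e ≤ 2 * (s ^ 2 + c ^ 2) := ebound' he d1a d2a
  have he2 : e ≤ 2 * s - 2 * s ^ 2 - 2 * c ^ 2 := ebound he d1b d2b
  -- the corner points
  obtain ⟨X1, hX1a, hX1b, hX1c, hX1⟩ : ∃ X1, X1 ≤ r1 + r2 ∧ X1 ≤ r3 + r4 ∧ X ≤ X1 ∧
      ((X1 = r1 + r2 ∧ r1 + r2 ≤ r3 + r4) ∨ (X1 = r3 + r4 ∧ r3 + r4 ≤ r1 + r2)) := by
    rcases le_total (r1 + r2) (r3 + r4) with h | h
    · exact ⟨r1 + r2, le_rfl, h, t12, Or.inl ⟨rfl, h⟩⟩
    · exact ⟨r3 + r4, h, le_rfl, t34, Or.inr ⟨rfl, h⟩⟩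
  obtain ⟨Z1, hZ1a, hZ1b, hZ1c, hZ1⟩ : ∃ Z1, Z1 ≤ r2 + r3 ∧ Z1 ≤ r4 + r1 ∧ Z ≤ Z1 ∧
      ((Z1 = r2 + r3 ∧ r2 + r3 ≤ r4 + r1) ∨ (Z1 = r4 + r1 ∧ r4 + r1 ≤ r2 + r3)) := by
    rcases le_total (r2 + r3) (r4 + r1) with h | h
    · exact ⟨r2 + r3, le_rfl, h, t23, Or.inl ⟨rfl, h⟩⟩
    · exact ⟨r4 + r1, h, le_rfl, t41, Or.inr ⟨rfl, h⟩⟩
  have hX12 : 2 ≤ X1 := by rcases hX1 with h | h <;> linarith [h.1]
  have hZ12 : 2 ≤ Z1 := by rcases hZ1 with h | h <;> linarith [h.1]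
  have hX13 : X1 ≤ 2 + s := by rw [hs]; linarith
  have hZ13 : Z1 ≤ 2 + s := by rw [hs]; linarith
  have hK : c ^ 2 + (1 - s) ^ 2 ≤ 1 := kle hs0 hs1 hc2
  have c11 := corner11 s c e hs0 hs1 hc1 hc2 he1
  have cX1 := corner1 s c e X1 hs0 hs1 hc1 hc2 he0 he2 hX12 hX13
  have cZ1 := corner1 s c e Z1 hs0 hs1 hc1 hc2 he0 he2 hZ12 hZ13
  have cXZ : 0 ≤ (4 + 2 * s - X1 - Z1) / 4 * (X1 * Z1 - c ^ 2 - (1 - s) ^ 2) -
      e / 8 * (X1 + Z1 + 6 - (4 + 2 * s)) := by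
    set m := 4 + 2 * s - X1 - Z1 with hm
    have hm' : m = r1 + r2 + r3 + r4 - X1 - Z1 := by rw [hm, ← hS]
    have m0 : 0 ≤ m := by
      rw [hm']
      rcases hX1 with h | h <;> rcases hZ1 with h' | h' <;> linarith [h.1, h.2, h'.1, h'.2]
    have m1 : m ≤ 1 / 2 := by
      rw [hm']
      rcases hX1 with h | h <;> rcases hZ1 with h' | h' <;> linarith [h.1, h.2, h'.1, h'.2]
    have q1 : (r1 - r3) ^ 2 ≤ m ^ 2 := by
      rw [sq_le_sq, abs_le, abs_of_nonneg m0, hm']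
      rcases hX1 with h | h <;> rcases hZ1 with h' | h' <;>
        constructor <;> linarith [h.1, h.2, h'.1, h'.2]
    have q2 : (r4 - r2) ^ 2 ≤ m ^ 2 := by
      rw [sq_le_sq, abs_le, abs_of_nonneg m0, hm']
      rcases hX1 with h | h <;> rcases hZ1 with h' | h' <;>
        constructor <;> linarith [h.1, h.2, h'.1, h'.2]
    have e1 : X1 + Z1 + 6 - (4 + 2 * s) = 6 - m := by rw [hm]; ring
    rw [e1]
    have hXZ : 4 ≤ X1 * Z1 := mulXZ hX12 hZ12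
    have e2 : e ≤ 2 * m ^ 2 := by rw [he]; linarith
    have := lastCorner m0 m1 e2 hK hXZ
    have e7 : X1 * Z1 - (c ^ 2 + (1 - s) ^ 2) = X1 * Z1 - c ^ 2 - (1 - s) ^ 2 := by ring
    rw [e7] at this
    exact this
  -- concavity in X, at Z = 1 and at Z = Z1, then in Z
  have f1 : 0 ≤ (4 + 2 * s - X - 1) / 4 * (X * 1 - c ^ 2 - (1 - s) ^ 2) -
      e / 8 * (X + 1 + 6 - (4 + 2 * s)) := by
    have := conc (a := 1 / 4) (b := (3 + 2 * s) / 4 + (c ^ 2 + (1 - s) ^ 2) / 4 - e / 8)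
      (c := -(3 + 2 * s) / 4 * (c ^ 2 + (1 - s) ^ 2) - e / 8 * (3 - 2 * s))
      (u := 1) (v := X1) (x := X) (by norm_num) hX hX1c (by linarith) (by linarith)
    linarith
  have f2 : 0 ≤ (4 + 2 * s - X - Z1) / 4 * (X * Z1 - c ^ 2 - (1 - s) ^ 2) -
      e / 8 * (X + Z1 + 6 - (4 + 2 * s)) := by
    have := conc (a := Z1 / 4)
      (b := (4 + 2 * s - Z1) * Z1 / 4 + (c ^ 2 + (1 - s) ^ 2) / 4 - e / 8)
      (c := -(4 + 2 * s - Z1) / 4 * (c ^ 2 + (1 - s) ^ 2) - e / 8 * (Z1 + 2 - 2 * s))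
      (u := 1) (v := X1) (x := X) (by linarith) hX hX1c (by linarith) (by linarith)
    linarith
  have := conc (a := X / 4)
    (b := (4 + 2 * s - X) * X / 4 + (c ^ 2 + (1 - s) ^ 2) / 4 - e / 8)
    (c := -(4 + 2 * s - X) / 4 * (c ^ 2 + (1 - s) ^ 2) - e / 8 * (X + 2 - 2 * s))
    (u := 1) (v := Z1) (x := Z) (by linarith) hZ hZ1c (by linarith) (by linarith)
  linarith

end Pool.Agent.Helper84.FL
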