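import Mathlib

/-!
# Configurations: six squared edge lengths of a tetrahedron and a vector

Nodes 1, 2, 3, 4.  `r1 = r12`, `r2 = r23`, `r3 = r34`, `r4 = r41` are the near pairs, `X = r13`,
`Z = r24` the diagonal pairs.  `k1 + k2 + k3 + k4 = 0`.
-/

namespace Pool.Agent.Helper84.FL

/-- A configuration. -/
@[ext] structure Cfg where
  r1 : ℝ
  r2 : ℝ
  r3 : ℝ
  r4 : ℝ
  X : ℝ
  Z : ℝ
  k1 : ℝ
  k2 : ℝ
  k3 : ℝ

noncomputable section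

namespace Cfg

variable (c : Cfg)

/-- fourth coordinate -/
def k4 : ℝ := -(c.k1 + c.k2 + c.k3)

/-- Gram entries with respect to node 4; the diagonal entries are `r4, Z, r3`. -/
def g12 : ℝ := (c.r4 + c.Z - c.r1) / 2
/-- Gram entry -/
def g13 : ℝ := (c.r4 + c.r3 - c.X) / 2
/-- Gram entry -/
def g23 : ℝ := (c.Z + c.r3 - c.r2) / 2

/-- determinant of the Gram matrix -/
def dt : ℝ := c.r4 * c.Z * c.r3 + 2 * c.g12 * c.g13 * c.g23 - c.r4 * c.g23 ^ 2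
  - c.Z * c.g13 ^ 2 - c.r3 * c.g12 ^ 2

/-- potentials `G k` (the fourth is zero) -/
def e1 : ℝ := c.r4 * c.k1 + c.g12 * c.k2 + c.g13 * c.k3
/-- potential -/
def e2 : ℝ := c.g12 * c.k1 + c.Z * c.k2 + c.g23 * c.k3
/-- potential -/
def e3 : ℝ := c.g13 * c.k1 + c.g23 * c.k2 + c.r3 * c.k3

/-- `k^T G k` -/
def tau : ℝ := c.k1 * c.e1 + c.k2 * c.e2 + c.k3 * c.e3

/-- adjugate entries -/
def a11 : ℝ := c.Z * c.r3 - c.g23 ^ 2
/-- adjugate entry -/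
def a22 : ℝ := c.r4 * c.r3 - c.g13 ^ 2
/-- adjugate entry -/
def a33 : ℝ := c.r4 * c.Z - c.g12 ^ 2
/-- adjugate entry -/
def a12 : ℝ := c.g13 * c.g23 - c.g12 * c.r3
/-- adjugate entry -/
def a13 : ℝ := c.g12 * c.g23 - c.g13 * c.Z
/-- adjugate entry -/
def a23 : ℝ := c.g12 * c.g13 - c.r4 * c.g23
/-- sum of all adjugate entries, i.e. the entry `a44` of the extended matrix -/
def a44 : ℝ := c.a11 + c.a22 + c.a33 + 2 * c.a12 + 2 * c.a13 + 2 * c.a23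

/-- symmetric conductances -/
def q12 : ℝ := -c.a12 - c.k1 * c.k2
/-- conductance -/
def q13 : ℝ := -c.a13 - c.k1 * c.k3
/-- conductance -/
def q23 : ℝ := -c.a23 - c.k2 * c.k3
/-- conductance -/
def q14 : ℝ := c.a11 + c.a12 + c.a13 - c.k1 * c.k4
/-- conductance -/
def q24 : ℝ := c.a12 + c.a22 + c.a23 - c.k2 * c.k4
/-- conductance -/
def q34 : ℝ := c.a13 + c.a23 + c.a33 - c.k3 * c.k4

/-- skew parts, pair 12 -/
def y1 : ℝ := -c.e3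
/-- skew part, pair 23 -/
def y2 : ℝ := -c.e1
/-- skew part, pair 34 -/
def y3 : ℝ := c.e2 - c.e1
/-- skew part, pair 41 -/
def y4 : ℝ := c.e2 - c.e3
/-- skew part, pair 13 -/
def y13 : ℝ := c.e2
/-- skew part, pair 24 -/
def y24 : ℝ := c.e1 - c.e3

/-- total symmetric conductance -/
def qs : ℝ := c.q12 + c.q23 + c.q34 + c.q14 + c.q13 + c.q24

/-- the forward flow -/
def R : ℝ := c.qs + (c.y1 + c.y2 + c.y3 + c.y4) / 2

/-- the hypotheses on a configuration -/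
structure Good : Prop where
  h1 : 1 ≤ c.r1
  h2 : 1 ≤ c.r2
  h3 : 1 ≤ c.r3
  h4 : 1 ≤ c.r4
  hX : 1 ≤ c.X
  hZ : 1 ≤ c.Z
  t12 : c.X ≤ c.r1 + c.r2
  t34 : c.X ≤ c.r3 + c.r4
  t23 : c.Z ≤ c.r2 + c.r3
  t41 : c.Z ≤ c.r4 + c.r1
  f12 : |c.y1| ≤ c.q12
  f23 : |c.y2| ≤ c.q23
  f34 : |c.y3| ≤ c.q34
  f41 : |c.y4| ≤ c.q14
  f13 : |c.y13| ≤ c.q13
  f24 : |c.y24| ≤ c.q24
  pos : 0 < c.dt
  psd : ∀ u v w : ℝ, 0 ≤ c.r4 * u ^ 2 + c.Z * v ^ 2 + c.r3 * w ^ 2 + 2 * c.g12 * u * v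
    + 2 * c.g13 * u * w + 2 * c.g23 * v * w

/-- rotation of the nodes `1 → 4 → 3 → 2 → 1` (the vector changes sign, it is a pseudovector) -/
def rot : Cfg := ⟨c.r2, c.r3, c.r4, c.r1, c.Z, c.X, -c.k2, -c.k3, -c.k4⟩

end Cfg

end

end Pool.Agent.Helper84.FL
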