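import Pool.Agent.Helper84.FL.Geom

namespace Pool.Agent.Helper84.FL

namespace SharpAux

noncomputable section

/-- unit vectors and minus their sum -/
def f : Fin 4 → Fin 3 → ℤ := ![![1, 0, 0], ![0, 1, 0], ![0, 0, 1], ![-1, -1, -1]]

/-- normals of the facets of the Codenotti-Santos simplex (`r = √2`) -/
def nn (r : ℝ) : Fin 4 → Fin 3 → ℝ :=
  ![![-4 - r, 2 - r, r], ![2 + r, -4 - r, 2 - r], ![r, 2 + r, -4 - r], ![2 - r, r, 2 + r]]

/-- right-hand sides -/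
def hh (r : ℝ) : Fin 4 → ℝ := ![0, 2 + r, 2 + 2 * r, 4 + r]

/-- the simplex -/
def KS (r : ℝ) : Set (Fin 3 → ℝ) := {x | ∀ k, pr (nn r k) x ≤ hh r k}

/-- its vertices -/
def vv (r : ℝ) : Fin 4 → Fin 3 → ℝ :=
  ![![(7 + 3 * r) / 4, (2 + 2 * r) / 4, (1 + r) / 4],
    ![(3 - r) / 4, (6 + 2 * r) / 4, (1 + r) / 4],
    ![(3 - r) / 4, (2 - 2 * r) / 4, (5 + r) / 4],
    ![(-1 - r) / 4, (-2 - 2 * r) / 4, (-3 - 3 * r) / 4]]

theorem superbase_f : Superbase f := by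
  constructor
  · decide
  · intro z
    refine ⟨![z 0, z 1, z 2, 0], ?_⟩
    funext i
    fin_cases i <;> simp [f, Fin.sum_univ_four]

theorem mem_KS {r : ℝ} {x : Fin 3 → ℝ} : x ∈ KS r ↔
    ((-4 - r) * x 0 + (2 - r) * x 1 + r * x 2 ≤ 0 ∧
    (2 + r) * x 0 + (-4 - r) * x 1 + (2 - r) * x 2 ≤ 2 + r ∧
    r * x 0 + (2 + r) * x 1 + (-4 - r) * x 2 ≤ 2 + 2 * r ∧
    (2 - r) * x 0 + r * x 1 + (2 + r) * x 2 ≤ 4 + r) := by
  show (∀ k, pr (nn r k) x ≤ hh r k) ↔ _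
  rw [Fin.forall_fin_succ, Fin.forall_fin_succ, Fin.forall_fin_succ, Fin.forall_fin_one]
  simp [pr, nn, hh, Fin.sum_univ_three]

theorem convex_KS (r : ℝ) : Convex ℝ (KS r) := by
  intro x hx y hy a b ha hb hab k
  have h1 := hx k
  have h2 := hy k
  have h3 : pr (nn r k) (a • x + b • y) = a * pr (nn r k) x + b * pr (nn r k) y := by
    simp only [pr, Fin.sum_univ_three, Pi.add_apply, Pi.smul_apply, smul_eq_mul]
    ring
  rw [h3]
  calc a * pr (nn r k) x + b * pr (nn r k) y ≤ a * hh r k + b * hh r k := by gcongr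
    _ = hh r k := by rw [← add_mul, hab, one_mul]

theorem isClosed_KS (r : ℝ) : IsClosed (KS r) := by
  have : KS r = ⋂ k, {x | pr (nn r k) x ≤ hh r k} := by
    ext x; simp [KS]
  rw [this]
  refine isClosed_iInter (fun k => isClosed_le ?_ continuous_const)
  unfold pr
  fun_prop

theorem bd {D x l0 l1 l2 l3 a0 a1 a2 a3 : ℝ} (hD : 0 < D) (hs : l0 + l1 + l2 + l3 = D)
    (hx : D * x = l0 * a0 + l1 * a1 + l2 * a2 + l3 * a3)
    (p0 : 0 ≤ l0) (p1 : 0 ≤ l1) (p2 : 0 ≤ l2) (p3 : 0 ≤ l3)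
    (b0 : -10 ≤ a0 ∧ a0 ≤ 10) (b1 : -10 ≤ a1 ∧ a1 ≤ 10) (b2 : -10 ≤ a2 ∧ a2 ≤ 10)
    (b3 : -10 ≤ a3 ∧ a3 ≤ 10) : -10 ≤ x ∧ x ≤ 10 := by
  have u0 := mul_nonneg p0 (sub_nonneg.2 b0.2)
  have u1 := mul_nonneg p1 (sub_nonneg.2 b1.2)
  have u2 := mul_nonneg p2 (sub_nonneg.2 b2.2)
  have u3 := mul_nonneg p3 (sub_nonneg.2 b3.2)
  have v0 := mul_nonneg p0 (sub_nonneg.2 b0.1)
  have v1 := mul_nonneg p1 (sub_nonneg.2 b1.1)
  have v2 := mul_nonneg p2 (sub_nonneg.2 b2.1)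
  have v3 := mul_nonneg p3 (sub_nonneg.2 b3.1)
  have h1 : D * x ≤ D * 10 := by rw [hx, ← hs]; linarith
  have h2 : D * (-10) ≤ D * x := by rw [hx, ← hs]; linarith
  exact ⟨le_of_mul_le_mul_left h2 hD, le_of_mul_le_mul_left h1 hD⟩

theorem isCompact_KS {r : ℝ} (hr : r * r = 2) (h1 : 1 ≤ r) (h2 : r ≤ 3 / 2) :
    IsCompact (KS r) := by
  refine Metric.isCompact_of_isClosed_isBounded (isClosed_KS r) ?_
  refine (Metric.isBounded_Icc (fun _ => (-10 : ℝ)) (fun _ => (10 : ℝ))).subset ?_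
  intro x hx
  rw [mem_KS] at hx
  obtain ⟨e0, e1, e2, e3⟩ := hx
  -- barycentric coordinates (times `8 + 4 r`)
  set l0 := 0 - ((-4 - r) * x 0 + (2 - r) * x 1 + r * x 2) with hl0
  set l1 := 2 + r - ((2 + r) * x 0 + (-4 - r) * x 1 + (2 - r) * x 2) with hl1
  set l2 := 2 + 2 * r - (r * x 0 + (2 + r) * x 1 + (-4 - r) * x 2) with hl2
  set l3 := 4 + r - ((2 - r) * x 0 + r * x 1 + (2 + r) * x 2) with hl3
  have p0 : 0 ≤ l0 := by rw [hl0]; linarith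
  have p1 : 0 ≤ l1 := by rw [hl1]; linarith
  have p2 : 0 ≤ l2 := by rw [hl2]; linarith
  have p3 : 0 ≤ l3 := by rw [hl3]; linarith
  have hsum : l0 + l1 + l2 + l3 = 8 + 4 * r := by rw [hl0, hl1, hl2, hl3]; ring
  have x0 : (8 + 4 * r) * x 0 = l0 * ((7 + 3 * r) / 4) + l1 * ((3 - r) / 4) +
      l2 * ((3 - r) / 4) + l3 * ((-1 - r) / 4) := by
    rw [hl0, hl1, hl2, hl3]; linear_combination (1 - x 0 - x 1 + x 2) * hr
  have x1 : (8 + 4 * r) * x 1 = l0 * ((2 + 2 * r) / 4) + l1 * ((6 + 2 * r) / 4) +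
      l2 * ((2 - 2 * r) / 4) + l3 * ((-2 - 2 * r) / 4) := by
    rw [hl0, hl1, hl2, hl3]; linear_combination (1 - 2 * x 1) * hr
  have x2 : (8 + 4 * r) * x 2 = l0 * ((1 + r) / 4) + l1 * ((1 + r) / 4) +
      l2 * ((5 + r) / 4) + l3 * ((-3 - 3 * r) / 4) := by
    rw [hl0, hl1, hl2, hl3]; linear_combination (x 0 - x 1 - x 2) * hr
  have hD : 0 < 8 + 4 * r := by linarith
  have b0 := bd hD hsum x0 p0 p1 p2 p3 ⟨by linarith, by linarith⟩ ⟨by linarith, by linarith⟩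
    ⟨by linarith, by linarith⟩ ⟨by linarith, by linarith⟩
  have b1 := bd hD hsum x1 p0 p1 p2 p3 ⟨by linarith, by linarith⟩ ⟨by linarith, by linarith⟩
    ⟨by linarith, by linarith⟩ ⟨by linarith, by linarith⟩
  have b2 := bd hD hsum x2 p0 p1 p2 p3 ⟨by linarith, by linarith⟩ ⟨by linarith, by linarith⟩
    ⟨by linarith, by linarith⟩ ⟨by linarith, by linarith⟩
  constructor
  · intro i
    fin_cases i
    · exact b0.1
    · exact b1.1
    · exact b2.1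
  · intro i
    fin_cases i
    · exact b0.2
    · exact b1.2
    · exact b2.2

theorem interior_KS {r : ℝ} (h1 : 1 ≤ r) : (interior (KS r)).Nonempty := by
  have hU : IsOpen (⋂ k, {x : Fin 3 → ℝ | pr (nn r k) x < hh r k}) := by
    refine isOpen_iInter_of_finite (fun k => isOpen_lt ?_ continuous_const)
    unfold pr
    fun_prop
  have hsub : (⋂ k, {x : Fin 3 → ℝ | pr (nn r k) x < hh r k}) ⊆ KS r := by
    intro x hx k
    have := Set.mem_iInter.1 hx k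
    exact le_of_lt this
  refine ⟨![3 / 4, 1 / 2, 1 / 4], interior_maximal hsub hU ?_⟩
  rw [Set.mem_iInter]
  intro k
  show pr (nn r k) _ < hh r k
  fin_cases k
  · show pr ![-4 - r, 2 - r, r] ![3 / 4, 1 / 2, 1 / 4] < 0
    simp only [pr, Fin.sum_univ_three, Matrix.cons_val_zero, Matrix.cons_val_one, Matrix.cons_val]
    linarith
  · show pr ![2 + r, -4 - r, 2 - r] ![3 / 4, 1 / 2, 1 / 4] < 2 + r
    simp only [pr, Fin.sum_univ_three, Matrix.cons_val_zero, Matrix.cons_val_one, Matrix.cons_val]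
    linarith
  · show pr ![r, 2 + r, -4 - r] ![3 / 4, 1 / 2, 1 / 4] < 2 + 2 * r
    simp only [pr, Fin.sum_univ_three, Matrix.cons_val_zero, Matrix.cons_val_one, Matrix.cons_val]
    linarith
  · show pr ![2 - r, r, 2 + r] ![3 / 4, 1 / 2, 1 / 4] < 4 + r
    simp only [pr, Fin.sum_univ_three, Matrix.cons_val_zero, Matrix.cons_val_one, Matrix.cons_val]
    linarith

theorem inPos_nn {r : ℝ} (h1 : 1 ≤ r) (h2 : r ≤ 3 / 2) (k : Fin 4) : InPos f (nn r k) k := by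
  constructor
  · intro h
    have := congrFun h 0
    fin_cases k <;> simp [nn] at this <;> linarith
  · intro l hl
    fin_cases k <;> fin_cases l <;>
      simp [pz, nn, f, Fin.sum_univ_three] at hl ⊢ <;> linarith

theorem sep_KS {r : ℝ} (h1 : 1 ≤ r) (h2 : r ≤ 3 / 2) : Sep f (KS r) := by
  intro z
  have key : ∃ k, hh r k ≤ pz (nn r k) z := by
    by_cases c0 : z 0 ≤ z 1 ∧ z 0 ≤ z 2 ∧ z 0 ≤ 0
    · obtain ⟨a, b, c⟩ := c0
      refine ⟨0, ?_⟩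
      have a' : (z 0 : ℝ) ≤ z 1 := by exact_mod_cast a
      have b' : (z 0 : ℝ) ≤ z 2 := by exact_mod_cast b
      have c' : (z 0 : ℝ) ≤ 0 := by exact_mod_cast c
      simp only [hh, pz, nn, Fin.sum_univ_three, Matrix.cons_val_zero, Matrix.cons_val_one,
        Matrix.cons_val]
      nlinarith [mul_nonneg (by linarith : (0 : ℝ) ≤ 2 - r) (sub_nonneg.2 a'),
        mul_nonneg (by linarith : (0 : ℝ) ≤ r) (sub_nonneg.2 b'),
        mul_nonneg (by linarith : (0 : ℝ) ≤ 2 + r) (sub_nonneg.2 c')]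
    by_cases c1 : z 1 < z 0 ∧ z 1 ≤ z 2 ∧ z 1 ≤ 0
    · obtain ⟨a, b, c⟩ := c1
      refine ⟨1, ?_⟩
      have a' : (z 1 : ℝ) + 1 ≤ z 0 := by exact_mod_cast a
      have b' : (z 1 : ℝ) ≤ z 2 := by exact_mod_cast b
      have c' : (z 1 : ℝ) ≤ 0 := by exact_mod_cast c
      simp only [hh, pz, nn, Fin.sum_univ_three, Matrix.cons_val_zero, Matrix.cons_val_one,
        Matrix.cons_val]
      nlinarith [mul_nonneg (by linarith : (0 : ℝ) ≤ 2 + r) (sub_nonneg.2 a'),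
        mul_nonneg (by linarith : (0 : ℝ) ≤ 2 - r) (sub_nonneg.2 b'),
        mul_nonneg (by linarith : (0 : ℝ) ≤ r) (sub_nonneg.2 c')]
    by_cases c2 : z 2 < z 0 ∧ z 2 < z 1 ∧ z 2 ≤ 0
    · obtain ⟨a, b, c⟩ := c2
      refine ⟨2, ?_⟩
      have a' : (z 2 : ℝ) + 1 ≤ z 0 := by exact_mod_cast a
      have b' : (z 2 : ℝ) + 1 ≤ z 1 := by exact_mod_cast b
      have c' : (z 2 : ℝ) ≤ 0 := by exact_mod_cast c
      simp only [hh, pz, nn, Fin.sum_univ_three, Matrix.cons_val_zero, Matrix.cons_val_one,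
        Matrix.cons_val]
      nlinarith [mul_nonneg (by linarith : (0 : ℝ) ≤ r) (sub_nonneg.2 a'),
        mul_nonneg (by linarith : (0 : ℝ) ≤ 2 + r) (sub_nonneg.2 b'),
        mul_nonneg (by linarith : (0 : ℝ) ≤ 2 - r) (sub_nonneg.2 c')]
    · refine ⟨3, ?_⟩
      have a : 1 ≤ z 0 ∧ 1 ≤ z 1 ∧ 1 ≤ z 2 := by omega
      obtain ⟨a, b, c⟩ := a
      have a' : (1 : ℝ) ≤ z 0 := by exact_mod_cast a
      have b' : (1 : ℝ) ≤ z 1 := by exact_mod_cast b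
      have c' : (1 : ℝ) ≤ z 2 := by exact_mod_cast c
      simp only [hh, pz, nn, Fin.sum_univ_three, Matrix.cons_val_zero, Matrix.cons_val_one,
        Matrix.cons_val]
      nlinarith [mul_nonneg (by linarith : (0 : ℝ) ≤ 2 - r) (sub_nonneg.2 a'),
        mul_nonneg (by linarith : (0 : ℝ) ≤ r) (sub_nonneg.2 b'),
        mul_nonneg (by linarith : (0 : ℝ) ≤ 2 + r) (sub_nonneg.2 c')]
  obtain ⟨k, hk⟩ := key
  exact ⟨nn r k, k, inPos_nn h1 h2 k, fun x hx => (hx k).trans hk⟩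

theorem vv_mem {r : ℝ} (hr : r * r = 2) (h1 : 1 ≤ r) (l : Fin 4) : vv r l ∈ KS r := by
  rw [mem_KS]
  fin_cases l <;> simp only [vv, Matrix.cons_val_zero, Matrix.cons_val_one, Matrix.cons_val,
    Fin.mk_one, Fin.zero_eta, Fin.reduceFinMk] <;> refine ⟨?_, ?_, ?_, ?_⟩ <;> nlinarith

/-- an integer is at most its square in absolute value -/
theorem term_le (b : ℤ) {w m M : ℝ} (h0 : m ≤ w) (h1 : w ≤ M) :
    (b : ℝ) * (w - m) ≤ ((b : ℝ) ^ 2 + b) / 2 * (M - m) := by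
  rcases le_or_gt b 0 with hb | hb
  · have hb' : (b : ℝ) ≤ 0 := by exact_mod_cast hb
    have h2 : (0 : ℝ) ≤ (b : ℝ) ^ 2 + b := by
      rcases eq_or_lt_of_le hb with h | h
      · subst h; simp
      · have : (b : ℝ) ≤ -1 := by exact_mod_cast (by omega : b ≤ -1)
        nlinarith
    have h3 : (b : ℝ) * (w - m) ≤ 0 := mul_nonpos_of_nonpos_of_nonneg hb' (by linarith)
    have h4 : 0 ≤ ((b : ℝ) ^ 2 + b) / 2 * (M - m) := mul_nonneg (by linarith) (by linarith)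
    linarith
  · have hb' : (1 : ℝ) ≤ b := by exact_mod_cast hb
    have h2 : (b : ℝ) ≤ ((b : ℝ) ^ 2 + b) / 2 := by nlinarith
    calc (b : ℝ) * (w - m) ≤ (b : ℝ) * (M - m) := by gcongr
      _ ≤ ((b : ℝ) ^ 2 + b) / 2 * (M - m) := by
        exact mul_le_mul_of_nonneg_right h2 (by linarith)

theorem width_KS {r : ℝ} (hr : r * r = 2) (h1 : 1 ≤ r) (y : Fin 3 → ℤ) (hy : y ≠ 0) :
    ∃ x ∈ KS r, ∃ x' ∈ KS r, 2 + r ≤ ∑ i, (x i - x' i) * (y i : ℝ) := by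
  set w : Fin 4 → ℝ := fun l => ∑ i, vv r l i * (y i : ℝ) with hw
  obtain ⟨i, hi⟩ := Finite.exists_max w
  obtain ⟨j, hj⟩ := Finite.exists_min w
  refine ⟨vv r i, vv_mem hr h1 i, vv r j, vv_mem hr h1 j, ?_⟩
  have hd : ∑ t, (vv r i t - vv r j t) * (y t : ℝ) = w i - w j := by
    simp only [hw, sub_mul, Finset.sum_sub_distrib]
  rw [hd]
  obtain ⟨b, hb⟩ : ∃ b : Fin 4 → ℤ, b = ![y 0, y 1, y 2, -(y 0 + y 1 + y 2)] := ⟨_, rfl⟩
  have b0 : b 0 = y 0 := by rw [hb]; rfl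
  have b1 : b 1 = y 1 := by rw [hb]; rfl
  have b2 : b 2 = y 2 := by rw [hb]; rfl
  have b3 : b 3 = -(y 0 + y 1 + y 2) := by rw [hb]; rfl
  have t0 := term_le (b 0) (hj 0) (hi 0)
  have t1 := term_le (b 1) (hj 1) (hi 1)
  have t2 := term_le (b 2) (hj 2) (hi 2)
  have t3 := term_le (b 3) (hj 3) (hi 3)
  have c3 : (b 3 : ℝ) = -((y 0 : ℝ) + y 1 + y 2) := by rw [b3]; push_cast; ring
  rw [b0] at t0
  rw [b1] at t1
  rw [b2] at t2
  rw [c3] at t3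
  set M := w i - w j with hM
  obtain ⟨Y0, hY0⟩ : ∃ Y : ℝ, Y = y 0 := ⟨_, rfl⟩
  obtain ⟨Y1, hY1⟩ : ∃ Y : ℝ, Y = y 1 := ⟨_, rfl⟩
  obtain ⟨Y2, hY2⟩ : ∃ Y : ℝ, Y = y 2 := ⟨_, rfl⟩
  rw [← hY0] at t0 t3
  rw [← hY1] at t1 t3
  rw [← hY2] at t2 t3
  have w0 : w 0 = (7 + 3 * r) / 4 * Y0 + (2 + 2 * r) / 4 * Y1 + (1 + r) / 4 * Y2 := by
    simp [hw, vv, Fin.sum_univ_three, hY0, hY1, hY2]
  have w1 : w 1 = (3 - r) / 4 * Y0 + (6 + 2 * r) / 4 * Y1 + (1 + r) / 4 * Y2 := by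
    simp [hw, vv, Fin.sum_univ_three, hY0, hY1, hY2]
  have w2 : w 2 = (3 - r) / 4 * Y0 + (2 - 2 * r) / 4 * Y1 + (5 + r) / 4 * Y2 := by
    simp [hw, vv, Fin.sum_univ_three, hY0, hY1, hY2]
  have w3 : w 3 = (-1 - r) / 4 * Y0 + (-2 - 2 * r) / 4 * Y1 + (-3 - 3 * r) / 4 * Y2 := by
    simp [hw, vv, Fin.sum_univ_three, hY0, hY1, hY2]
  have hid : Y0 * w 0 + Y1 * w 1 + Y2 * w 2 + -(Y0 + Y1 + Y2) * w 3 =
      (2 + r) * ((Y0 ^ 2 + Y1 ^ 2 + Y2 ^ 2 + (Y0 + Y1 + Y2) ^ 2) / 2) := by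
    rw [w0, w1, w2, w3]; ring
  have hpos : 0 < (Y0 ^ 2 + Y1 ^ 2 + Y2 ^ 2 + (Y0 + Y1 + Y2) ^ 2) / 2 := by
    have hne : Y0 ≠ 0 ∨ Y1 ≠ 0 ∨ Y2 ≠ 0 := by
      by_contra hcon
      push Not at hcon
      obtain ⟨q0, q1, q2⟩ := hcon
      apply hy
      funext t
      rw [hY0] at q0
      rw [hY1] at q1
      rw [hY2] at q2
      fin_cases t
      · exact_mod_cast q0
      · exact_mod_cast q1
      · exact_mod_cast q2
    rcases hne with h | h | h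
    · have := pow_pos (abs_pos.2 h) 2
      rw [sq_abs] at this
      positivity
    · have := pow_pos (abs_pos.2 h) 2
      rw [sq_abs] at this
      positivity
    · have := pow_pos (abs_pos.2 h) 2
      rw [sq_abs] at this
      positivity
  have hle : (2 + r) * ((Y0 ^ 2 + Y1 ^ 2 + Y2 ^ 2 + (Y0 + Y1 + Y2) ^ 2) / 2) ≤
      M * ((Y0 ^ 2 + Y1 ^ 2 + Y2 ^ 2 + (Y0 + Y1 + Y2) ^ 2) / 2) := by
    rw [← hid]
    nlinarith [t0, t1, t2, t3]
  exact le_of_mul_le_mul_right hle hpos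

end

end SharpAux

open SharpAux in
/-- FL-13: the bound `2 + √2` is attained in the class. -/
theorem sharp : ∃ (f : Fin 4 → Fin 3 → ℤ) (K : Set (Fin 3 → ℝ)), Superbase f ∧ IsCompact K ∧
    Convex ℝ K ∧ (interior K).Nonempty ∧ Sep f K ∧
    ∀ y : Fin 3 → ℤ, y ≠ 0 → ∃ x ∈ K, ∃ x' ∈ K,
      2 + Real.sqrt 2 ≤ ∑ i, (x i - x' i) * (y i : ℝ) := by
  have hr : Real.sqrt 2 * Real.sqrt 2 = 2 := Real.mul_self_sqrt (by norm_num)
  have h1 : 1 ≤ Real.sqrt 2 := by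
    rw [Real.one_le_sqrt]; norm_num
  have h2 : Real.sqrt 2 ≤ 3 / 2 := by
    rw [Real.sqrt_le_left (by norm_num)]; norm_num
  exact ⟨f, KS (Real.sqrt 2), superbase_f, isCompact_KS hr h1 h2, convex_KS _, interior_KS h1,
    sep_KS h1 h2, width_KS hr h1⟩

end Pool.Agent.Helper84.FL
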