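import Pool.Agent.Helper84.FL.Width
import Pool.Agent.Helper84.FL.Labels
import Pool.Agent.Helper84.FL.Sharp

namespace Pool.Agent.Helper84.FL

theorem final (f : Fin 4 → Fin 3 → ℤ) (hf : Superbase f) (K : Set (Fin 3 → ℝ))
    (hK : Bornology.IsBounded K) (hsep : Sep f K) : WidthLe K (2 + Real.sqrt 2) := by
  rcases K.eq_empty_or_nonempty with h | hne
  · subst h
    exact ⟨fun _ => 1, by intro h; have := congrFun h 0; simp at this, by simp⟩
  obtain ⟨σ, p, n, hp, hn, hs⟩ := exists_chain f hf K hK hne hsep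
  refine width_chain (fun k => f (σ k)) ⟨?_, ?_⟩ p hp n ?_ K hK hs
  · rw [← hf.sum]; exact Equiv.sum_comp σ f
  · intro z
    obtain ⟨a, ha⟩ := hf.span z
    refine ⟨fun k => a (σ k), ?_⟩
    rw [ha]; exact (Equiv.sum_comp σ (fun l => a l • f l)).symm
  · intro k
    exact ⟨(hn k).1, fun l hl => (hn k).2 (σ l) (fun h => hl (σ.injective h))⟩

end Pool.Agent.Helper84.FL
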