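import Pool.Agent.Helper84.FL.Defs

/-!
# Polynomial identities for configurations
-/

namespace Pool.Agent.Helper84.FL
namespace Cfg
variable (c : Cfg)

set_option linter.unusedSimpArgs false

theorem foster : c.r1 * c.q12 + c.r2 * c.q23 + c.r3 * c.q34 + c.r4 * c.q14 + c.X * c.q13
    + c.Z * c.q24 = 3 * c.dt + c.tau := by
  simp only [q12,q23,q34,q14,q13,q24,dt,tau,e1,e2,e3,a11,a12,a13,a22,a23,a33,g12,g13,g23,k4]; ring

theorem yrel : c.y1 + c.y3 = c.y2 + c.y4 := by simp only [y1,y2,y3,y4]; ring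

theorem rot_dt : c.rot.dt = c.dt := by
  simp only [rot, dt,g12,g13,g23,k4]; ring
theorem rot_tau : c.rot.tau = c.tau := by
  simp only [rot, tau,e1,e2,e3,g12,g13,g23,k4]; ring
theorem rot_q12 : c.rot.q12 = c.q23 := by
  simp only [rot, q12,q23,a11,a12,a13,a22,a23,a33,g12,g13,g23,k4]; ring
theorem rot_q23 : c.rot.q23 = c.q34 := by
  simp only [rot, q34,q23,a11,a12,a13,a22,a23,a33,g12,g13,g23,k4]; ring
theorem rot_q34 : c.rot.q34 = c.q14 := by
  simp only [rot, q34,q14,a11,a12,a13,a22,a23,a33,g12,g13,g23,k4]; ring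
theorem rot_q14 : c.rot.q14 = c.q12 := by
  simp only [rot, q12,q14,a11,a12,a13,a22,a23,a33,g12,g13,g23,k4]; ring
theorem rot_q13 : c.rot.q13 = c.q24 := by
  simp only [rot, q13,q24,a11,a12,a13,a22,a23,a33,g12,g13,g23,k4]; ring
theorem rot_q24 : c.rot.q24 = c.q13 := by
  simp only [rot, q13,q24,a11,a12,a13,a22,a23,a33,g12,g13,g23,k4]; ring
theorem rot_y1 : c.rot.y1 = c.y2 := by
  simp only [rot, y1,y2,e1,e2,e3,g12,g13,g23,k4]; ring
theorem rot_y2 : c.rot.y2 = c.y3 := by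
  simp only [rot, y3,y2,e1,e2,e3,g12,g13,g23,k4]; ring
theorem rot_y3 : c.rot.y3 = c.y4 := by
  simp only [rot, y3,y4,e1,e2,e3,g12,g13,g23,k4]; ring
theorem rot_y4 : c.rot.y4 = c.y1 := by
  simp only [rot, y1,y4,e1,e2,e3,g12,g13,g23,k4]; ring
theorem rot_y13 : c.rot.y13 = c.y24 := by
  simp only [rot, y13,y24,e1,e2,e3,g12,g13,g23,k4]; ring
theorem rot_y24 : c.rot.y24 = -c.y13 := by
  simp only [rot, y13,y24,e1,e2,e3,g12,g13,g23,k4]; ring

theorem rot_qs : c.rot.qs = c.qs := by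
  simp only [qs, rot_q12, rot_q23, rot_q34, rot_q14, rot_q13, rot_q24]; ring

theorem rot_R : c.rot.R = c.R := by
  simp only [R, rot_qs, rot_y1, rot_y2, rot_y3, rot_y4]; ring

/-- the quadratic form of the Gram matrix -/
noncomputable def gf (u v w : ℝ) : ℝ := c.r4 * u ^ 2 + c.Z * v ^ 2 + c.r3 * w ^ 2
  + 2 * c.g12 * u * v + 2 * c.g13 * u * w + 2 * c.g23 * v * w

theorem tau_eq : c.tau = c.gf c.k1 c.k2 c.k3 := by
  simp only [tau, gf, e1, e2, e3]; ring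

/-- L1 identity for the pair 14 -/
theorem l1_14 : (c.q12 + c.q23 + c.q24) * (c.q13 + c.q23 + c.q34) - c.q23 ^ 2
    = c.dt * c.r4 + (c.a22 * c.k3 ^ 2 - 2 * c.a23 * c.k2 * c.k3 + c.a33 * c.k2 ^ 2) := by
  simp only [q12,q23,q34,q14,q13,q24,dt,a11,a12,a13,a22,a23,a33,g12,g13,g23,k4]; ring

theorem treedet : c.q12*c.q23*c.q34 + c.q12*c.q23*c.q14+c.q12*c.q34*c.q14+c.q23*c.q34*c.q14
   + c.q13*(c.q12+c.q23)*(c.q34+c.q14) + c.q24*(c.q23+c.q34)*(c.q14+c.q12)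
   + c.q13*c.q24*(c.q12+c.q23+c.q34+c.q14) = c.dt^2 + c.dt*c.tau := by
  simp only [q12,q23,q34,q14,q13,q24,dt,tau,e1,e2,e3,a11,a12,a13,a22,a23,a33,g12,g13,g23,k4]; ring

/-- discriminant identity for the pair 12 and the base pair (3,4 complement) -/
theorem a_disc : c.a22 * c.a33 - c.a23 ^ 2 = c.dt * c.r4 := by
  simp only [dt,a22,a23,a33,g12,g13,g23]; ring

end Cfg
end Pool.Agent.Helper84.FL
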