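import Pool.Agent.Helper84.FL.Steps

/-!
# The main inequality for configurations
-/

namespace Pool.Agent.Helper84.FL
namespace Cfg
variable (c : Cfg)

set_option linter.unusedSimpArgs false

/-- no near pair is long -/
theorem Good.case0 {c : Cfg} (h : c.Good) (l1 : c.r1 ≤ 3 / 2) (l2 : c.r2 ≤ 3 / 2)
    (l3 : c.r3 ≤ 3 / 2) (l4 : c.r4 ≤ 3 / 2) : c.R ≤ (2 + Real.sqrt 2) * (c.dt + c.tau) := by
  have h1 := h.h1
  have h2 := h.h2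
  have h3 := h.h3
  have h4 := h.h4
  refine h.fin_one (3 / 2 - c.r1) (3 / 2 - c.r2) (3 / 2 - c.r3) (3 / 2 - c.r4) (by linarith)
    (by linarith) (by linarith) (by linarith) le_rfl le_rfl le_rfl le_rfl ?_
  have key := caseA c.r1 c.r2 c.r3 c.r4 c.X c.Z h1 l1 h2 l2 h3 l3 h4 l4 h.hX h.hZ h.t12 h.t34
    h.t23 h.t41
  have e : 4 * c.dt - c.gf (-(3 / 2 - c.r2) - (3 / 2 - c.r3)) ((3 / 2 - c.r3) + (3 / 2 - c.r4))
      (-(3 / 2 - c.r1) - (3 / 2 - c.r4)) = 4 * ((c.r1 + c.r2 + c.r3 + c.r4 - c.X - c.Z) / 4 *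
        (c.X * c.Z - ((c.r2 + c.r4 - c.r1 - c.r3) / 2) ^ 2
          - (3 - (c.r1 + c.r2 + c.r3 + c.r4) / 2) ^ 2)
      - ((c.r1 - c.r3) ^ 2 + (c.r4 - c.r2) ^ 2) / 8
        * (c.X + c.Z + 6 - (c.r1 + c.r2 + c.r3 + c.r4))) := by
    simp only [dt, gf, g12, g13, g23]; ring
  linarith

/-- lower bound for the determinant -/
theorem Good.dt_lower {c : Cfg} (h : c.Good) (ht : c.tau ≤ 71 / 125 * c.dt) :
    466 / 1000 ≤ c.dt := by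
  have hd := h.pos
  have hτ := h.tau_nonneg
  have hb := tree_bound c.q12 c.q23 c.q34 c.q14 c.q13 c.q24 h.q12_nonneg h.q23_nonneg h.q34_nonneg
    h.q14_nonneg h.q13_nonneg h.q24_nonneg
  rw [c.treedet] at hb
  have hqs : c.q12 + c.q23 + c.q34 + c.q14 + c.q13 + c.q24 = c.qs := by rw [qs]
  rw [hqs] at hb
  have h3 : c.qs ^ 3 ≤ (3 * c.dt + c.tau) ^ 3 := pow_le_pow_left₀ h.qs_nonneg h.qs_le 3
  obtain ⟨t, htt⟩ : ∃ t, c.tau = t * c.dt := ⟨c.tau / c.dt, by field_simp⟩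
  have ht0 : 0 ≤ t := by
    by_contra hneg
    push Not at hneg
    have := mul_neg_of_neg_of_pos hneg hd
    linarith
  have ht1 : t ≤ 71 / 125 := by
    rw [htt] at ht
    exact le_of_mul_le_mul_right ht hd
  rw [htt] at hb h3
  have h4 : 27 * (c.dt ^ 2 + c.dt * (t * c.dt)) ≤ 2 * (3 * c.dt + t * c.dt) ^ 3 := by linarith
  have h5 : c.dt ^ 2 * (27 * (1 + t)) ≤ c.dt ^ 2 * (2 * (3 + t) ^ 3 * c.dt) := by nlinarith
  have h6 : 27 * (1 + t) ≤ 2 * (3 + t) ^ 3 * c.dt := le_of_mul_le_mul_left h5 (by positivity)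
  have h7 : 2 * (3 + t) ^ 3 * (466 / 1000) ≤ 27 * (1 + t) := by
    nlinarith [mul_nonneg ht0 (sub_nonneg.2 ht1), mul_nonneg (mul_nonneg ht0 ht0)
      (sub_nonneg.2 ht1)]
  have h8 : 0 < 2 * (3 + t) ^ 3 := by positivity
  exact le_of_mul_le_mul_left (h7.trans h6) h8

theorem dihedral_alg (H w G3 G4 k3 k4 e A B : ℝ) (hH : H ≤ 0) (hw : 0 ≤ w)
    (hw2 : w ^ 2 = G3 * G4) (hG3 : 0 ≤ G3) (hG4 : 0 ≤ G4) (hB : w ^ 2 - H ^ 2 = B) (hBp : 0 < B)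
    (hp : k3 * k4 ≤ H)
    (hA : A = e ^ 2 + k3 ^ 2 * G3 + 2 * (k3 * k4) * H + k4 ^ 2 * G4) (hAB : A ≤ 71 / 125 * B) :
    321 ^ 2 * H ^ 2 ≤ 71 ^ 2 * w ^ 2 := by
  have h1 : -(2 * (k3 * k4) * w) ≤ k3 ^ 2 * G3 + k4 ^ 2 * G4 := by
    have h2 : (2 * (k3 * k4) * w) ^ 2 ≤ (k3 ^ 2 * G3 + k4 ^ 2 * G4) ^ 2 := by
      have : (2 * (k3 * k4) * w) ^ 2 = 4 * (k3 ^ 2 * G3) * (k4 ^ 2 * G4) := by
        rw [mul_pow, hw2]; ring
      rw [this]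
      nlinarith [sq_nonneg (k3 ^ 2 * G3 - k4 ^ 2 * G4)]
    have h3 : 0 ≤ k3 ^ 2 * G3 + k4 ^ 2 * G4 := by positivity
    exact (neg_le_abs _).trans (abs_le_of_sq_le_sq h2 h3)
  have hwH : 0 < w - H := by
    rcases (sub_nonneg.2 (hH.trans hw)).lt_or_eq with h | h
    · exact h
    · exfalso
      have : w ^ 2 - H ^ 2 = (w - H) * (w + H) := by ring
      rw [this, ← h] at hB
      linarith
  have h4 : -(2 * H) * (w - H) ≤ A := by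
    have h5 : -(2 * H) * (w - H) ≤ -(2 * (k3 * k4)) * (w - H) :=
      mul_le_mul_of_nonneg_right (by linarith) hwH.le
    have h6 : -(2 * (k3 * k4)) * (w - H) = -(2 * (k3 * k4) * w) + 2 * (k3 * k4) * H := by ring
    rw [hA]
    have := sq_nonneg e
    linarith
  have h7 : -(2 * H) * (w - H) ≤ (71 / 125 * (w + H)) * (w - H) := by
    have : (71 / 125 * (w + H)) * (w - H) = 71 / 125 * B := by rw [← hB]; ring
    rw [this]; exact h4.trans hAB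
  have h8 := le_of_mul_le_mul_right h7 hwH
  have h9 : 321 * (-H) ≤ 71 * w := by linarith
  have h10 : (321 * (-H)) ^ 2 ≤ (71 * w) ^ 2 := pow_le_pow_left₀ (by linarith) h9 2
  nlinarith

theorem G_nonneg (r s S : ℝ) (h1 : 1 ≤ r) (h1' : r ≤ 3 / 2) (h2 : 1 ≤ s) (h2' : s ≤ 3 / 2)
    (hS : 0 ≤ S) (hS' : S ≤ r + s - 1) : 0 ≤ r * s - S ^ 2 / 4 := by
  have h3 : S ^ 2 ≤ (r + s - 1) ^ 2 := pow_le_pow_left₀ hS hS' 2
  have h4 : (r - s) ^ 2 ≤ 1 := by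
    rw [sq_le_one_iff_abs_le_one, abs_le]; constructor <;> linarith
  nlinarith

/-- exactly one near pair, namely 34, may be long -/
theorem Good.case1 {c : Cfg} (h : c.Good) (ht : c.tau ≤ 71 / 125 * c.dt) (l1 : c.r1 ≤ 3 / 2)
    (l2 : c.r2 ≤ 3 / 2) (l3 : 3 / 2 ≤ c.r3) (l4 : c.r4 ≤ 3 / 2) :
    c.R ≤ (2 + Real.sqrt 2) * (c.dt + c.tau) := by
  have h1 := h.h1
  have h2 := h.h2
  have h3 := h.h3
  have h4 := h.h4
  have hX := h.hX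
  have hZ := h.hZ
  have t12 := h.t12
  have t41 := h.t41
  have hd := h.pos
  refine h.fin_one (3 / 2 - c.r1) (3 / 2 - c.r2) 0 (3 / 2 - c.r4) (by linarith)
    (by linarith) (by norm_num) (by linarith) le_rfl le_rfl (by linarith) le_rfl ?_
  obtain ⟨S, hS⟩ : ∃ S, S = c.r1 + c.r2 - c.X := ⟨_, rfl⟩
  obtain ⟨T, hT⟩ : ∃ T, T = c.r1 + c.r4 - c.Z := ⟨_, rfl⟩
  obtain ⟨H, hH⟩ : ∃ H, H = c.a13 + c.a23 + c.a33 := ⟨_, rfl⟩
  have eD : (c.r1 * c.r2 - S ^ 2 / 4) * (c.r1 * c.r4 - T ^ 2 / 4) - H ^ 2 = c.r1 * c.dt := by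
    simp only [hS, hT, hH, a13, a23, a33, dt, g12, g13, g23]; ring
  have eW : ((3 - c.r1 - c.r4) * S + (3 - c.r1 - c.r2) * T - 2 * (3 / 2 - c.r1) * c.r1) ^ 2 / 16
      + ((3 - c.r1 - c.r2) ^ 2 * (c.r1 * c.r4 - T ^ 2 / 4)
        + (3 - c.r1 - c.r4) ^ 2 * (c.r1 * c.r2 - S ^ 2 / 4)) / 4
      - (3 - c.r1 - c.r2) * (3 - c.r1 - c.r4) * H / 2
      = c.r1 * (c.gf (-(3 / 2 - c.r2) - 0) (0 + (3 / 2 - c.r4)) (-(3 / 2 - c.r1) - (3 / 2 - c.r4))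
        / 4) := by
    simp only [hS, hT, hH, a13, a23, a33, gf, g12, g13, g23]; ring
  have hS0 : 0 ≤ S := by rw [hS]; linarith
  have hS1 : S ≤ c.r1 + c.r2 - 1 := by rw [hS]; linarith
  have hT0 : 0 ≤ T := by rw [hT]; linarith
  have hT1 : T ≤ c.r1 + c.r4 - 1 := by rw [hT]; linarith
  have hmain : ((3 - c.r1 - c.r4) * S + (3 - c.r1 - c.r2) * T
        - 2 * (3 / 2 - c.r1) * c.r1) ^ 2 / 16
      + ((3 - c.r1 - c.r2) ^ 2 * (c.r1 * c.r4 - T ^ 2 / 4)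
        + (3 - c.r1 - c.r4) ^ 2 * (c.r1 * c.r2 - S ^ 2 / 4)) / 4
      - (3 - c.r1 - c.r2) * (3 - c.r1 - c.r4) * H / 2
      ≤ (c.r1 * c.r2 - S ^ 2 / 4) * (c.r1 * c.r4 - T ^ 2 / 4) - H ^ 2 := by
    rcases le_total 0 H with hH0 | hH0
    · apply three_pos c.r1 c.r2 c.r4 S T H h1 l1 h2 l2 h4 l4 hS0 hS1 hT0 hT1 hH0
      rw [eD, mul_comm]
      exact mul_le_mul_of_nonneg_left (h.dt_lower ht) (by linarith)
    · apply three_neg c.r1 c.r2 c.r4 S T H h1 l1 h2 l2 h4 l4 hS0 hS1 hT0 hT1 hH0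
      have hq : c.k3 * c.k4 ≤ H := by
        have h5 := h.q34_nonneg
        have h6 : c.q34 = H - c.k3 * c.k4 := by rw [q34, hH]
        linarith
      have hτe : c.r1 * c.tau = (c.e1 - c.e2) ^ 2 + c.k3 ^ 2 * (c.r1 * c.r2 - S ^ 2 / 4)
          + 2 * (c.k3 * c.k4) * H + c.k4 ^ 2 * (c.r1 * c.r4 - T ^ 2 / 4) := by
        simp only [hS, hT, hH, a13, a23, a33, tau, e1, e2, e3, k4, g12, g13, g23]; ring
      have hG3 : 0 ≤ c.r1 * c.r2 - S ^ 2 / 4 := G_nonneg _ _ _ h1 l1 h2 l2 hS0 hS1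
      have hG4 : 0 ≤ c.r1 * c.r4 - T ^ 2 / 4 := G_nonneg _ _ _ h1 l1 h4 l4 hT0 hT1
      have hw2 : Real.sqrt ((c.r1 * c.r2 - S ^ 2 / 4) * (c.r1 * c.r4 - T ^ 2 / 4)) ^ 2
          = (c.r1 * c.r2 - S ^ 2 / 4) * (c.r1 * c.r4 - T ^ 2 / 4) :=
        Real.sq_sqrt (mul_nonneg hG3 hG4)
      have hr1d : 0 < c.r1 * c.dt := mul_pos (by linarith) hd
      rw [← hw2]
      refine dihedral_alg H _ _ _ c.k3 c.k4 (c.e1 - c.e2) (c.r1 * c.tau) (c.r1 * c.dt) hH0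
        (Real.sqrt_nonneg _) hw2 hG3 hG4 ?_ hr1d hq hτe ?_
      · rw [hw2]; exact eD
      · have := mul_le_mul_of_nonneg_left ht (by linarith : (0 : ℝ) ≤ c.r1)
        linarith
  rw [eD, eW] at hmain
  have := le_of_mul_le_mul_left hmain (by linarith : (0 : ℝ) < c.r1)
  linarith

/-- at least two near pairs are long -/
theorem Good.case2 {c : Cfg} (h : c.Good) (ht : c.tau ≤ 71 / 125 * c.dt)
    (hl : (3 / 2 ≤ c.r1 ∧ 3 / 2 ≤ c.r2) ∨ (3 / 2 ≤ c.r1 ∧ 3 / 2 ≤ c.r3) ∨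
      (3 / 2 ≤ c.r1 ∧ 3 / 2 ≤ c.r4) ∨ (3 / 2 ≤ c.r2 ∧ 3 / 2 ≤ c.r3) ∨
      (3 / 2 ≤ c.r2 ∧ 3 / 2 ≤ c.r4) ∨ (3 / 2 ≤ c.r3 ∧ 3 / 2 ≤ c.r4)) :
    c.R ≤ (2 + Real.sqrt 2) * (c.dt + c.tau) := by
  have h1 := h.h1
  have h2 := h.h2
  have h3 := h.h3
  have h4 := h.h4
  have m1 : max (3 / 2 - c.r1) 0 ≤ 1 / 2 := max_le (by linarith) (by norm_num)
  have m2 : max (3 / 2 - c.r2) 0 ≤ 1 / 2 := max_le (by linarith) (by norm_num)
  have m3 : max (3 / 2 - c.r3) 0 ≤ 1 / 2 := max_le (by linarith) (by norm_num)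
  have m4 : max (3 / 2 - c.r4) 0 ≤ 1 / 2 := max_le (by linarith) (by norm_num)
  refine h.two ht _ _ _ _ m1 m2 m3 m4 (le_max_left _ _) (le_max_left _ _) (le_max_left _ _)
    (le_max_left _ _) (le_max_right _ _) (le_max_right _ _) (le_max_right _ _)
    (le_max_right _ _) ?_
  have z1 : 3 / 2 ≤ c.r1 → max (3 / 2 - c.r1) 0 = 0 := fun h => max_eq_right (by linarith)
  have z2 : 3 / 2 ≤ c.r2 → max (3 / 2 - c.r2) 0 = 0 := fun h => max_eq_right (by linarith)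
  have z3 : 3 / 2 ≤ c.r3 → max (3 / 2 - c.r3) 0 = 0 := fun h => max_eq_right (by linarith)
  have z4 : 3 / 2 ≤ c.r4 → max (3 / 2 - c.r4) 0 = 0 := fun h => max_eq_right (by linarith)
  rcases hl with ⟨a, b⟩ | ⟨a, b⟩ | ⟨a, b⟩ | ⟨a, b⟩ | ⟨a, b⟩ | ⟨a, b⟩
  · rw [z1 a, z2 b]; linarith
  · rw [z1 a, z3 b]; linarith
  · rw [z1 a, z4 b]; linarith
  · rw [z2 a, z3 b]; linarith
  · rw [z2 a, z4 b]; linarith
  · rw [z3 a, z4 b]; linarith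

end Cfg

open Cfg

/-- FL-M (helper84): the main inequality for configurations. -/
theorem main_ineq (c : Cfg) (h : c.Good) : c.R ≤ (2 + Real.sqrt 2) * (c.dt + c.tau) := by
  rcases le_total (71 / 125 * c.dt) c.tau with ht | ht
  · exact h.direct ht
  have k1 : c.rot.R ≤ (2 + Real.sqrt 2) * (c.rot.dt + c.rot.tau) →
      c.R ≤ (2 + Real.sqrt 2) * (c.dt + c.tau) := by
    rw [rot_R, rot_dt, rot_tau]; exact id
  have k2 : c.rot.rot.R ≤ (2 + Real.sqrt 2) * (c.rot.rot.dt + c.rot.rot.tau) →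
      c.R ≤ (2 + Real.sqrt 2) * (c.dt + c.tau) := by
    rw [rot_R, rot_dt, rot_tau]; exact k1
  have k3 : c.rot.rot.rot.R ≤ (2 + Real.sqrt 2) * (c.rot.rot.rot.dt + c.rot.rot.rot.tau) →
      c.R ≤ (2 + Real.sqrt 2) * (c.dt + c.tau) := by
    rw [rot_R, rot_dt, rot_tau]; exact k2
  have ht1 : c.rot.tau ≤ 71 / 125 * c.rot.dt := by rw [rot_dt, rot_tau]; exact ht
  have ht2 : c.rot.rot.tau ≤ 71 / 125 * c.rot.rot.dt := by rw [rot_dt, rot_tau]; exact ht1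
  have ht3 : c.rot.rot.rot.tau ≤ 71 / 125 * c.rot.rot.rot.dt := by rw [rot_dt, rot_tau]; exact ht2
  rcases le_total c.r1 (3 / 2) with l1 | l1 <;> rcases le_total c.r2 (3 / 2) with l2 | l2 <;>
  rcases le_total c.r3 (3 / 2) with l3 | l3 <;> rcases le_total c.r4 (3 / 2) with l4 | l4
  -- no long pair
  · exact h.case0 l1 l2 l3 l4
  -- r4 long : rot has r3' = r4
  · exact k1 (h.rot.case1 ht1 l2 l3 l4 l1)
  -- r3 long
  · exact h.case1 ht l1 l2 l3 l4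
  · exact h.case2 ht (by tauto)
  -- r2 long: rot^3 has r3' = r2
  · exact k3 (h.rot.rot.rot.case1 ht3 l4 l1 l2 l3)
  · exact h.case2 ht (by tauto)
  · exact h.case2 ht (by tauto)
  · exact h.case2 ht (by tauto)
  -- r1 long: rot^2 has r3' = r1
  · exact k2 (h.rot.rot.case1 ht2 l3 l4 l1 l2)
  · exact h.case2 ht (by tauto)
  · exact h.case2 ht (by tauto)
  · exact h.case2 ht (by tauto)
  · exact h.case2 ht (by tauto)
  · exact h.case2 ht (by tauto)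
  · exact h.case2 ht (by tauto)
  · exact h.case2 ht (by tauto)

end Pool.Agent.Helper84.FL
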