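import Mathlib

namespace Pool.Agent.Helper84.FL

/-- FL-8: positive null vector of a Laplacian type matrix (matrix tree theorem / Perron).
`B l k`, `l ≠ k`, is the entry `n_k · f_l > 0`; then there are weights `μ k > 0` with
`∑ k ≠ l, μ k * B l k = μ l * ∑ m ≠ l, B m l` for every `l`. -/
theorem exists_mu (B : Fin 4 → Fin 4 → ℝ) (hB : ∀ l k, l ≠ k → 0 < B l k)
    (hcol : ∀ k, ∑ l, B l k = 0) :
    ∃ μ : Fin 4 → ℝ, (∀ k, 0 < μ k) ∧ ∀ l, ∑ k, μ k * B l k = 0 := by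
  have d0 : B 0 0 = -(B 1 0 + B 2 0 + B 3 0) := by
    have := hcol 0
    rw [Fin.sum_univ_four] at this
    linarith
  have d1 : B 1 1 = -(B 0 1 + B 2 1 + B 3 1) := by
    have := hcol 1
    rw [Fin.sum_univ_four] at this
    linarith
  have d2 : B 2 2 = -(B 0 2 + B 1 2 + B 3 2) := by
    have := hcol 2
    rw [Fin.sum_univ_four] at this
    linarith
  have d3 : B 3 3 = -(B 0 3 + B 1 3 + B 2 3) := by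
    have := hcol 3
    rw [Fin.sum_univ_four] at this
    linarith
  have h01 : 0 < B 0 1 := hB 0 1 (by decide)
  have h02 : 0 < B 0 2 := hB 0 2 (by decide)
  have h03 : 0 < B 0 3 := hB 0 3 (by decide)
  have h10 : 0 < B 1 0 := hB 1 0 (by decide)
  have h12 : 0 < B 1 2 := hB 1 2 (by decide)
  have h13 : 0 < B 1 3 := hB 1 3 (by decide)
  have h20 : 0 < B 2 0 := hB 2 0 (by decide)
  have h21 : 0 < B 2 1 := hB 2 1 (by decide)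
  have h23 : 0 < B 2 3 := hB 2 3 (by decide)
  have h30 : 0 < B 3 0 := hB 3 0 (by decide)
  have h31 : 0 < B 3 1 := hB 3 1 (by decide)
  have h32 : 0 < B 3 2 := hB 3 2 (by decide)
  refine ⟨![B 0 1 * B 0 2 * B 0 3 + B 0 1 * B 0 2 * B 1 3 + B 0 1 * B 0 2 * B 2 3
      + B 0 1 * B 1 2 * B 0 3 + B 0 1 * B 1 2 * B 1 3 + B 0 1 * B 1 2 * B 2 3
      + B 0 1 * B 3 2 * B 0 3 + B 0 1 * B 3 2 * B 1 3 + B 2 1 * B 0 2 * B 0 3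
      + B 2 1 * B 0 2 * B 1 3 + B 2 1 * B 0 2 * B 2 3 + B 2 1 * B 3 2 * B 0 3
      + B 3 1 * B 0 2 * B 0 3 + B 3 1 * B 0 2 * B 2 3 + B 3 1 * B 1 2 * B 0 3
      + B 3 1 * B 3 2 * B 0 3,
    B 1 0 * B 0 2 * B 0 3 + B 1 0 * B 0 2 * B 1 3 + B 1 0 * B 0 2 * B 2 3
      + B 1 0 * B 1 2 * B 0 3 + B 1 0 * B 1 2 * B 1 3 + B 1 0 * B 1 2 * B 2 3
      + B 1 0 * B 3 2 * B 0 3 + B 1 0 * B 3 2 * B 1 3 + B 2 0 * B 1 2 * B 0 3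
      + B 2 0 * B 1 2 * B 1 3 + B 2 0 * B 1 2 * B 2 3 + B 2 0 * B 3 2 * B 1 3
      + B 3 0 * B 0 2 * B 1 3 + B 3 0 * B 1 2 * B 1 3 + B 3 0 * B 1 2 * B 2 3
      + B 3 0 * B 3 2 * B 1 3,
    B 1 0 * B 2 1 * B 0 3 + B 1 0 * B 2 1 * B 1 3 + B 1 0 * B 2 1 * B 2 3
      + B 1 0 * B 3 1 * B 2 3 + B 2 0 * B 0 1 * B 0 3 + B 2 0 * B 0 1 * B 1 3
      + B 2 0 * B 0 1 * B 2 3 + B 2 0 * B 2 1 * B 0 3 + B 2 0 * B 2 1 * B 1 3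
      + B 2 0 * B 2 1 * B 2 3 + B 2 0 * B 3 1 * B 0 3 + B 2 0 * B 3 1 * B 2 3
      + B 3 0 * B 0 1 * B 2 3 + B 3 0 * B 2 1 * B 1 3 + B 3 0 * B 2 1 * B 2 3
      + B 3 0 * B 3 1 * B 2 3,
    B 1 0 * B 2 1 * B 3 2 + B 1 0 * B 3 1 * B 0 2 + B 1 0 * B 3 1 * B 1 2
      + B 1 0 * B 3 1 * B 3 2 + B 2 0 * B 0 1 * B 3 2 + B 2 0 * B 2 1 * B 3 2
      + B 2 0 * B 3 1 * B 1 2 + B 2 0 * B 3 1 * B 3 2 + B 3 0 * B 0 1 * B 0 2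
      + B 3 0 * B 0 1 * B 1 2 + B 3 0 * B 0 1 * B 3 2 + B 3 0 * B 2 1 * B 0 2
      + B 3 0 * B 2 1 * B 3 2 + B 3 0 * B 3 1 * B 0 2 + B 3 0 * B 3 1 * B 1 2
      + B 3 0 * B 3 1 * B 3 2], ?_, ?_⟩
  · intro k
    fin_cases k
    · show 0 < B 0 1 * B 0 2 * B 0 3 + B 0 1 * B 0 2 * B 1 3 + B 0 1 * B 0 2 * B 2 3
        + B 0 1 * B 1 2 * B 0 3 + B 0 1 * B 1 2 * B 1 3 + B 0 1 * B 1 2 * B 2 3
        + B 0 1 * B 3 2 * B 0 3 + B 0 1 * B 3 2 * B 1 3 + B 2 1 * B 0 2 * B 0 3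
        + B 2 1 * B 0 2 * B 1 3 + B 2 1 * B 0 2 * B 2 3 + B 2 1 * B 3 2 * B 0 3
        + B 3 1 * B 0 2 * B 0 3 + B 3 1 * B 0 2 * B 2 3 + B 3 1 * B 1 2 * B 0 3
        + B 3 1 * B 3 2 * B 0 3
      positivity
    · show 0 < B 1 0 * B 0 2 * B 0 3 + B 1 0 * B 0 2 * B 1 3 + B 1 0 * B 0 2 * B 2 3
        + B 1 0 * B 1 2 * B 0 3 + B 1 0 * B 1 2 * B 1 3 + B 1 0 * B 1 2 * B 2 3
        + B 1 0 * B 3 2 * B 0 3 + B 1 0 * B 3 2 * B 1 3 + B 2 0 * B 1 2 * B 0 3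
        + B 2 0 * B 1 2 * B 1 3 + B 2 0 * B 1 2 * B 2 3 + B 2 0 * B 3 2 * B 1 3
        + B 3 0 * B 0 2 * B 1 3 + B 3 0 * B 1 2 * B 1 3 + B 3 0 * B 1 2 * B 2 3
        + B 3 0 * B 3 2 * B 1 3
      positivity
    · show 0 < B 1 0 * B 2 1 * B 0 3 + B 1 0 * B 2 1 * B 1 3 + B 1 0 * B 2 1 * B 2 3
        + B 1 0 * B 3 1 * B 2 3 + B 2 0 * B 0 1 * B 0 3 + B 2 0 * B 0 1 * B 1 3
        + B 2 0 * B 0 1 * B 2 3 + B 2 0 * B 2 1 * B 0 3 + B 2 0 * B 2 1 * B 1 3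
        + B 2 0 * B 2 1 * B 2 3 + B 2 0 * B 3 1 * B 0 3 + B 2 0 * B 3 1 * B 2 3
        + B 3 0 * B 0 1 * B 2 3 + B 3 0 * B 2 1 * B 1 3 + B 3 0 * B 2 1 * B 2 3
        + B 3 0 * B 3 1 * B 2 3
      positivity
    · show 0 < B 1 0 * B 2 1 * B 3 2 + B 1 0 * B 3 1 * B 0 2 + B 1 0 * B 3 1 * B 1 2
        + B 1 0 * B 3 1 * B 3 2 + B 2 0 * B 0 1 * B 3 2 + B 2 0 * B 2 1 * B 3 2
        + B 2 0 * B 3 1 * B 1 2 + B 2 0 * B 3 1 * B 3 2 + B 3 0 * B 0 1 * B 0 2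
        + B 3 0 * B 0 1 * B 1 2 + B 3 0 * B 0 1 * B 3 2 + B 3 0 * B 2 1 * B 0 2
        + B 3 0 * B 2 1 * B 3 2 + B 3 0 * B 3 1 * B 0 2 + B 3 0 * B 3 1 * B 1 2
        + B 3 0 * B 3 1 * B 3 2
      positivity
  · intro l
    rw [Fin.sum_univ_four]
    simp only [Matrix.cons_val]
    fin_cases l
    · show _ * B 0 0 + _ * B 0 1 + _ * B 0 2 + _ * B 0 3 = 0
      rw [d0]
      ring
    · show _ * B 1 0 + _ * B 1 1 + _ * B 1 2 + _ * B 1 3 = 0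
      rw [d1]
      ring
    · show _ * B 2 0 + _ * B 2 1 + _ * B 2 2 + _ * B 2 3 = 0
      rw [d2]
      ring
    · show _ * B 3 0 + _ * B 3 1 + _ * B 3 2 + _ * B 3 3 = 0
      rw [d3]
      ring

end Pool.Agent.Helper84.FL
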