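import Pool.Agent.Helper84.FL.Geom

namespace Pool.Agent.Helper84.FL

/-- maximum principle -/
theorem pot_max (F : Fin 4 → Fin 4 → ℝ) (hpos : ∀ i j, i ≠ j → 0 < F i j) (ψ : Fin 4 → ℝ)
    (i : Fin 4) (h : ∀ l, l ≠ i → ∑ m, F l m * (ψ l - ψ m) ≤ 0) (k : Fin 4) : ψ k ≤ ψ i := by
  obtain ⟨k₀, hk₀⟩ := Finite.exists_max ψ
  refine (hk₀ k).trans ?_
  by_cases hki : k₀ = i
  · rw [hki]
  · have h1 := h k₀ hki
    have hterm : ∀ m ∈ Finset.univ, 0 ≤ F k₀ m * (ψ k₀ - ψ m) := by
      intro m _
      by_cases hm : m = k₀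
      · rw [hm]; simp
      · exact mul_nonneg (hpos _ _ (Ne.symm hm)).le (sub_nonneg.2 (hk₀ m))
    have h2 : ∑ m, F k₀ m * (ψ k₀ - ψ m) = 0 := le_antisymm h1 (Finset.sum_nonneg hterm)
    have h3 := (Finset.sum_eq_zero_iff_of_nonneg hterm).1 h2 i (Finset.mem_univ i)
    have h4 : ψ k₀ - ψ i = 0 := (mul_eq_zero.1 h3).resolve_left (hpos _ _ hki).ne'
    linarith

/-- the linear system -/
noncomputable def potMap (F : Fin 4 → Fin 4 → ℝ) : (Fin 4 → ℝ) →ₗ[ℝ] (Fin 4 → ℝ) where
  toFun φ l := if l = 3 then φ 3 else ∑ m, F l m * (φ l - φ m)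
  map_add' φ ψ := by
    funext l
    simp only [Pi.add_apply]
    split_ifs
    · rfl
    · rw [← Finset.sum_add_distrib]
      exact Finset.sum_congr rfl fun m _ => by ring
  map_smul' c φ := by
    funext l
    simp only [Pi.smul_apply, smul_eq_mul, RingHom.id_apply]
    split_ifs
    · rfl
    · rw [Finset.mul_sum]
      exact Finset.sum_congr rfl fun m _ => by ring

theorem potMap_injective (F : Fin 4 → Fin 4 → ℝ) (hpos : ∀ i j, i ≠ j → 0 < F i j) :
    Function.Injective (potMap F) := by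
  rw [← LinearMap.ker_eq_bot, LinearMap.ker_eq_bot']
  intro φ hφ
  have h3 : φ 3 = 0 := by
    have := congrFun hφ 3
    simpa [potMap] using this
  have hl : ∀ l, l ≠ 3 → ∑ m, F l m * (φ l - φ m) = 0 := by
    intro l hl
    have := congrFun hφ l
    simpa [potMap, hl] using this
  have h1 : ∀ k, φ k ≤ φ 3 := pot_max F hpos φ 3 fun l h => (hl l h).le
  have h2 : ∀ k, (-φ) k ≤ (-φ) 3 := pot_max F hpos (-φ) 3 fun l h => by
    have e : ∑ m, F l m * ((-φ) l - (-φ) m) = - ∑ m, F l m * (φ l - φ m) := by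
      rw [← Finset.sum_neg_distrib]
      exact Finset.sum_congr rfl fun m _ => by simp only [Pi.neg_apply]; ring
    rw [e, hl l h]
    simp
  funext k
  have h4 := h1 k
  have h5 := h2 k
  simp only [Pi.neg_apply] at h5
  rw [h3] at h4 h5
  simp only [Pi.zero_apply]
  linarith

/-- FL-5 potentials: unit current from `i` to `j`, with the maximum principle. -/
theorem potentials (F : Fin 4 → Fin 4 → ℝ) (hpos : ∀ i j, i ≠ j → 0 < F i j)
    (hbal : ∀ i, ∑ j, F i j = ∑ j, F j i) :
    ∃ N : Fin 4 → Fin 4 → ℝ, (∀ k, N k 3 = 0) ∧ (∀ k, N 3 k = 0) ∧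
      (∀ i j l, ∑ m, F l m * ((N l i - N l j) - (N m i - N m j))
        = (if l = i then 1 else 0) - (if l = j then 1 else 0)) ∧
      (∀ i j k, N j i - N j j ≤ N k i - N k j ∧ N k i - N k j ≤ N i i - N i j) := by
  have hinj := potMap_injective F hpos
  have hsurj : Function.Surjective (potMap F) := LinearMap.injective_iff_surjective.1 hinj
  choose φ hφ using fun i : Fin 4 =>
    hsurj (fun l => if l = 3 then 0 else if l = i then 1 else 0)
  have h3 : ∀ i, φ i 3 = 0 := by
    intro i
    have := congrFun (hφ i) 3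
    simpa [potMap] using this
  have hl : ∀ i l, l ≠ 3 → ∑ m, F l m * (φ i l - φ i m) = if l = i then 1 else 0 := by
    intro i l hl
    have := congrFun (hφ i) l
    simpa [potMap, hl] using this
  have hφ3 : φ 3 = 0 := by
    apply hinj
    rw [hφ 3, map_zero]
    funext l
    by_cases h : l = 3 <;> simp [h]
  have hlin : ∀ i j l, ∑ m, F l m * ((φ i l - φ j l) - (φ i m - φ j m))
      = ∑ m, F l m * (φ i l - φ i m) - ∑ m, F l m * (φ j l - φ j m) := by
    intro i j l
    rw [← Finset.sum_sub_distrib]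
    exact Finset.sum_congr rfl fun m _ => by ring
  have hne : ∀ i j l, l ≠ 3 → ∑ m, F l m * ((φ i l - φ j l) - (φ i m - φ j m))
      = (if l = i then 1 else 0) - (if l = j then 1 else 0) := by
    intro i j l h
    rw [hlin, hl i l h, hl j l h]
  have htot : ∀ ψ : Fin 4 → ℝ, ∑ l, ∑ m, F l m * (ψ l - ψ m) = 0 := by
    intro ψ
    have e1 : ∑ l, ∑ m, F l m * (ψ l - ψ m)
        = ∑ l, ∑ m, F l m * ψ l - ∑ l, ∑ m, F l m * ψ m := by
      rw [← Finset.sum_sub_distrib]
      refine Finset.sum_congr rfl fun l _ => ?_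
      rw [← Finset.sum_sub_distrib]
      exact Finset.sum_congr rfl fun m _ => by ring
    rw [e1, Finset.sum_comm (f := fun l m => F l m * ψ m), ← Finset.sum_sub_distrib]
    refine Finset.sum_eq_zero fun l _ => ?_
    rw [← Finset.sum_mul, ← Finset.sum_mul, hbal l, sub_self]
  have hall : ∀ i j l, ∑ m, F l m * ((φ i l - φ j l) - (φ i m - φ j m))
      = (if l = i then 1 else 0) - (if l = j then 1 else 0) := by
    intro i j l
    by_cases h : l = 3
    · subst h
      have h5 := htot (fun k => φ i k - φ j k)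
      rw [Fin.sum_univ_four] at h5
      rw [hne i j 0 (by decide), hne i j 1 (by decide), hne i j 2 (by decide)] at h5
      have h6 : ∀ i : Fin 4, (if (0 : Fin 4) = i then (1 : ℝ) else 0)
          + (if (1 : Fin 4) = i then 1 else 0) + (if (2 : Fin 4) = i then 1 else 0)
          + (if (3 : Fin 4) = i then 1 else 0) = 1 := fun i =>
        (Fin.sum_univ_four (fun l => if l = i then (1 : ℝ) else 0)).symm.trans (by simp)
      have h7 := h6 i
      have h8 := h6 j
      linarith
    · exact hne i j l h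
  refine ⟨fun k i => φ i k, fun k => by simp [hφ3], fun k => h3 k, hall, ?_⟩
  intro i j k
  constructor
  · have h7 := pot_max F hpos (fun k => φ j k - φ i k) j (fun l hlj => by
      have := hall j i l
      simp only [this, if_neg hlj]
      split_ifs <;> norm_num) k
    simp only at h7 ⊢
    linarith
  · have h7 := pot_max F hpos (fun k => φ i k - φ j k) i (fun l hli => by
      have := hall i j l
      simp only [this, if_neg hli]
      split_ifs <;> norm_num) k
    exact h7

end Pool.Agent.Helper84.FL
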