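import Pool.Agent.Helper84.FL.Main
import Pool.Agent.Helper84.FL.Pot

namespace Pool.Agent.Helper84.FL

/-- the configuration of a 3 by 3 matrix -/
noncomputable def cfgOf (n00 n01 n02 n10 n11 n12 n20 n21 n22 : ℝ) : Cfg :=
  ⟨n00 + n11 - n01 - n10, n11 + n22 - n12 - n21, n22, n00, n00 + n22 - n02 - n20, n11,
   (n21 - n12) / 2, (n02 - n20) / 2, (n10 - n01) / 2⟩

theorem abs_le_of_two {y q : ℝ} (h1 : 0 < q + y) (h2 : 0 < q - y) : |y| ≤ q :=
  abs_le.2 ⟨by linarith, by linarith⟩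

theorem net_core (n00 n01 n02 n10 n11 n12 n20 n21 n22 : ℝ)
    (f01 f02 f03 f10 f12 f13 f20 f21 f23 f30 f31 f32 : ℝ)
    (p01 : 0 < f01) (p02 : 0 < f02) (p03 : 0 < f03) (p10 : 0 < f10) (p12 : 0 < f12)
    (p13 : 0 < f13) (p20 : 0 < f20) (p21 : 0 < f21) (p23 : 0 < f23) (p30 : 0 < f30)
    (p31 : 0 < f31) (p32 : 0 < f32)
    (b0 : f01 + f02 + f03 = f10 + f20 + f30) (b1 : f10 + f12 + f13 = f01 + f21 + f31)
    (b2 : f20 + f21 + f23 = f02 + f12 + f32)
    (e00 : (f01 + f02 + f03) * n00 - f01 * n10 - f02 * n20 = 1)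
    (e01 : (f01 + f02 + f03) * n01 - f01 * n11 - f02 * n21 = 0)
    (e02 : (f01 + f02 + f03) * n02 - f01 * n12 - f02 * n22 = 0)
    (e10 : -f10 * n00 + (f10 + f12 + f13) * n10 - f12 * n20 = 0)
    (e11 : -f10 * n01 + (f10 + f12 + f13) * n11 - f12 * n21 = 1)
    (e12 : -f10 * n02 + (f10 + f12 + f13) * n12 - f12 * n22 = 0)
    (e20 : -f20 * n00 - f21 * n10 + (f20 + f21 + f23) * n20 = 0)
    (e21 : -f20 * n01 - f21 * n11 + (f20 + f21 + f23) * n21 = 0)
    (e22 : -f20 * n02 - f21 * n12 + (f20 + f21 + f23) * n22 = 1)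
    (h1 : 1 ≤ n00 + n11 - n01 - n10) (h2 : 1 ≤ n11 + n22 - n12 - n21) (h3 : 1 ≤ n22)
    (h4 : 1 ≤ n00) (hX : 1 ≤ n00 + n22 - n02 - n20) (hZ : 1 ≤ n11)
    (t12 : n00 + n22 - n02 - n20 ≤ (n00 + n11 - n01 - n10) + (n11 + n22 - n12 - n21))
    (t34 : n00 + n22 - n02 - n20 ≤ n22 + n00)
    (t23 : n11 ≤ (n11 + n22 - n12 - n21) + n22)
    (t41 : n11 ≤ n00 + (n00 + n11 - n01 - n10)) :
    f01 + f02 + f03 + f12 + f13 + f23 ≤ 2 + Real.sqrt 2 := by
  set M : Matrix (Fin 3) (Fin 3) ℝ := !![f01 + f02 + f03, -f01, -f02; -f10, f10 + f12 + f13, -f12;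
    -f20, -f21, f20 + f21 + f23] with hMdef
  set N : Matrix (Fin 3) (Fin 3) ℝ := !![n00, n01, n02; n10, n11, n12; n20, n21, n22] with hNdef
  have hMN : M * N = 1 := by
    ext i j
    fin_cases i <;> fin_cases j <;>
      simp [hMdef, hNdef, Matrix.mul_apply, Fin.sum_univ_three] <;> linarith
  have hNM : N * M = 1 := mul_eq_one_comm.1 hMN
  have hg : ∀ i j, (N * M) i j = (1 : Matrix (Fin 3) (Fin 3) ℝ) i j := by
    intro i j; rw [hNM]
  have g00 := hg 0 0
  have g01 := hg 0 1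
  have g02 := hg 0 2
  have g10 := hg 1 0
  have g11 := hg 1 1
  have g12 := hg 1 2
  have g20 := hg 2 0
  have g21 := hg 2 1
  have g22 := hg 2 2
  simp [hMdef, hNdef, Matrix.mul_apply, Fin.sum_univ_three] at g00 g01 g02 g10 g11 g12 g20 g21 g22
  obtain ⟨D, hD⟩ : ∃ D : ℝ, D = n00 * (n11 * n22 - n12 * n21) - n01 * (n10 * n22 - n12 * n20)
    + n02 * (n10 * n21 - n11 * n20) := ⟨_, rfl⟩
  have hdetN : N.det = D := by
    rw [hD, Matrix.det_fin_three]
    simp [hNdef]
    ring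
  have hdetM : 0 < M.det := by
    have h : M.det = f03 * (f13 * f23 + f13 * f20 + f13 * f21 + f12 * f23
        + f12 * f20 + f10 * f23 + f10 * f20 + f10 * f21)
        + (f01 * (f13 * f20 + f13 * f21 + f13 * f23 + f12 * f23)
        + f02 * (f10 * f23 + f13 * f21 + f12 * f23 + f13 * f23)) := by
      rw [Matrix.det_fin_three]
      simp [hMdef]
      ring
    rw [h]
    positivity
  have hDdet : M.det * D = 1 := by
    rw [← hdetN, ← Matrix.det_mul, hMN, Matrix.det_one]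
  have hDpos : 0 < D := by
    by_contra hcon
    push Not at hcon
    have : M.det * D ≤ 0 := mul_nonpos_of_nonneg_of_nonpos hdetM.le hcon
    linarith
  -- cofactors
  have c00 : n11 * n22 - n12 * n21 = D * (f01 + f02 + f03) := by
    rw [hD]
    linear_combination (-(n11 * n22 - n12 * n21)) * e00 + (n10 * n22 - n12 * n20) * e01
      - (n10 * n21 - n11 * n20) * e02
  have c01 : -(n10 * n22 - n12 * n20) = D * (-f10) := by
    rw [hD]
    linear_combination (-(n11 * n22 - n12 * n21)) * e10 + (n10 * n22 - n12 * n20) * e11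
      - (n10 * n21 - n11 * n20) * e12
  have c02 : n10 * n21 - n11 * n20 = D * (-f20) := by
    rw [hD]
    linear_combination (-(n11 * n22 - n12 * n21)) * e20 + (n10 * n22 - n12 * n20) * e21
      - (n10 * n21 - n11 * n20) * e22
  have c10 : -(n01 * n22 - n02 * n21) = D * (-f01) := by
    rw [hD]
    linear_combination (n01 * n22 - n02 * n21) * e00 - (n00 * n22 - n02 * n20) * e01
      + (n00 * n21 - n01 * n20) * e02
  have c11 : n00 * n22 - n02 * n20 = D * (f10 + f12 + f13) := by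
    rw [hD]
    linear_combination (n01 * n22 - n02 * n21) * e10 - (n00 * n22 - n02 * n20) * e11
      + (n00 * n21 - n01 * n20) * e12
  have c12 : -(n00 * n21 - n01 * n20) = D * (-f21) := by
    rw [hD]
    linear_combination (n01 * n22 - n02 * n21) * e20 - (n00 * n22 - n02 * n20) * e21
      + (n00 * n21 - n01 * n20) * e22
  have c20 : n01 * n12 - n02 * n11 = D * (-f02) := by
    rw [hD]
    linear_combination (-(n01 * n12 - n02 * n11)) * e00 + (n00 * n12 - n02 * n10) * e01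
      - (n00 * n11 - n01 * n10) * e02
  have c21 : -(n00 * n12 - n02 * n10) = D * (-f12) := by
    rw [hD]
    linear_combination (-(n01 * n12 - n02 * n11)) * e10 + (n00 * n12 - n02 * n10) * e11
      - (n00 * n11 - n01 * n10) * e12
  have c22 : n00 * n11 - n01 * n10 = D * (f20 + f21 + f23) := by
    rw [hD]
    linear_combination (-(n01 * n12 - n02 * n11)) * e20 + (n00 * n12 - n02 * n10) * e21
      - (n00 * n11 - n01 * n10) * e22
  set c := cfgOf n00 n01 n02 n10 n11 n12 n20 n21 n22 with hc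
  have hdt : c.dt + c.tau = D := by
    rw [hD]
    simp only [hc, cfgOf, Cfg.dt, Cfg.tau, Cfg.e1, Cfg.e2, Cfg.e3, Cfg.g12, Cfg.g13, Cfg.g23]
    ring
  have q12p : c.q12 + c.y1 = D * f01 := by
    simp only [hc, cfgOf, Cfg.q12, Cfg.y1, Cfg.a12, Cfg.e3, Cfg.g12, Cfg.g13, Cfg.g23]
    linear_combination -c10
  have q12m : c.q12 - c.y1 = D * f10 := by
    simp only [hc, cfgOf, Cfg.q12, Cfg.y1, Cfg.a12, Cfg.e3, Cfg.g12, Cfg.g13, Cfg.g23]
    linear_combination -c01
  have q13p : c.q13 + c.y13 = D * f02 := by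
    simp only [hc, cfgOf, Cfg.q13, Cfg.y13, Cfg.a13, Cfg.e2, Cfg.g12, Cfg.g13, Cfg.g23]
    linear_combination -c20
  have q13m : c.q13 - c.y13 = D * f20 := by
    simp only [hc, cfgOf, Cfg.q13, Cfg.y13, Cfg.a13, Cfg.e2, Cfg.g12, Cfg.g13, Cfg.g23]
    linear_combination -c02
  have q23p : c.q23 + c.y2 = D * f12 := by
    simp only [hc, cfgOf, Cfg.q23, Cfg.y2, Cfg.a23, Cfg.e1, Cfg.g12, Cfg.g13, Cfg.g23]
    linear_combination -c21
  have q23m : c.q23 - c.y2 = D * f21 := by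
    simp only [hc, cfgOf, Cfg.q23, Cfg.y2, Cfg.a23, Cfg.e1, Cfg.g12, Cfg.g13, Cfg.g23]
    linear_combination -c12
  have q14m : c.q14 - c.y4 = D * f03 := by
    simp only [hc, cfgOf, Cfg.q14, Cfg.y4, Cfg.a11, Cfg.a12, Cfg.a13, Cfg.e2, Cfg.e3, Cfg.k4,
      Cfg.g12, Cfg.g13, Cfg.g23]
    linear_combination c00 + c10 + c20
  have q14p : c.q14 + c.y4 = D * f30 := by
    simp only [hc, cfgOf, Cfg.q14, Cfg.y4, Cfg.a11, Cfg.a12, Cfg.a13, Cfg.e2, Cfg.e3, Cfg.k4,
      Cfg.g12, Cfg.g13, Cfg.g23]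
    linear_combination c00 + c01 + c02 + D * b0
  have q24p : c.q24 + c.y24 = D * f13 := by
    simp only [hc, cfgOf, Cfg.q24, Cfg.y24, Cfg.a12, Cfg.a22, Cfg.a23, Cfg.e1, Cfg.e3, Cfg.k4,
      Cfg.g12, Cfg.g13, Cfg.g23]
    linear_combination c01 + c11 + c21
  have q24m : c.q24 - c.y24 = D * f31 := by
    simp only [hc, cfgOf, Cfg.q24, Cfg.y24, Cfg.a12, Cfg.a22, Cfg.a23, Cfg.e1, Cfg.e3, Cfg.k4,
      Cfg.g12, Cfg.g13, Cfg.g23]
    linear_combination c10 + c11 + c12 + D * b1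
  have q34p : c.q34 + c.y3 = D * f23 := by
    simp only [hc, cfgOf, Cfg.q34, Cfg.y3, Cfg.a13, Cfg.a23, Cfg.a33, Cfg.e1, Cfg.e2, Cfg.k4,
      Cfg.g12, Cfg.g13, Cfg.g23]
    linear_combination c02 + c12 + c22
  have q34m : c.q34 - c.y3 = D * f32 := by
    simp only [hc, cfgOf, Cfg.q34, Cfg.y3, Cfg.a13, Cfg.a23, Cfg.a33, Cfg.e1, Cfg.e2, Cfg.k4,
      Cfg.g12, Cfg.g13, Cfg.g23]
    linear_combination c20 + c21 + c22 + D * b2
  have hR : c.R = D * (f01 + f02 + f03 + f12 + f13 + f23) := by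
    have h : c.R = (c.q12 + c.y1) + (c.q13 + c.y13) + (c.q14 - c.y4) + (c.q23 + c.y2)
        + (c.q24 + c.y24) + (c.q34 + c.y3) := by
      simp only [Cfg.R, Cfg.qs, Cfg.y1, Cfg.y2, Cfg.y3, Cfg.y4, Cfg.y13, Cfg.y24]
      ring
    rw [h, q12p, q13p, q14m, q23p, q24p, q34p]
    ring
  -- the determinant of the symmetric part
  have hsym : N + N.transpose = N * (M.transpose + M) * N.transpose := by
    have h1 : N * M.transpose * N.transpose = N := by
      rw [Matrix.mul_assoc, ← Matrix.transpose_mul, hNM, Matrix.transpose_one, Matrix.mul_one]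
    rw [Matrix.mul_add, Matrix.add_mul, h1, hNM, Matrix.one_mul]
  have hdtpos : 0 < c.dt := by
    have h1 : (N + N.transpose).det = D * (M.transpose + M).det * D := by
      rw [hsym, Matrix.det_mul, Matrix.det_mul, Matrix.det_transpose, hdetN]
    have h2 : (N + N.transpose).det = 8 * c.dt := by
      rw [Matrix.det_fin_three]
      simp only [hc, cfgOf, Cfg.dt, Cfg.g12, Cfg.g13, Cfg.g23]
      simp [hNdef, Matrix.transpose_apply]
      ring
    have h3 : 0 < (M.transpose + M).det := by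
      obtain ⟨s01, hs01⟩ : ∃ s, s = f01 + f10 := ⟨_, rfl⟩
      obtain ⟨s02, hs02⟩ : ∃ s, s = f02 + f20 := ⟨_, rfl⟩
      obtain ⟨s03, hs03⟩ : ∃ s, s = f03 + f30 := ⟨_, rfl⟩
      obtain ⟨s12, hs12⟩ : ∃ s, s = f12 + f21 := ⟨_, rfl⟩
      obtain ⟨s13, hs13⟩ : ∃ s, s = f13 + f31 := ⟨_, rfl⟩
      obtain ⟨s23, hs23⟩ : ∃ s, s = f23 + f32 := ⟨_, rfl⟩
      have hM : M.transpose + M = !![s01 + s02 + s03, -s01, -s02; -s01, s01 + s12 + s13, -s12;
          -s02, -s12, s02 + s12 + s23] := by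
        ext i j
        fin_cases i <;> fin_cases j <;> simp [hMdef, Matrix.transpose_apply] <;> linarith
      have h : (M.transpose + M).det = s03 * (s13 * s23 + s13 * s02 + s13 * s12 + s12 * s23
          + s12 * s02 + s01 * s23 + s01 * s02 + s01 * s12)
          + (s01 * (s13 * s02 + s13 * s12 + s13 * s23 + s12 * s23)
          + s02 * (s01 * s23 + s13 * s12 + s12 * s23 + s13 * s23)) := by
        rw [hM, Matrix.det_fin_three]
        simp
        ring
      have i01 : 0 < s01 := by rw [hs01]; positivity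
      have i02 : 0 < s02 := by rw [hs02]; positivity
      have i03 : 0 < s03 := by rw [hs03]; positivity
      have i12 : 0 < s12 := by rw [hs12]; positivity
      have i13 : 0 < s13 := by rw [hs13]; positivity
      have i23 : 0 < s23 := by rw [hs23]; positivity
      rw [h]
      positivity
    have h4 : 0 < D * (M.transpose + M).det * D := by positivity
    rw [← h1, h2] at h4
    linarith
  have hpsd : ∀ u v w : ℝ, 0 ≤ c.r4 * u ^ 2 + c.Z * v ^ 2 + c.r3 * w ^ 2 + 2 * c.g12 * u * v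
    + 2 * c.g13 * u * w + 2 * c.g23 * v * w := by
    intro u v w
    obtain ⟨z0, hz0⟩ : ∃ z, z = u * n00 + v * n10 + w * n20 := ⟨_, rfl⟩
    obtain ⟨z1, hz1⟩ : ∃ z, z = u * n01 + v * n11 + w * n21 := ⟨_, rfl⟩
    obtain ⟨z2, hz2⟩ : ∃ z, z = u * n02 + v * n12 + w * n22 := ⟨_, rfl⟩
    have hu : u = (f01 + f02 + f03) * z0 - f10 * z1 - f20 * z2 := by
      rw [hz0, hz1, hz2]
      linear_combination (-u) * g00 - v * g10 - w * g20
    have hv : v = -f01 * z0 + (f10 + f12 + f13) * z1 - f21 * z2 := by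
      rw [hz0, hz1, hz2]
      linear_combination (-u) * g01 - v * g11 - w * g21
    have hw : w = -f02 * z0 - f12 * z1 + (f20 + f21 + f23) * z2 := by
      rw [hz0, hz1, hz2]
      linear_combination (-u) * g02 - v * g12 - w * g22
    have h1 : c.r4 * u ^ 2 + c.Z * v ^ 2 + c.r3 * w ^ 2 + 2 * c.g12 * u * v
        + 2 * c.g13 * u * w + 2 * c.g23 * v * w = z0 * u + z1 * v + z2 * w := by
      simp only [hc, cfgOf, Cfg.g12, Cfg.g13, Cfg.g23]
      rw [hz0, hz1, hz2]
      ring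
    have h2 : z0 * u + z1 * v + z2 * w = ((f01 + f10) * (z0 - z1) ^ 2
        + (f02 + f20) * (z0 - z2) ^ 2 + (f12 + f21) * (z1 - z2) ^ 2 + (f03 + f30) * z0 ^ 2
        + (f13 + f31) * z1 ^ 2 + (f23 + f32) * z2 ^ 2) / 2 := by
      rw [hu, hv, hw]
      linear_combination (1 / 2) * z0 ^ 2 * b0 + (1 / 2) * z1 ^ 2 * b1 + (1 / 2) * z2 ^ 2 * b2
    rw [h1, h2]
    positivity
  have hgood : c.Good := by
    refine ⟨?_, ?_, ?_, ?_, ?_, ?_, ?_, ?_, ?_, ?_, ?_, ?_, ?_, ?_, ?_, ?_, hdtpos, hpsd⟩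
    · exact h1
    · exact h2
    · exact h3
    · exact h4
    · exact hX
    · exact hZ
    · exact t12
    · exact t34
    · exact t23
    · exact t41
    · exact abs_le_of_two (by rw [q12p]; positivity) (by rw [q12m]; positivity)
    · exact abs_le_of_two (by rw [q23p]; positivity) (by rw [q23m]; positivity)
    · exact abs_le_of_two (by rw [q34p]; positivity) (by rw [q34m]; positivity)
    · exact abs_le_of_two (by rw [q14p]; positivity) (by rw [q14m]; positivity)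
    · exact abs_le_of_two (by rw [q13p]; positivity) (by rw [q13m]; positivity)
    · exact abs_le_of_two (by rw [q24p]; positivity) (by rw [q24m]; positivity)
  have hmain := main_ineq c hgood
  rw [hR, hdt, mul_comm (2 + Real.sqrt 2) D] at hmain
  exact le_of_mul_le_mul_left hmain hDpos

/-- FL-6: the inequality for flows. -/
theorem flow_main (F : Fin 4 → Fin 4 → ℝ) (hpos : ∀ i j, i ≠ j → 0 < F i j)
    (hbal : ∀ i, ∑ j, F i j = ∑ j, F j i) :
    ∃ i j : Fin 4, i ≠ j ∧ ∃ φ : Fin 4 → ℝ,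
      (∀ l, ∑ m, F l m * (φ l - φ m) = (if l = i then 1 else 0) - (if l = j then 1 else 0)) ∧
      (∀ k, φ j ≤ φ k ∧ φ k ≤ φ i) ∧ fwd F * (φ i - φ j) ≤ 2 + Real.sqrt 2 := by
  obtain ⟨N, hN3, h3N, hN, hmax⟩ := potentials F hpos hbal
  obtain ⟨r, hr⟩ : ∃ r : Fin 4 × Fin 4 → ℝ, ∀ p, r p = N p.1 p.1 - N p.1 p.2 - N p.2 p.1
    + N p.2 p.2 := ⟨_, fun _ => rfl⟩
  have hrpos : ∀ i j, i ≠ j → 0 < r (i, j) := by
    intro i j hij
    rw [hr]
    have h1 := hmax i j
    by_contra hcon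
    push Not at hcon
    simp only at hcon
    have h2 : ∀ k, N k i - N k j = N i i - N i j := by
      intro k
      have h3 := h1 k
      have h4 := h1 i
      exact le_antisymm h3.2 (by linarith [h3.1])
    have h5 := hN i j i
    rw [Finset.sum_eq_zero (fun m _ => by rw [h2 m]; ring), if_pos rfl, if_neg hij] at h5
    norm_num at h5
  obtain ⟨⟨i, j⟩, hij, hmin⟩ := Finset.exists_min_image
    (Finset.univ.filter (fun p : Fin 4 × Fin 4 => p.1 ≠ p.2)) r ⟨(0, 1), by simp⟩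
  have hij' : i ≠ j := (Finset.mem_filter.1 hij).2
  have hmin' : ∀ a b : Fin 4, a ≠ b → r (i, j) ≤ r (a, b) := fun a b hab =>
    hmin (a, b) (Finset.mem_filter.2 ⟨Finset.mem_univ _, hab⟩)
  refine ⟨i, j, hij', fun k => N k i - N k j, fun l => hN i j l, fun k => hmax i j k, ?_⟩
  obtain ⟨m, hm⟩ : ∃ m, m = r (i, j) := ⟨_, rfl⟩
  have hmpos : 0 < m := by rw [hm]; exact hrpos i j hij'
  obtain ⟨w, hw⟩ : ∃ w, w = m⁻¹ := ⟨_, rfl⟩
  have hwpos : 0 < w := by rw [hw]; exact inv_pos.2 hmpos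
  have hmw : m * w = 1 := by rw [hw]; exact mul_inv_cancel₀ hmpos.ne'
  have hge : ∀ a b : Fin 4, a ≠ b → 1 ≤ (N a a - N a b - N b a + N b b) * w := by
    intro a b hab
    have h1 : m ≤ N a a - N a b - N b a + N b b := by
      have := hmin' a b hab
      rw [← hm, hr] at this
      exact this
    calc (1 : ℝ) = m * w := hmw.symm
      _ ≤ _ := mul_le_mul_of_nonneg_right h1 hwpos.le
  have htri : ∀ a b k : Fin 4, 0 ≤ ((N a a - N a k - N k a + N k k)
      + (N k k - N k b - N b k + N b b) - (N a a - N a b - N b a + N b b)) * w := by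
    intro a b k
    have h1 := (hmax k b a).2
    have h2 := (hmax k a b).2
    exact mul_nonneg (by linarith) hwpos.le
  have E00 := hN 0 3 0
  have E01 := hN 1 3 0
  have E02 := hN 2 3 0
  have E10 := hN 0 3 1
  have E11 := hN 1 3 1
  have E12 := hN 2 3 1
  have E20 := hN 0 3 2
  have E21 := hN 1 3 2
  have E22 := hN 2 3 2
  have B0 := hbal 0
  have B1 := hbal 1
  have B2 := hbal 2
  simp only [Fin.sum_univ_four, hN3, h3N] at E00 E01 E02 E10 E11 E12 E20 E21 E22 B0 B1 B2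
  simp at E00 E01 E02 E10 E11 E12 E20 E21 E22
  have P : ∀ a b : Fin 4, a ≠ b → 0 < m * F a b := fun a b hab => mul_pos hmpos (hpos a b hab)
  have key := net_core (N 0 0 * w) (N 0 1 * w) (N 0 2 * w) (N 1 0 * w) (N 1 1 * w) (N 1 2 * w)
    (N 2 0 * w) (N 2 1 * w) (N 2 2 * w)
    (m * F 0 1) (m * F 0 2) (m * F 0 3) (m * F 1 0) (m * F 1 2) (m * F 1 3)
    (m * F 2 0) (m * F 2 1) (m * F 2 3) (m * F 3 0) (m * F 3 1) (m * F 3 2)
    (P 0 1 (by decide)) (P 0 2 (by decide)) (P 0 3 (by decide)) (P 1 0 (by decide))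
    (P 1 2 (by decide)) (P 1 3 (by decide)) (P 2 0 (by decide)) (P 2 1 (by decide))
    (P 2 3 (by decide)) (P 3 0 (by decide)) (P 3 1 (by decide)) (P 3 2 (by decide))
    (by linear_combination m * B0) (by linear_combination m * B1) (by linear_combination m * B2)
    (by linear_combination E00 + ((F 0 1 + F 0 2 + F 0 3) * N 0 0 - F 0 1 * N 1 0
      - F 0 2 * N 2 0) * hmw)
    (by linear_combination E01 + ((F 0 1 + F 0 2 + F 0 3) * N 0 1 - F 0 1 * N 1 1
      - F 0 2 * N 2 1) * hmw)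
    (by linear_combination E02 + ((F 0 1 + F 0 2 + F 0 3) * N 0 2 - F 0 1 * N 1 2
      - F 0 2 * N 2 2) * hmw)
    (by linear_combination E10 + ((F 1 0 + F 1 2 + F 1 3) * N 1 0 - F 1 0 * N 0 0
      - F 1 2 * N 2 0) * hmw)
    (by linear_combination E11 + ((F 1 0 + F 1 2 + F 1 3) * N 1 1 - F 1 0 * N 0 1
      - F 1 2 * N 2 1) * hmw)
    (by linear_combination E12 + ((F 1 0 + F 1 2 + F 1 3) * N 1 2 - F 1 0 * N 0 2
      - F 1 2 * N 2 2) * hmw)
    (by linear_combination E20 + ((F 2 0 + F 2 1 + F 2 3) * N 2 0 - F 2 0 * N 0 0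
      - F 2 1 * N 1 0) * hmw)
    (by linear_combination E21 + ((F 2 0 + F 2 1 + F 2 3) * N 2 1 - F 2 0 * N 0 1
      - F 2 1 * N 1 1) * hmw)
    (by linear_combination E22 + ((F 2 0 + F 2 1 + F 2 3) * N 2 2 - F 2 0 * N 0 2
      - F 2 1 * N 1 2) * hmw)
    (by linarith [hge 0 1 (by decide)]) (by linarith [hge 1 2 (by decide)])
    (by have := hge 2 3 (by decide); simp only [hN3, h3N] at this; linarith)
    (by have := hge 0 3 (by decide); simp only [hN3, h3N] at this; linarith)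
    (by linarith [hge 0 2 (by decide)])
    (by have := hge 1 3 (by decide); simp only [hN3, h3N] at this; linarith)
    (by linarith [htri 0 2 1])
    (by have := htri 0 2 3; simp only [hN3, h3N] at this; linarith)
    (by have := htri 1 3 2; simp only [hN3, h3N] at this; linarith)
    (by have := htri 1 3 0; simp only [hN3, h3N] at this; linarith)
  have hgoal : fwd F * (N i i - N i j - (N j i - N j j)) = m * F 0 1 + m * F 0 2 + m * F 0 3
      + m * F 1 2 + m * F 1 3 + m * F 2 3 := by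
    have h1 : N i i - N i j - (N j i - N j j) = m := by
      rw [hm, hr]
      ring
    rw [h1]
    unfold fwd
    ring
  show fwd F * (N i i - N i j - (N j i - N j j)) ≤ 2 + Real.sqrt 2
  rw [hgoal]
  exact key

end Pool.Agent.Helper84.FL
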