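import Pool.Agent.Helper33.FL.Conc

namespace Pool.Agent.Helper84.FL

/-- FL-2 -/
theorem three_neg (r1 r2 r4 S T H : ℝ)
    (h1 : 1 ≤ r1) (h1' : r1 ≤ 3 / 2) (h2 : 1 ≤ r2) (h2' : r2 ≤ 3 / 2)
    (h4 : 1 ≤ r4) (h4' : r4 ≤ 3 / 2)
    (hS : 0 ≤ S) (hS' : S ≤ r1 + r2 - 1) (hT : 0 ≤ T) (hT' : T ≤ r1 + r4 - 1)
    (hH : H ≤ 0)
    (hc : 321 ^ 2 * H ^ 2 ≤ 71 ^ 2 * ((r1 * r2 - S ^ 2 / 4) * (r1 * r4 - T ^ 2 / 4))) :
    ((3 - r1 - r4) * S + (3 - r1 - r2) * T - 2 * (3 / 2 - r1) * r1) ^ 2 / 16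
      + ((3 - r1 - r2) ^ 2 * (r1 * r4 - T ^ 2 / 4) + (3 - r1 - r4) ^ 2 * (r1 * r2 - S ^ 2 / 4)) / 4
      - (3 - r1 - r2) * (3 - r1 - r4) * H / 2
      ≤ (r1 * r2 - S ^ 2 / 4) * (r1 * r4 - T ^ 2 / 4) - H ^ 2 := by
  have f1 := Helper33.FL.F1 h1 h1' h2 h2' h4 h4' hS hS' hT hT'
  have f2 := Helper33.FL.F2 h1 h1' h2 h2' h4 h4' hS hS' hT hT'
  have g3 := Helper33.FL.G_ge h1 h1' h2 h2' hS hS'
  have g4 := Helper33.FL.G_ge h1 h1' h4 h4' hT hT'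
  unfold Helper33.FL.FF at f1 f2
  obtain ⟨V, hV⟩ : ∃ V, V = ((3 - r1 - r4) * S + (3 - r1 - r2) * T - 2 * (3 / 2 - r1) * r1) ^ 2 / 16 :=
    ⟨_, rfl⟩
  have hV0 : 0 ≤ V := by rw [hV]; positivity
  rw [← hV] at f1 f2 ⊢
  generalize r1 * r2 - S ^ 2 / 4 = G3 at *
  generalize r1 * r4 - T ^ 2 / 4 = G4 at *
  generalize 3 - r1 - r2 = A at *
  generalize 3 - r1 - r4 = B at *
  obtain ⟨s3, hs3⟩ : ∃ s3, s3 = Real.sqrt G3 := ⟨_, rfl⟩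
  obtain ⟨s4, hs4⟩ : ∃ s4, s4 = Real.sqrt G4 := ⟨_, rfl⟩
  have e3 : G3 = s3 ^ 2 := by rw [hs3, Real.sq_sqrt (by linarith)]
  have e4 : G4 = s4 ^ 2 := by rw [hs4, Real.sq_sqrt (by linarith)]
  have p3 : 0 < s3 := by rw [hs3]; exact Real.sqrt_pos.2 (by linarith)
  have p4 : 0 < s4 := by rw [hs4]; exact Real.sqrt_pos.2 (by linarith)
  obtain ⟨w, hw⟩ : ∃ w, w = s3 * s4 := ⟨_, rfl⟩
  have pw : 0 < w := by rw [hw]; positivity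
  have ew : G3 * G4 = w ^ 2 := by rw [hw, e3, e4]; ring
  obtain ⟨c, hcw⟩ : ∃ c, c = -H / w := ⟨_, rfl⟩
  have hHc : H = -(c * w) := by
    rw [hcw]
    field_simp
  have c0 : 0 ≤ c := by
    rw [hcw]
    exact div_nonneg (by linarith) pw.le
  have c1 : 321 * c ≤ 71 := by
    rw [ew, hHc] at hc
    have h5 : (321 * c * w) ^ 2 ≤ (71 * w) ^ 2 := by nlinarith
    have h6 := abs_le_of_sq_le_sq h5 (by positivity)
    have h7 : 321 * c * w ≤ 71 * w := (abs_le.1 h6).2 |> fun h => h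
    exact le_of_mul_le_mul_right h7 pw
  obtain ⟨K, hK⟩ : ∃ K, K = (A ^ 2 * G4 + B ^ 2 * G3) / 4 := ⟨_, rfl⟩
  have hABK : A * B * w / 2 ≤ K := by
    have : 0 ≤ (A * s4 - B * s3) ^ 2 := sq_nonneg _
    rw [hK, e3, e4, hw]
    nlinarith
  rw [← hK] at f1 f2 ⊢
  rw [ew] at f1 f2 ⊢
  have h5 : -(A * B * H / 2) ≤ c * K := by
    rw [hHc]
    nlinarith [mul_le_mul_of_nonneg_left hABK c0]
  -- interpolation
  have h6 : V ≤ (1 + c) * (1 - 321 / 392 * c) * V := by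
    have : 0 ≤ c * (71 - 321 * c) * V := by
      have h7 : 0 ≤ 71 - 321 * c := by linarith
      positivity
    nlinarith
  have h7 : (1 - 321 / 392 * c) * V + K ≤ (1 - c) * w ^ 2 := by
    have a1 : 0 ≤ (1 - 321 / 71 * c) * (1 * w ^ 2 - K - 1 * V + 0) := by
      apply mul_nonneg
      · linarith
      · linarith
    have a2 : 0 ≤ (321 / 71 * c) * (250 / 321 * w ^ 2 - K - 321 / 392 * V + 0) := by
      apply mul_nonneg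
      · linarith
      · linarith
    nlinarith
  have h8 : (1 + c) * ((1 - 321 / 392 * c) * V + K) ≤ (1 + c) * ((1 - c) * w ^ 2) :=
    mul_le_mul_of_nonneg_left h7 (by linarith)
  have h9 : H ^ 2 = c ^ 2 * w ^ 2 := by rw [hHc]; ring
  nlinarith

end Pool.Agent.Helper84.FL
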