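import Pool.Agent.Helper33.FL.Conc

namespace Pool.Agent.Helper84.FL

/-- FL-3 -/
theorem three_pos (r1 r2 r4 S T H : ℝ)
    (h1 : 1 ≤ r1) (h1' : r1 ≤ 3 / 2) (h2 : 1 ≤ r2) (h2' : r2 ≤ 3 / 2)
    (h4 : 1 ≤ r4) (h4' : r4 ≤ 3 / 2)
    (hS : 0 ≤ S) (hS' : S ≤ r1 + r2 - 1) (hT : 0 ≤ T) (hT' : T ≤ r1 + r4 - 1)
    (hH : 0 ≤ H)
    (hc : 466 / 1000 * r1 ≤ (r1 * r2 - S ^ 2 / 4) * (r1 * r4 - T ^ 2 / 4) - H ^ 2) :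
    ((3 - r1 - r4) * S + (3 - r1 - r2) * T - 2 * (3 / 2 - r1) * r1) ^ 2 / 16
      + ((3 - r1 - r2) ^ 2 * (r1 * r4 - T ^ 2 / 4) + (3 - r1 - r4) ^ 2 * (r1 * r2 - S ^ 2 / 4)) / 4
      - (3 - r1 - r2) * (3 - r1 - r4) * H / 2
      ≤ (r1 * r2 - S ^ 2 / 4) * (r1 * r4 - T ^ 2 / 4) - H ^ 2 := by
  have f1 := Helper33.FL.F1 h1 h1' h2 h2' h4 h4' hS hS' hT hT'
  have f3 := Helper33.FL.F3 h1 h1' h2 h2' h4 h4' hS hS' hT hT'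
  have f4 := Helper33.FL.F4 h1 h1' h2 h2' h4 h4' hS hS' hT hT'
  have hA : 0 ≤ 3 - r1 - r2 := by linarith
  have hB : 0 ≤ 3 - r1 - r4 := by linarith
  unfold Helper33.FL.FF at f1 f3 f4
  rcases le_or_gt (r1 / 4) H with hH1 | hH1
  · have h5 : (3 - r1 - r2) * (3 - r1 - r4) * (r1 / 4) ≤ (3 - r1 - r2) * (3 - r1 - r4) * H :=
      mul_le_mul_of_nonneg_left hH1 (mul_nonneg hA hB)
    linarith
  · have h6 := Helper33.FL.conc (fun h => (r1 * r2 - S ^ 2 / 4) * (r1 * r4 - T ^ 2 / 4) - h ^ 2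
      - (((3 - r1 - r4) * S + (3 - r1 - r2) * T - 2 * (3 / 2 - r1) * r1) ^ 2 / 16
      + ((3 - r1 - r2) ^ 2 * (r1 * r4 - T ^ 2 / 4) + (3 - r1 - r4) ^ 2 * (r1 * r2 - S ^ 2 / 4)) / 4
      - (3 - r1 - r2) * (3 - r1 - r4) * h / 2))
      (-1) ((3 - r1 - r2) * (3 - r1 - r4) / 2)
      ((r1 * r2 - S ^ 2 / 4) * (r1 * r4 - T ^ 2 / 4)
      - (((3 - r1 - r4) * S + (3 - r1 - r2) * T - 2 * (3 / 2 - r1) * r1) ^ 2 / 16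
      + ((3 - r1 - r2) ^ 2 * (r1 * r4 - T ^ 2 / 4) + (3 - r1 - r4) ^ 2 * (r1 * r2 - S ^ 2 / 4)) / 4))
      (fun s => by ring) (by norm_num) hH hH1.le (by
        show 0 ≤ _ - (0 : ℝ) ^ 2 - _
        linarith) (by
        show 0 ≤ _ - (r1 / 4) ^ 2 - _
        linarith)
    have h7 : 0 ≤ (r1 * r2 - S ^ 2 / 4) * (r1 * r4 - T ^ 2 / 4) - H ^ 2
      - (((3 - r1 - r4) * S + (3 - r1 - r2) * T - 2 * (3 / 2 - r1) * r1) ^ 2 / 16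
      + ((3 - r1 - r2) ^ 2 * (r1 * r4 - T ^ 2 / 4) + (3 - r1 - r4) ^ 2 * (r1 * r2 - S ^ 2 / 4)) / 4
      - (3 - r1 - r2) * (3 - r1 - r4) * H / 2) := h6
    linarith

end Pool.Agent.Helper84.FL
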