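import Mathlib

namespace Pool.Agent.Helper84.FL

/-- FL-4: the spanning tree polynomial of the complete graph on four vertices. -/
theorem tree_bound (a b c d e f : ℝ) (ha : 0 ≤ a) (hb : 0 ≤ b) (hc : 0 ≤ c) (hd : 0 ≤ d)
    (he : 0 ≤ e) (hf : 0 ≤ f) :
    27 * (a * b * c + a * b * d + a * c * d + b * c * d + e * (a + b) * (c + d)
      + f * (b + c) * (d + a) + e * f * (a + b + c + d)) ≤ 2 * (a + b + c + d + e + f) ^ 3 := by
  have hdet : 4 * (a * b * c + a * b * d + a * c * d + b * c * d + e * (a + b) * (c + d)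
      + f * (b + c) * (d + a) + e * f * (a + b + c + d)) =
      (b + d + e + f) * (a + b + c + d) * (a + c + e + f)
        + 2 * (d - b) * (e - f) * (a - c)
        - (b + d + e + f) * (a - c) ^ 2 - (a + b + c + d) * (e - f) ^ 2
        - (a + c + e + f) * (d - b) ^ 2 := by ring
  have h1 : 2 * (d - b) * (e - f) * (a - c) ≤
      (b + d + e + f) * (a - c) ^ 2 + (a + b + c + d) * (e - f) ^ 2 := by
    have h2 : (b + d + e + f) * (a - c) ^ 2 + (a + b + c + d) * (e - f) ^ 2
        - 2 * (d - b) * (e - f) * (a - c) =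
        b * ((e - f) + (a - c)) ^ 2 + d * ((e - f) - (a - c)) ^ 2 + (e + f) * (a - c) ^ 2
          + (a + c) * (e - f) ^ 2 := by ring
    have h3 : 0 ≤ b * ((e - f) + (a - c)) ^ 2 + d * ((e - f) - (a - c)) ^ 2
        + (e + f) * (a - c) ^ 2 + (a + c) * (e - f) ^ 2 := by positivity
    linarith
  have h4 : 0 ≤ (a + c + e + f) * (d - b) ^ 2 := by positivity
  have h5 : 27 * ((b + d + e + f) * (a + b + c + d) * (a + c + e + f)) ≤
      ((b + d + e + f) + (a + b + c + d) + (a + c + e + f)) ^ 3 := by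
    have hx : 0 ≤ b + d + e + f := by positivity
    have hy : 0 ≤ a + b + c + d := by positivity
    have hz : 0 ≤ a + c + e + f := by positivity
    generalize b + d + e + f = x at hx ⊢
    generalize a + b + c + d = y at hy ⊢
    generalize a + c + e + f = z at hz ⊢
    have h6 : (x + y + z) ^ 3 - 27 * (x * y * z) =
        (x + y + z) / 2 * ((x - y) ^ 2 + (y - z) ^ 2 + (z - x) ^ 2)
          + 3 * (x * (y - z) ^ 2 + y * (z - x) ^ 2 + z * (x - y) ^ 2) := by ring
    have h7 : 0 ≤ (x + y + z) / 2 * ((x - y) ^ 2 + (y - z) ^ 2 + (z - x) ^ 2)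
          + 3 * (x * (y - z) ^ 2 + y * (z - x) ^ 2 + z * (x - y) ^ 2) := by positivity
    linarith
  have h8 : ((b + d + e + f) + (a + b + c + d) + (a + c + e + f)) ^ 3 =
      8 * (a + b + c + d + e + f) ^ 3 := by ring
  linarith

end Pool.Agent.Helper84.FL
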