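import Pool.Agent.Helper84.FL.Ids
import Pool.Agent.Helper84.FL.CaseA
import Pool.Agent.Helper84.FL.ThreeNeg
import Pool.Agent.Helper84.FL.ThreePos
import Pool.Agent.Helper84.FL.TreeBound

/-!
# Steps of the main inequality
-/

namespace Pool.Agent.Helper84.FL
namespace Cfg
variable (c : Cfg)

set_option linter.unusedSimpArgs false

theorem rot_gf (u v w : ℝ) : c.rot.gf u v w = c.gf (-(u + v + w)) u v := by
  simp only [rot, gf, g12, g13, g23, k4]; ring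

theorem Good.gf_nonneg {c : Cfg} (h : c.Good) (u v w : ℝ) : 0 ≤ c.gf u v w := h.psd u v w

theorem Good.rot {c : Cfg} (h : c.Good) : c.rot.Good where
  h1 := h.h2
  h2 := h.h3
  h3 := h.h4
  h4 := h.h1
  hX := h.hZ
  hZ := h.hX
  t12 := h.t23
  t34 := h.t41
  t23 := h.t34
  t41 := h.t12
  f12 := by rw [rot_y1, rot_q12]; exact h.f23
  f23 := by rw [rot_y2, rot_q23]; exact h.f34
  f34 := by rw [rot_y3, rot_q34]; exact h.f41
  f41 := by rw [rot_y4, rot_q14]; exact h.f12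
  f13 := by rw [rot_y13, rot_q13]; exact h.f24
  f24 := by rw [rot_y24, rot_q24, abs_neg]; exact h.f13
  pos := by rw [rot_dt]; exact h.pos
  psd := by
    intro u v w
    have := h.gf_nonneg (-(u + v + w)) u v
    rw [← rot_gf] at this
    exact this

theorem Good.tau_nonneg {c : Cfg} (h : c.Good) : 0 ≤ c.tau := by
  rw [tau_eq]; exact h.gf_nonneg _ _ _

/-- Cauchy-Schwarz -/
theorem Good.cs {c : Cfg} (h : c.Good) (u v w : ℝ) :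
    (c.e1 * u + c.e2 * v + c.e3 * w) ^ 2 ≤ c.tau * c.gf u v w := by
  have key : ∀ t : ℝ, 0 ≤ c.gf u v w * (t * t) + (2 * (c.e1 * u + c.e2 * v + c.e3 * w)) * t
      + c.tau := by
    intro t
    have h1 := h.gf_nonneg (c.k1 + t * u) (c.k2 + t * v) (c.k3 + t * w)
    have h2 : c.gf (c.k1 + t * u) (c.k2 + t * v) (c.k3 + t * w)
        = c.gf u v w * (t * t) + (2 * (c.e1 * u + c.e2 * v + c.e3 * w)) * t + c.tau := by
      rw [tau_eq]; simp only [gf, e1, e2, e3]; ring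
    rw [← h2]; exact h1
  have := discrim_le_zero key
  unfold discrim at this
  nlinarith

theorem Good.q12_nonneg {c : Cfg} (h : c.Good) : 0 ≤ c.q12 := (abs_nonneg _).trans h.f12
theorem Good.q23_nonneg {c : Cfg} (h : c.Good) : 0 ≤ c.q23 := (abs_nonneg _).trans h.f23
theorem Good.q34_nonneg {c : Cfg} (h : c.Good) : 0 ≤ c.q34 := (abs_nonneg _).trans h.f34
theorem Good.q14_nonneg {c : Cfg} (h : c.Good) : 0 ≤ c.q14 := (abs_nonneg _).trans h.f41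
theorem Good.q13_nonneg {c : Cfg} (h : c.Good) : 0 ≤ c.q13 := (abs_nonneg _).trans h.f13
theorem Good.q24_nonneg {c : Cfg} (h : c.Good) : 0 ≤ c.q24 := (abs_nonneg _).trans h.f24

theorem Good.qs_le {c : Cfg} (h : c.Good) : c.qs ≤ 3 * c.dt + c.tau := by
  rw [← c.foster, qs]
  nlinarith [mul_nonneg (sub_nonneg.2 h.h1) h.q12_nonneg, mul_nonneg (sub_nonneg.2 h.h2)
    h.q23_nonneg, mul_nonneg (sub_nonneg.2 h.h3) h.q34_nonneg, mul_nonneg (sub_nonneg.2 h.h4)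
    h.q14_nonneg, mul_nonneg (sub_nonneg.2 h.hX) h.q13_nonneg, mul_nonneg (sub_nonneg.2 h.hZ)
    h.q24_nonneg]

/-- one near pair -/
theorem pair_bound (r q y κ : ℝ) (hy : |y| ≤ q) (hκ : κ ≤ 1 / 2) (hr : 1 / 2 - κ ≤ r - 1) :
    q + y / 2 ≤ r * q + κ * y := by
  have h1 : y ≤ |y| := le_abs_self y
  have h2 : 0 ≤ |y| := abs_nonneg y
  nlinarith [mul_nonneg (sub_nonneg.2 hκ) (sub_nonneg.2 h1),
    mul_nonneg (sub_nonneg.2 hr) (h2.trans hy), mul_nonneg (sub_nonneg.2 hκ) (sub_nonneg.2 hy)]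

/-- the general bound -/
theorem Good.gen {c : Cfg} (h : c.Good) (κ1 κ2 κ3 κ4 : ℝ) (h1 : κ1 ≤ 1 / 2) (h2 : κ2 ≤ 1 / 2)
    (h3 : κ3 ≤ 1 / 2) (h4 : κ4 ≤ 1 / 2) (r1 : 3 / 2 - c.r1 ≤ κ1) (r2 : 3 / 2 - c.r2 ≤ κ2)
    (r3 : 3 / 2 - c.r3 ≤ κ3) (r4 : 3 / 2 - c.r4 ≤ κ4) :
    c.R ≤ 3 * c.dt + c.tau + (κ1 * c.y1 + κ2 * c.y2 + κ3 * c.y3 + κ4 * c.y4) := by
  have a1 := pair_bound c.r1 c.q12 c.y1 κ1 h.f12 h1 (by linarith)
  have a2 := pair_bound c.r2 c.q23 c.y2 κ2 h.f23 h2 (by linarith)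
  have a3 := pair_bound c.r3 c.q34 c.y3 κ3 h.f34 h3 (by linarith)
  have a4 := pair_bound c.r4 c.q14 c.y4 κ4 h.f41 h4 (by linarith)
  have b1 := mul_nonneg (sub_nonneg.2 h.hX) h.q13_nonneg
  have b2 := mul_nonneg (sub_nonneg.2 h.hZ) h.q24_nonneg
  rw [← c.foster, R, qs]
  linarith

theorem alg1 (D t Y : ℝ) (hD : 0 ≤ D) (ht : 0 ≤ t) (hY : Y ^ 2 ≤ 4 * (t * D)) :
    3 * D + t + Y ≤ (2 + Real.sqrt 2) * (D + t) := by
  have hs : Real.sqrt 2 ^ 2 = 2 := Real.sq_sqrt (by norm_num)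
  have hs1 : 1 ≤ Real.sqrt 2 := by
    rw [Real.one_le_sqrt]; norm_num
  set s := Real.sqrt 2 with hsdef
  have hZ : 0 ≤ (s - 1) * D + (1 + s) * t :=
    add_nonneg (mul_nonneg (by linarith) hD) (mul_nonneg (by linarith) ht)
  have h1 : Y ^ 2 ≤ ((s - 1) * D + (1 + s) * t) ^ 2 := by
    have : ((s - 1) * D + (1 + s) * t) ^ 2
        = ((s - 1) * D - (1 + s) * t) ^ 2 + 4 * (s ^ 2 - 1) * (t * D) := by ring
    rw [this, hs]
    nlinarith [sq_nonneg ((s - 1) * D - (1 + s) * t)]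
  have h2 := (le_abs_self Y).trans (abs_le_of_sq_le_sq h1 hZ)
  linarith

theorem alg2 (D t Q Y : ℝ) (hD : 0 < D) (ht : 0 ≤ t) (htD : t ≤ 71 / 125 * D) (hQ0 : 0 ≤ Q)
    (hQ : Q ≤ 3 * D + t) (hY : 3 * D * Y ^ 2 ≤ t * Q ^ 2) :
    3 * D + t + Y ≤ (2 + Real.sqrt 2) * (D + t) := by
  have hs : Real.sqrt 2 ^ 2 = 2 := Real.sq_sqrt (by norm_num)
  have hs1 : 1 ≤ Real.sqrt 2 := by
    rw [Real.one_le_sqrt]; norm_num
  have hs2 : Real.sqrt 2 ≤ 1415 / 1000 := by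
    rw [Real.sqrt_le_left (by norm_num)]; norm_num
  set s := Real.sqrt 2 with hsdef
  have hZ : 0 ≤ (s - 1) * D + (1 + s) * t :=
    add_nonneg (mul_nonneg (by linarith) hD.le) (mul_nonneg (by linarith) ht)
  have h1 : t * Q ^ 2 ≤ t * (3 * D + t) ^ 2 :=
    mul_le_mul_of_nonneg_left (pow_le_pow_left₀ hQ0 hQ 2) ht
  have h3 : t * (3 * D + t) ^ 2 ≤ 3 * D * ((s - 1) * D + (1 + s) * t) ^ 2 := by
    have e : 3 * D * ((s - 1) * D + (1 + s) * t) ^ 2 - t * (3 * D + t) ^ 2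
        = 3 * (s ^ 2 - 2 * s + 1) * D ^ 3 + (6 * (s ^ 2 - 1) - 9) * (D ^ 2 * t)
          + (3 * (1 + 2 * s + s ^ 2) - 6) * (D * t ^ 2) - t ^ 3 := by ring
    rw [hs] at e
    have h4 : t ^ 3 ≤ 71 / 125 * (D * t ^ 2) := by
      have := mul_le_mul_of_nonneg_right htD (sq_nonneg t)
      nlinarith
    have h5 : 0 ≤ D ^ 3 := pow_nonneg hD.le 3
    have h6 : 0 ≤ D ^ 2 * t := mul_nonneg (sq_nonneg D) ht
    have h7 : 0 ≤ D * t ^ 2 := mul_nonneg hD.le (sq_nonneg t)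
    have h8 : 0 ≤ D * (D - 3 * t) ^ 2 := mul_nonneg hD.le (sq_nonneg _)
    nlinarith [mul_nonneg h5 (sub_nonneg.2 hs2), mul_nonneg h7 (sub_nonneg.2 hs1)]
  have h9 : Y ^ 2 ≤ ((s - 1) * D + (1 + s) * t) ^ 2 := by
    have h10 : 3 * D * Y ^ 2 ≤ 3 * D * ((s - 1) * D + (1 + s) * t) ^ 2 := hY.trans (h1.trans h3)
    exact le_of_mul_le_mul_left h10 (by linarith)
  have h2 := (le_abs_self Y).trans (abs_le_of_sq_le_sq h9 hZ)
  linarith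

/-- final step when the vector is at most `1` -/
theorem Good.fin_one {c : Cfg} (h : c.Good) (κ1 κ2 κ3 κ4 : ℝ) (h1 : κ1 ≤ 1 / 2)
    (h2 : κ2 ≤ 1 / 2) (h3 : κ3 ≤ 1 / 2) (h4 : κ4 ≤ 1 / 2) (r1 : 3 / 2 - c.r1 ≤ κ1)
    (r2 : 3 / 2 - c.r2 ≤ κ2) (r3 : 3 / 2 - c.r3 ≤ κ3) (r4 : 3 / 2 - c.r4 ≤ κ4)
    (hW : c.gf (-κ2 - κ3) (κ3 + κ4) (-κ1 - κ4) ≤ 4 * c.dt) :
    c.R ≤ (2 + Real.sqrt 2) * (c.dt + c.tau) := by
  have hg := h.gen κ1 κ2 κ3 κ4 h1 h2 h3 h4 r1 r2 r3 r4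
  have hc := h.cs (-κ2 - κ3) (κ3 + κ4) (-κ1 - κ4)
  have hτ := h.tau_nonneg
  have he : κ1 * c.y1 + κ2 * c.y2 + κ3 * c.y3 + κ4 * c.y4
      = c.e1 * (-κ2 - κ3) + c.e2 * (κ3 + κ4) + c.e3 * (-κ1 - κ4) := by
    simp only [y1, y2, y3, y4]; ring
  rw [← he] at hc
  refine hg.trans (alg1 c.dt c.tau _ h.pos.le hτ (hc.trans ?_))
  have := mul_le_mul_of_nonneg_left hW hτ
  linarith

/-- L1 for the skew part of the pair 23 -/
theorem Good.two_y2 {c : Cfg} (h : c.Good) : 3 * c.dt * c.y2 ^ 2 ≤ c.tau * c.qs ^ 2 := by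
  have hc := h.cs 1 0 0
  have hg : c.gf 1 0 0 = c.r4 := by simp only [gf]; ring
  rw [hg] at hc
  have hy : c.y2 ^ 2 ≤ c.tau * c.r4 := by
    have : c.y2 ^ 2 = (c.e1 * 1 + c.e2 * 0 + c.e3 * 0) ^ 2 := by simp only [y2]; ring
    rw [this]; exact hc
  have hdisc := c.a_disc
  have ha33 : 0 ≤ c.a33 := by
    have h1 := h.gf_nonneg c.Z (-c.g12) 0
    have h2 : c.gf c.Z (-c.g12) 0 = c.Z * c.a33 := by simp only [gf, a33]; ring
    rw [h2] at h1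
    have := h.hZ
    exact nonneg_of_mul_nonneg_right h1 (by linarith)
  have ha22 : 0 ≤ c.a22 := by
    have h1 := h.gf_nonneg c.r3 0 (-c.g13)
    have h2 : c.gf c.r3 0 (-c.g13) = c.r3 * c.a22 := by simp only [gf, a22]; ring
    rw [h2] at h1
    have := h.h3
    exact nonneg_of_mul_nonneg_right h1 (by linarith)
  have hdr : 0 < c.dt * c.r4 := mul_pos h.pos (by have := h.h4; linarith)
  have hform : 0 ≤ c.a22 * c.k3 ^ 2 - 2 * c.a23 * c.k2 * c.k3 + c.a33 * c.k2 ^ 2 := by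
    have hp : 0 < c.a22 := by
      rcases ha22.lt_or_eq with h' | h'
      · exact h'
      · exfalso; rw [← h'] at hdisc; nlinarith [sq_nonneg c.a23]
    have : c.a22 * (c.a22 * c.k3 ^ 2 - 2 * c.a23 * c.k2 * c.k3 + c.a33 * c.k2 ^ 2)
        = (c.a22 * c.k3 - c.a23 * c.k2) ^ 2 + (c.a22 * c.a33 - c.a23 ^ 2) * c.k2 ^ 2 := by ring
    have h3 : 0 ≤ c.a22 * (c.a22 * c.k3 ^ 2 - 2 * c.a23 * c.k2 * c.k3 + c.a33 * c.k2 ^ 2) := by
      rw [this, hdisc]; positivity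
    exact nonneg_of_mul_nonneg_right h3 hp
  have hl := c.l1_14
  have hL : c.dt * c.r4 ≤ c.qs ^ 2 / 3 := by
    have q1 := h.q12_nonneg
    have q2 := h.q23_nonneg
    have q3 := h.q34_nonneg
    have q4 := h.q14_nonneg
    have q5 := h.q13_nonneg
    have q6 := h.q24_nonneg
    have h1 : c.dt * c.r4 ≤ (c.q12 + c.q23 + c.q24) * (c.q13 + c.q23 + c.q34) - c.q23 ^ 2 := by
      rw [hl]; linarith
    have h2 : 3 * ((c.q12 + c.q23 + c.q24) * (c.q13 + c.q23 + c.q34) - c.q23 ^ 2)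
        ≤ ((c.q12 + c.q24) + (c.q13 + c.q34) + c.q23) ^ 2 := by
      nlinarith [sq_nonneg ((c.q12 + c.q24) - (c.q13 + c.q34)), sq_nonneg ((c.q12 + c.q24) - c.q23),
        sq_nonneg ((c.q13 + c.q34) - c.q23)]
    have h3 : ((c.q12 + c.q24) + (c.q13 + c.q34) + c.q23) ^ 2 ≤ c.qs ^ 2 := by
      apply pow_le_pow_left₀ (by positivity)
      rw [qs]; linarith
    linarith
  have hτ := h.tau_nonneg
  calc 3 * c.dt * c.y2 ^ 2 ≤ 3 * c.dt * (c.tau * c.r4) :=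
        mul_le_mul_of_nonneg_left hy (by have := h.pos; linarith)
    _ = 3 * c.tau * (c.dt * c.r4) := by ring
    _ ≤ 3 * c.tau * (c.qs ^ 2 / 3) := mul_le_mul_of_nonneg_left hL (by linarith)
    _ = c.tau * c.qs ^ 2 := by ring

theorem Good.two_y3 {c : Cfg} (h : c.Good) : 3 * c.dt * c.y3 ^ 2 ≤ c.tau * c.qs ^ 2 := by
  have := h.rot.two_y2
  rwa [rot_dt, rot_y2, rot_tau, rot_qs] at this

theorem Good.two_y4 {c : Cfg} (h : c.Good) : 3 * c.dt * c.y4 ^ 2 ≤ c.tau * c.qs ^ 2 := by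
  have := h.rot.two_y3
  rwa [rot_dt, rot_y3, rot_tau, rot_qs] at this

theorem Good.two_y1 {c : Cfg} (h : c.Good) : 3 * c.dt * c.y1 ^ 2 ≤ c.tau * c.qs ^ 2 := by
  have := h.rot.two_y4
  rwa [rot_dt, rot_y4, rot_tau, rot_qs] at this

theorem Good.qs_nonneg {c : Cfg} (h : c.Good) : 0 ≤ c.qs := by
  have q1 := h.q12_nonneg
  have q2 := h.q23_nonneg
  have q3 := h.q34_nonneg
  have q4 := h.q14_nonneg
  have q5 := h.q13_nonneg
  have q6 := h.q24_nonneg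
  rw [qs]; positivity

/-- at least two of the near pairs are long -/
theorem Good.two {c : Cfg} (h : c.Good) (ht : c.tau ≤ 71 / 125 * c.dt) (κ1 κ2 κ3 κ4 : ℝ)
    (h1 : κ1 ≤ 1 / 2)
    (h2 : κ2 ≤ 1 / 2) (h3 : κ3 ≤ 1 / 2) (h4 : κ4 ≤ 1 / 2) (r1 : 3 / 2 - c.r1 ≤ κ1)
    (r2 : 3 / 2 - c.r2 ≤ κ2) (r3 : 3 / 2 - c.r3 ≤ κ3) (r4 : 3 / 2 - c.r4 ≤ κ4)
    (p1 : 0 ≤ κ1) (p2 : 0 ≤ κ2) (p3 : 0 ≤ κ3) (p4 : 0 ≤ κ4) (hsum : κ1 + κ2 + κ3 + κ4 ≤ 1) :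
    c.R ≤ (2 + Real.sqrt 2) * (c.dt + c.tau) := by
  have hg := h.gen κ1 κ2 κ3 κ4 h1 h2 h3 h4 r1 r2 r3 r4
  have hd := h.pos
  have hτ := h.tau_nonneg
  refine hg.trans (alg2 c.dt c.tau c.qs _ hd hτ ht h.qs_nonneg h.qs_le ?_)
  set m := Real.sqrt (c.tau * c.qs ^ 2 / (3 * c.dt)) with hm
  have hm0 : 0 ≤ m := Real.sqrt_nonneg _
  have hm2 : m ^ 2 = c.tau * c.qs ^ 2 / (3 * c.dt) := Real.sq_sqrt (by positivity)
  have aux : ∀ y : ℝ, 3 * c.dt * y ^ 2 ≤ c.tau * c.qs ^ 2 → |y| ≤ m := by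
    intro y hy
    apply Real.abs_le_sqrt
    rw [le_div_iff₀ (by positivity)]
    linarith
  have b1 := aux _ h.two_y1
  have b2 := aux _ h.two_y2
  have b3 := aux _ h.two_y3
  have b4 := aux _ h.two_y4
  have hY : |κ1 * c.y1 + κ2 * c.y2 + κ3 * c.y3 + κ4 * c.y4| ≤ m := by
    rw [abs_le] at *
    constructor <;> nlinarith
  have hY2 : (κ1 * c.y1 + κ2 * c.y2 + κ3 * c.y3 + κ4 * c.y4) ^ 2 ≤ m ^ 2 := by
    rw [← sq_abs]; exact pow_le_pow_left₀ (abs_nonneg _) hY 2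
  rw [hm2, le_div_iff₀ (by positivity)] at hY2
  linarith

/-- large `tau` -/
theorem Good.direct {c : Cfg} (h : c.Good) (ht : 71 / 125 * c.dt ≤ c.tau) :
    c.R ≤ (2 + Real.sqrt 2) * (c.dt + c.tau) := by
  have hd := h.pos
  have hq := h.qs_le
  have a1 := (le_abs_self _).trans h.f12
  have a2 := (le_abs_self _).trans h.f23
  have a3 := (le_abs_self _).trans h.f34
  have a4 := (le_abs_self _).trans h.f41
  have q5 := h.q13_nonneg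
  have q6 := h.q24_nonneg
  have hR : c.R ≤ 3 / 2 * c.qs := by rw [R, qs]; linarith
  have hs2 : (1414 / 1000 : ℝ) ≤ Real.sqrt 2 := by
    apply Real.le_sqrt_of_sq_le; norm_num
  nlinarith [mul_nonneg (sub_nonneg.2 hs2) (add_nonneg hd.le h.tau_nonneg)]

end Cfg
end Pool.Agent.Helper84.FL
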