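import Pool.Agent.Helper84.FL.WidthPos

namespace Pool.Agent.Helper84.FL

theorem width_pr_bound (m : Fin 3 → ℝ) (K : Set (Fin 3 → ℝ)) (hK : Bornology.IsBounded K) :
    ∃ C : ℝ, ∀ x ∈ K, pr m x ≤ C := by
  obtain ⟨r, hr⟩ := hK.exists_norm_le
  refine ⟨∑ k, |m k| * r, fun x hx => ?_⟩
  unfold pr
  refine Finset.sum_le_sum (fun k _ => ?_)
  have h1 : |x k| ≤ r := (norm_le_pi_norm x k).trans (hr x hx)
  calc m k * x k ≤ |m k * x k| := le_abs_self _
    _ = |m k| * |x k| := abs_mul _ _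
    _ ≤ |m k| * r := mul_le_mul_of_nonneg_left h1 (abs_nonneg _)

theorem width_pz_add (n m : Fin 3 → ℝ) (e : ℝ) (z : Fin 3 → ℤ) :
    pz (n + e • m) z = pz n z + e * pz m z := by
  unfold pz
  rw [Finset.mul_sum, ← Finset.sum_add_distrib]
  refine Finset.sum_congr rfl (fun k _ => ?_)
  simp only [Pi.add_apply, Pi.smul_apply, smul_eq_mul]
  ring

theorem width_pr_add (n m : Fin 3 → ℝ) (e : ℝ) (x : Fin 3 → ℝ) :
    pr (n + e • m) x = pr n x + e * pr m x := by
  unfold pr
  rw [Finset.mul_sum, ← Finset.sum_add_distrib]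
  refine Finset.sum_congr rfl (fun k _ => ?_)
  simp only [Pi.add_apply, Pi.smul_apply, smul_eq_mul]
  ring

theorem width_pz_sum (f : Fin 4 → Fin 3 → ℤ) (hf : Superbase f) (n : Fin 3 → ℝ) :
    ∑ l, pz n (f l) = 0 := by
  unfold pz
  rw [Finset.sum_comm]
  refine Finset.sum_eq_zero (fun k _ => ?_)
  rw [← Finset.mul_sum]
  have h := congrFun hf.sum k
  rw [Finset.sum_apply] at h
  have h2 : ∑ l, ((f l k : ℤ) : ℝ) = 0 := by exact_mod_cast h
  rw [h2, mul_zero]

theorem width_diag_pos (f : Fin 4 → Fin 3 → ℤ) (hf : Superbase f) (n : Fin 3 → ℝ) (k : Fin 4)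
    (hn : InPos f n k) : 0 < -pz n (f k) := by
  have hs := width_pz_sum f hf n
  rw [← Finset.add_sum_erase _ _ (Finset.mem_univ k)] at hs
  have h0 : 0 ≤ ∑ l ∈ Finset.univ.erase k, pz n (f l) :=
    Finset.sum_nonneg (fun l hl => hn.2 l (Finset.ne_of_mem_erase hl))
  by_contra hcon
  have h1 : ∑ l ∈ Finset.univ.erase k, pz n (f l) = 0 := by linarith
  have h2 := (Finset.sum_eq_zero_iff_of_nonneg
    (fun l hl => hn.2 l (Finset.ne_of_mem_erase hl))).1 h1
  apply hn.1
  apply eq_of_pz f hf n 0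
  intro l
  have hz : pz 0 (f l) = 0 := by simp [pz]
  rw [hz]
  by_cases hl : l = k
  · subst hl; linarith
  · exact h2 l (Finset.mem_erase.2 ⟨hl, Finset.mem_univ _⟩)

/-- FL-10: the width bound for a chain. -/
theorem width_chain (f : Fin 4 → Fin 3 → ℤ) (hf : Superbase f) (p : Fin 4 → Fin 3 → ℤ)
    (hp : ∀ k, p (k + 1) = p k + f k) (n : Fin 4 → Fin 3 → ℝ)
    (hn : ∀ k, InPos f (n k) k) (K : Set (Fin 3 → ℝ)) (hK : Bornology.IsBounded K)
    (hsep : ∀ k, ∀ x ∈ K, pr (n k) x ≤ pz (n k) (p k)) :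
    WidthLe K (2 + Real.sqrt 2) := by
  classical
  -- the auxiliary functionals
  have hm : ∀ k : Fin 4, ∃ m : Fin 3 → ℝ, ∀ l, pz m (f l) = if l = k then -3 else 1 := by
    intro k
    refine real_dual f hf (fun l => if l = k then -3 else 1) ?_
    rw [Fin.sum_univ_four]
    fin_cases k <;> simp <;> norm_num
  choose m hm using hm
  -- bound on the constraints
  have hC : ∀ k : Fin 4, ∃ C : ℝ, ∀ x ∈ K, pr (m k) x ≤ C := fun k =>
    width_pr_bound (m k) K hK
  choose C hC using hC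
  set CC : ℝ := ∑ k, (|C k - pz (m k) (p k)|) with hCC
  have hCC0 : 0 ≤ CC := Finset.sum_nonneg (fun _ _ => abs_nonneg _)
  have hCk : ∀ k, C k - pz (m k) (p k) ≤ CC := fun k =>
    (le_abs_self _).trans (Finset.single_le_sum (f := fun k => |C k - pz (m k) (p k)|)
      (fun _ _ => abs_nonneg _) (Finset.mem_univ k))
  -- lower bound of the diagonal
  obtain ⟨k0, hk0⟩ := Finite.exists_min (fun k : Fin 4 => -pz (n k) (f k))
  set a : ℝ := -pz (n k0) (f k0) with ha
  have ha0 : 0 < a := width_diag_pos f hf (n k0) k0 (hn k0)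
  by_contra hcon
  -- the wide directions
  have hw : ∀ q : Fin 4 × Fin 4, ∃ s : ℝ, 2 + Real.sqrt 2 < s ∧ (q.1 ≠ q.2 → ∀ u : Fin 3 → ℤ,
      (∀ l, ∑ k, u k * f l k = (if l = q.1 then 1 else 0) - (if l = q.2 then 1 else 0)) →
      ∃ x ∈ K, ∃ x' ∈ K, s = ∑ i, (x i - x' i) * (u i : ℝ)) := by
    intro q
    by_cases hq : q.1 = q.2
    · exact ⟨2 + Real.sqrt 2 + 1, by linarith, fun h => absurd hq h⟩
    obtain ⟨u0, hu0, hu⟩ := dual_vec f hf q.1 q.2 hq
    have h1 : ∃ x ∈ K, ∃ x' ∈ K, 2 + Real.sqrt 2 < ∑ i, (x i - x' i) * (u0 i : ℝ) := by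
      by_contra h2
      push Not at h2
      exact hcon ⟨u0, hu0, h2⟩
    obtain ⟨x, hx, x', hx', hlt⟩ := h1
    refine ⟨_, hlt, fun _ u hu' => ⟨x, hx, x', hx', ?_⟩⟩
    have huu : (fun i => (u0 i : ℝ)) = fun i => (u i : ℝ) := by
      apply eq_of_pz f hf
      intro l
      have e1 := hu l
      have e2 := hu' l
      have e3 : ∑ k, u0 k * f l k = ∑ k, u k * f l k := e1.trans e2.symm
      unfold pz
      beta_reduce
      exact_mod_cast e3
    refine Finset.sum_congr rfl (fun i _ => ?_)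
    rw [congrFun huu i]
  choose s hs1 hs2 using hw
  obtain ⟨q0, hq0⟩ := Finite.exists_min s
  set D : ℝ := (2 + Real.sqrt 2) * (4 * CC / a) with hD
  have hsq : 0 ≤ Real.sqrt 2 := Real.sqrt_nonneg 2
  have hD0 : 0 ≤ D := by positivity
  set g : ℝ := s q0 - (2 + Real.sqrt 2) with hg
  have hg0 : 0 < g := sub_pos.2 (hs1 q0)
  set e : ℝ := g / (D + 1) with he
  have he0 : 0 < e := by positivity
  have heD : e * D < g := by
    rw [he, div_mul_eq_mul_div, div_lt_iff₀ (by positivity)]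
    nlinarith
  obtain ⟨i, j, hij, u, hu, hle⟩ := width_pos f hf p hp (fun k => n k + e • m k)
    (by
      intro k l hl
      rw [width_pz_add, hm k l, if_neg hl]
      have := (hn k).2 l hl
      linarith) K (e * CC) a (by positivity) ha0
    (by
      intro k
      rw [width_pz_add, hm k k, if_pos rfl]
      have := hk0 k
      beta_reduce at this
      linarith)
    (by
      intro k x hx
      rw [width_pz_add, width_pr_add]
      have h1 := hsep k x hx
      have h2 := hC k x hx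
      have h3 := hCk k
      have h4 : e * pr (m k) x ≤ e * (pz (m k) (p k) + CC) :=
        mul_le_mul_of_nonneg_left (by linarith) he0.le
      linarith)
  obtain ⟨x, hx, x', hx', hsx⟩ := hs2 (i, j) hij u hu
  have h1 := hle x hx x' hx'
  rw [← hsx] at h1
  have h2 := hq0 (i, j)
  have h3 : (2 + Real.sqrt 2) * (1 + 4 * (e * CC) / a) = (2 + Real.sqrt 2) + e * D := by
    rw [hD]; ring
  rw [h3] at h1
  linarith

end Pool.Agent.Helper84.FL
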