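import Pool.Agent.Helper84.FL.Net
import Pool.Agent.Helper84.FL.Dual
import Pool.Agent.Helper84.FL.Mu

namespace Pool.Agent.Helper84.FL

private theorem WP_pz_sum {ι : Type} (s : Finset ι) (v : Fin 3 → ℝ) (g : ι → Fin 3 → ℤ) :
    pz v (∑ l ∈ s, g l) = ∑ l ∈ s, pz v (g l) := by
  simp only [pz, Finset.sum_apply, Int.cast_sum, Finset.mul_sum]
  rw [Finset.sum_comm]

private theorem WP_pz_add (v : Fin 3 → ℝ) (y z : Fin 3 → ℤ) : pz v (y + z) = pz v y + pz v z := by
  simp only [pz, Pi.add_apply, Int.cast_add, mul_add, Finset.sum_add_distrib]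

private theorem WP_pz_lin (c : Fin 4 → ℝ) (n : Fin 4 → Fin 3 → ℝ) (z : Fin 3 → ℤ) :
    pz (fun t => ∑ k, c k * n k t) z = ∑ k, c k * pz (n k) z := by
  simp only [pz, Finset.sum_mul, Finset.mul_sum]
  rw [Finset.sum_comm]
  refine Finset.sum_congr rfl fun k _ => Finset.sum_congr rfl fun t _ => by ring

private theorem WP_pr_lin (c : Fin 4 → ℝ) (n : Fin 4 → Fin 3 → ℝ) (x : Fin 3 → ℝ) :
    pr (fun t => ∑ k, c k * n k t) x = ∑ k, c k * pr (n k) x := by
  simp only [pr, Finset.sum_mul, Finset.mul_sum]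
  rw [Finset.sum_comm]
  refine Finset.sum_congr rfl fun k _ => Finset.sum_congr rfl fun t _ => by ring

/-- FL-9: strictly positive products, constraints violated by at most `δ`. -/
theorem width_pos (f : Fin 4 → Fin 3 → ℤ) (hf : Superbase f) (p : Fin 4 → Fin 3 → ℤ)
    (hp : ∀ k, p (k + 1) = p k + f k) (n : Fin 4 → Fin 3 → ℝ)
    (hn : ∀ k l, l ≠ k → 0 < pz (n k) (f l)) (K : Set (Fin 3 → ℝ)) (δ a : ℝ) (hδ : 0 ≤ δ)
    (ha : 0 < a) (hna : ∀ k, a ≤ -pz (n k) (f k))
    (hsep : ∀ k, ∀ x ∈ K, pr (n k) x ≤ pz (n k) (p k) + δ) :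
    ∃ i j : Fin 4, i ≠ j ∧ ∃ u : Fin 3 → ℤ, (∀ l, ∑ k, u k * f l k
      = (if l = i then 1 else 0) - (if l = j then 1 else 0)) ∧
      ∀ x ∈ K, ∀ x' ∈ K, ∑ i, (x i - x' i) * (u i : ℝ)
        ≤ (2 + Real.sqrt 2) * (1 + 4 * δ / a) := by
  classical
  have hsum : ∀ k, ∑ l, pz (n k) (f l) = 0 := by
    intro k
    rw [← WP_pz_sum, hf.sum]
    simp [pz]
  obtain ⟨μ, hμ, hμB⟩ := exists_mu (fun l k => pz (n k) (f l)) (fun l k h => hn k l h) hsum
  have hμB' : ∀ l, ∑ k, μ k * pz (n k) (f l) = 0 := hμB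
  set F : Fin 4 → Fin 4 → ℝ := fun l k => if l = k then 0 else μ k * pz (n k) (f l) with hF
  have hFpos : ∀ i j, i ≠ j → 0 < F i j := by
    intro i j hij
    simp only [hF, hij, if_false]
    exact mul_pos (hμ j) (hn j i hij)
  have hrow : ∀ l, ∑ k, F l k = -(μ l * pz (n l) (f l)) := by
    intro l
    have h2 : ∑ k, F l k = ∑ k, (μ k * pz (n k) (f l) -
        if l = k then μ l * pz (n l) (f l) else 0) := by
      refine Finset.sum_congr rfl fun k _ => ?_
      simp only [hF]
      split_ifs with h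
      · rw [h]; ring
      · ring
    rw [h2, Finset.sum_sub_distrib, hμB', Finset.sum_ite_eq, if_pos (Finset.mem_univ _)]
    ring
  have hcol : ∀ k, ∑ l, F l k = -(μ k * pz (n k) (f k)) := by
    intro k
    have h2 : ∑ l, F l k = ∑ l, (μ k * pz (n k) (f l) -
        if k = l then μ k * pz (n k) (f k) else 0) := by
      refine Finset.sum_congr rfl fun l _ => ?_
      simp only [hF]
      by_cases h : l = k
      · rw [if_pos h, if_pos h.symm, h]; ring
      · rw [if_neg h, if_neg (fun h' => h h'.symm)]; ring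
    rw [h2, Finset.sum_sub_distrib, ← Finset.mul_sum, hsum, Finset.sum_ite_eq,
      if_pos (Finset.mem_univ _)]
    ring
  have hbal : ∀ i, ∑ j, F i j = ∑ j, F j i := fun i => by rw [hrow, hcol]
  obtain ⟨i, j, hij, φ, hφ, hrange, hmain⟩ := flow_main F hFpos hbal
  obtain ⟨u, -, hu⟩ := dual_vec f hf i j hij
  refine ⟨i, j, hij, u, hu, ?_⟩
  -- the functional as a combination of the normals
  have hur : (fun t => (u t : ℝ)) = fun t => ∑ k, (-(φ k * μ k)) * n k t := by
    apply eq_of_pz f hf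
    intro l
    rw [WP_pz_lin]
    have h1 : pz (fun t => (u t : ℝ)) (f l) = (if l = i then 1 else 0) - (if l = j then 1 else 0) := by
      have h2 := hu l
      have h3 : ((∑ k, u k * f l k : ℤ) : ℝ) =
          (((if l = i then 1 else 0) - (if l = j then 1 else 0) : ℤ) : ℝ) := by rw [h2]
      push_cast at h3
      rw [pz, h3]
    rw [h1, ← hφ l]
    have h4 : ∑ m, F l m * (φ l - φ m) = φ l * ∑ m, F l m - ∑ m, φ m * F l m := by
      rw [Finset.mul_sum, ← Finset.sum_sub_distrib]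
      refine Finset.sum_congr rfl fun m _ => by ring
    have h5 : ∑ m, φ m * F l m = ∑ m, φ m * (μ m * pz (n m) (f l)) -
        φ l * (μ l * pz (n l) (f l)) := by
      have h2 : ∑ k, φ k * F l k = ∑ k, (φ k * (μ k * pz (n k) (f l)) -
          if l = k then φ l * (μ l * pz (n l) (f l)) else 0) := by
        refine Finset.sum_congr rfl fun k _ => ?_
        simp only [hF]
        split_ifs with h
        · rw [h]; ring
        · ring
      rw [h2, Finset.sum_sub_distrib, Finset.sum_ite_eq, if_pos (Finset.mem_univ _)]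
    rw [h4, h5, hrow]
    have h6 : ∑ k, (-(φ k * μ k)) * pz (n k) (f l) = -∑ m, φ m * (μ m * pz (n m) (f l)) := by
      rw [← Finset.sum_neg_distrib]
      refine Finset.sum_congr rfl fun m _ => by ring
    rw [h6]
    ring
  -- the normals are balanced
  have hzero : (fun t => ∑ k, μ k * n k t) = fun _ => (0 : ℝ) := by
    apply eq_of_pz f hf
    intro l
    rw [WP_pz_lin, hμB']
    simp [pz]
  -- total slack
  set L : Fin 4 → (Fin 3 → ℝ) → ℝ := fun k x => μ k * (pz (n k) (p k) + δ - pr (n k) x) with hL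
  have hLnn : ∀ k, ∀ x ∈ K, 0 ≤ L k x := fun k x hx =>
    mul_nonneg (hμ k).le (by linarith [hsep k x hx])
  have hLsum : ∀ x, ∑ k, L k x = fwd F + δ * ∑ k, μ k := by
    intro x
    have h1 : ∑ k, L k x = ∑ k, μ k * pz (n k) (p k) + δ * ∑ k, μ k -
        pr (fun t => ∑ k, μ k * n k t) x := by
      rw [WP_pr_lin, Finset.mul_sum, ← Finset.sum_add_distrib, ← Finset.sum_sub_distrib]
      refine Finset.sum_congr rfl fun k _ => by simp only [hL]; ring
    have h2 : pr (fun t => ∑ k, μ k * n k t) x = 0 := by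
      rw [hzero]; simp [pr]
    have h3 : ∑ k, μ k * pz (n k) (p 0) = 0 := by
      rw [← WP_pz_lin, hzero]; simp [pz]
    have hp1 : p 1 = p 0 + f 0 := hp 0
    have hp2 : p 2 = p 1 + f 1 := hp 1
    have hp3 : p 3 = p 2 + f 2 := hp 2
    have h4 : ∑ k, μ k * pz (n k) (p k) = fwd F := by
      rw [Fin.sum_univ_four] at h3 ⊢
      rw [hp3, hp2, hp1]
      simp only [WP_pz_add, fwd, hF]
      have e01 : (0 : Fin 4) ≠ 1 := by decide
      have e02 : (0 : Fin 4) ≠ 2 := by decide
      have e03 : (0 : Fin 4) ≠ 3 := by decide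
      have e12 : (1 : Fin 4) ≠ 2 := by decide
      have e13 : (1 : Fin 4) ≠ 3 := by decide
      have e23 : (2 : Fin 4) ≠ 3 := by decide
      rw [if_neg e01, if_neg e02, if_neg e03, if_neg e12, if_neg e13, if_neg e23]
      linear_combination h3
    rw [h1, h2, h4, sub_zero]
  -- the flow dominates the weights
  have hw : a * ∑ k, μ k ≤ 4 * fwd F := by
    have h1 : a * ∑ k, μ k ≤ ∑ k, ∑ l, F l k := by
      rw [Finset.mul_sum]
      refine Finset.sum_le_sum fun k _ => ?_
      rw [hcol]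
      have := mul_le_mul_of_nonneg_left (hna k) (hμ k).le
      linarith
    have b0 := hbal 0
    have b1 := hbal 1
    have b2 := hbal 2
    have b3 := hbal 3
    have hd : ∀ k, F k k = 0 := fun k => by simp [hF]
    simp only [Fin.sum_univ_four, hd] at h1 b0 b1 b2 b3
    have hnn : ∀ i j, 0 ≤ F i j := by
      intro i j
      by_cases h : i = j
      · rw [h, hd]
      · exact (hFpos i j h).le
    have := hnn 0 1
    have := hnn 0 2
    have := hnn 0 3
    have := hnn 1 0
    have := hnn 1 2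
    have := hnn 1 3
    have := hnn 2 0
    have := hnn 2 1
    have := hnn 2 3
    have := hnn 3 0
    have := hnn 3 1
    have := hnn 3 2
    rw [Fin.sum_univ_four] at *
    rw [fwd]
    linarith
  intro x hx x' hx'
  have h1 : ∑ t, (x t - x' t) * (u t : ℝ) = ∑ k, φ k * (L k x - L k x') := by
    have h2 : ∑ t, (x t - x' t) * (u t : ℝ) = pr (fun t => (u t : ℝ)) x -
        pr (fun t => (u t : ℝ)) x' := by
      simp only [pr]
      rw [← Finset.sum_sub_distrib]
      refine Finset.sum_congr rfl fun t _ => by ring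
    rw [h2, hur, WP_pr_lin, WP_pr_lin, ← Finset.sum_sub_distrib]
    refine Finset.sum_congr rfl fun k _ => by simp only [hL]; ring
  have h2 : ∑ k, φ k * (L k x - L k x') = ∑ k, (φ k - φ j) * (L k x - L k x') := by
    have h3 : ∑ k, (L k x - L k x') = 0 := by
      rw [Finset.sum_sub_distrib, hLsum, hLsum, sub_self]
    have h4 : ∑ k, (φ k - φ j) * (L k x - L k x') =
        ∑ k, φ k * (L k x - L k x') - φ j * ∑ k, (L k x - L k x') := by
      rw [Finset.mul_sum, ← Finset.sum_sub_distrib]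
      refine Finset.sum_congr rfl fun k _ => by ring
    rw [h4, h3, mul_zero, sub_zero]
  have h3 : ∑ k, (φ k - φ j) * (L k x - L k x') ≤ ∑ k, (φ i - φ j) * L k x := by
    refine Finset.sum_le_sum fun k _ => ?_
    have e1 := hrange k
    have e2 := hLnn k x hx
    have e3 := hLnn k x' hx'
    have e4 : 0 ≤ (φ i - φ k) * L k x := mul_nonneg (by linarith [e1.2]) e2
    have e5 : 0 ≤ (φ k - φ j) * L k x' := mul_nonneg (by linarith [e1.1]) e3
    nlinarith
  rw [← Finset.mul_sum, hLsum] at h3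
  have hd0 : 0 ≤ φ i - φ j := by linarith [(hrange i).1]
  have h4 : (φ i - φ j) * (δ * ∑ k, μ k) ≤ (2 + Real.sqrt 2) * (4 * δ / a) := by
    have e1 : ∑ k, μ k ≤ 4 * fwd F / a := by
      rw [le_div_iff₀ ha]; linarith
    calc (φ i - φ j) * (δ * ∑ k, μ k) ≤ (φ i - φ j) * (δ * (4 * fwd F / a)) :=
          mul_le_mul_of_nonneg_left (mul_le_mul_of_nonneg_left e1 hδ) hd0
      _ = (fwd F * (φ i - φ j)) * (4 * δ / a) := by ring
      _ ≤ (2 + Real.sqrt 2) * (4 * δ / a) := mul_le_mul_of_nonneg_right hmain (by positivity)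
  calc ∑ t, (x t - x' t) * (u t : ℝ) = ∑ k, (φ k - φ j) * (L k x - L k x') := by rw [h1, h2]
    _ ≤ (φ i - φ j) * (fwd F + δ * ∑ k, μ k) := h3
    _ = fwd F * (φ i - φ j) + (φ i - φ j) * (δ * ∑ k, μ k) := by ring
    _ ≤ (2 + Real.sqrt 2) + (2 + Real.sqrt 2) * (4 * δ / a) := add_le_add hmain h4
    _ = (2 + Real.sqrt 2) * (1 + 4 * δ / a) := by ring

end Pool.Agent.Helper84.FL
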